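import Pool.Agent.Work.MP_3242df_lt.Interface2

/-!
# ASM2: assembly of two steps on `R x R`  (helper52)
-/

set_option autoImplicit false

open MeasureTheory Matrix Finset
open scoped BigOperators ComplexOrder Topology

namespace Pool.LT.ASM2

theorem hcs {E : Type*} [Zero E] {R : ℝ} {f : ℝ → E} (h : ∀ x, R ≤ |x| → f x = 0) :
    HasCompactSupport f := by
  refine HasCompactSupport.intro (K := Set.Icc (-R) R) isCompact_Icc fun x hx => h x ?_
  by_contra hc
  push Not at hc
  exact hx ⟨by linarith [(abs_lt.1 hc).1], by linarith [(abs_lt.1 hc).2]⟩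

theorem deriv_zero {R : ℝ} {f : ℝ → ℂ} {f' : ℂ} {x : ℝ} (h : ∀ s, R ≤ |s| → f s = 0)
    (hd : HasDerivAt f f' x) (hx : R < |x|) : f' = 0 := by
  have e : f =ᶠ[𝓝 x] fun _ => (0 : ℂ) := by
    have : ∀ᶠ s in 𝓝 x, R < |s| := (continuous_abs.tendsto x).eventually (lt_mem_nhds hx)
    filter_upwards [this] with s hs
    exact h s hs.le
  have h2 : HasDerivAt f 0 x := (hasDerivAt_const x (0 : ℂ)).congr_of_eventuallyEq e
  exact hd.unique h2

/-- double integral facts -/
theorem dbl {R : ℝ} {F : ℝ → ℝ → ℝ} (hF : Continuous fun p : ℝ × ℝ => F p.1 p.2)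
    (hs : ∀ x y, R ≤ |x| ∨ R ≤ |y| → F x y = 0) :
    (∀ x, Integrable (fun y => F x y)) ∧ Integrable (fun x => ∫ y, F x y) := by
  constructor
  · intro x
    refine Continuous.integrable_of_hasCompactSupport ?_ (hcs (R := R) fun y hy => hs x y (Or.inr hy))
    exact hF.comp (by fun_prop : Continuous fun y : ℝ => (x, y))
  · have e : (fun x => ∫ y, F x y) = fun x => ∫ y in Set.Icc (-R) R, F x y := by
      funext x
      rw [setIntegral_eq_integral_of_forall_compl_eq_zero]
      intro y hy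
      refine hs x y (Or.inr ?_)
      by_contra hc
      push Not at hc
      exact hy ⟨by linarith [(abs_lt.1 hc).1], by linarith [(abs_lt.1 hc).2]⟩
    have hc : Continuous (fun x => ∫ y, F x y) := by
      rw [e]
      exact continuous_parametric_integral_of_continuous (f := F) hF isCompact_Icc
    refine hc.integrable_of_hasCompactSupport (hcs (R := R) fun x hx => ?_)
    have : (fun y => F x y) = fun _ => (0 : ℝ) := by
      funext y
      exact hs x y (Or.inl hx)
    rw [this]; simp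

theorem rtr_outer {N : ℕ} (u : Fin N → ℂ) :
    rtr (outer u * outer u) = (∑ i, ‖u i‖ ^ 2) ^ 2 := by
  have h : Matrix.trace (outer u * outer u) = (((∑ i, ‖u i‖ ^ 2) ^ 2 : ℝ) : ℂ) := by
    have e : ∀ i, u i * (starRingEnd ℂ) (u i) = ((‖u i‖ ^ 2 : ℝ) : ℂ) := fun i => by
      rw [Complex.mul_conj, Complex.normSq_eq_norm_sq]
    simp only [Matrix.trace, Matrix.diag_apply, Matrix.mul_apply, outer, Matrix.of_apply]
    push_cast
    rw [sq, Finset.sum_mul_sum]
    refine Finset.sum_congr rfl fun i _ => Finset.sum_congr rfl fun j _ => ?_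
    have h1 := e i
    have h2 := e j
    push_cast at h1 h2
    rw [← h1, ← h2]
    ring
  unfold rtr
  rw [h, Complex.ofReal_re]

end Pool.LT.ASM2

namespace Pool.LT

open ASM2

theorem stmt_ASM2 (h1 : Stmt_STEP1) (h2 : Stmt_STEP2) (hO : Stmt_OUT) (hR : Stmt_REG) :
    Stmt_ASM2 := by
  intro N R u u1 u2 hR0 hu hu1 hu2 hs hd1 hd2 ho
  have z1 : ∀ x y, R + 1 ≤ |x| ∨ R + 1 ≤ |y| → u1 x y = 0 := by
    intro x y h
    funext i
    rcases h with h | h
    · exact deriv_zero (R := R) (fun s hs' => by rw [hs s y (Or.inl hs')]; rfl) (hd1 x y i)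
        (by linarith)
    · have e : (fun s => u s y i) = fun _ => (0 : ℂ) := by
        funext s
        rw [hs s y (Or.inr (by linarith))]; rfl
      have := hd1 x y i
      rw [e] at this
      exact this.unique (hasDerivAt_const x (0 : ℂ))
  have z2 : ∀ x y, R + 1 ≤ |x| ∨ R + 1 ≤ |y| → u2 x y = 0 := by
    intro x y h
    funext i
    rcases h with h | h
    · have e : (fun s => u x s i) = fun _ => (0 : ℂ) := by
        funext s
        rw [hs x s (Or.inl (by linarith))]; rfl
      have := hd2 x y i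
      rw [e] at this
      exact this.unique (hasDerivAt_const y (0 : ℂ))
    · exact deriv_zero (R := R) (fun s hs' => by rw [hs x s (Or.inr hs')]; rfl) (hd2 x y i)
        (by linarith)
  -- the matrices
  let S : ℝ → Mat N := fun x => Matrix.of fun i j => ∫ y, u x y i * (starRingEnd ℂ) (u x y j)
  have cx := hR ℝ volume N R u u1 hR0 hu hu1 (fun x y hx => hs x y (Or.inl hx))
    (fun x y hy => hs x y (Or.inr (by rwa [Real.norm_eq_abs] at hy))) hd1
  have s1 := h1 N R _ _ _ cx (fun i j => by simpa using ho i j)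
  have s2 : ∀ x, Real.sqrt 3 * Real.pi * ∫ y, (∑ i, ‖u x y i‖ ^ 2) ^ 2
      ≤ (∫ y, ∑ i, ‖u2 x y i‖ ^ 2) + Real.pi ^ 2 / 4 * rtr (S x * S x * S x) := by
    intro x
    have hcu2 : Continuous (fun y => u2 x y) := hu2.comp (by fun_prop : Continuous fun y : ℝ => (x, y))
    have c := hO N R (fun y => u x y) (fun y => u2 x y) hR0 (fun y i => hd2 x y i) hcu2
      (fun y hy => hs x y (Or.inr hy))
    have := h2 N R _ _ _ c (Real.sqrt 3 * Real.pi) (S x) (fun i j => rfl)
    have e1 : (Real.sqrt 3 * Real.pi) ^ 2 / 12 = Real.pi ^ 2 / 4 := by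
      rw [mul_pow, Real.sq_sqrt (by norm_num)]; ring
    rw [e1] at this
    simpa only [rtr_outer] using this
  -- integrate
  have F0 := dbl (R := R) (F := fun x y => (∑ i, ‖u x y i‖ ^ 2) ^ 2)
    (by
      have : ∀ i, Continuous fun p : ℝ × ℝ => u p.1 p.2 i := fun i => (continuous_apply i).comp hu
      fun_prop)
    (fun x y h => by simp [hs x y h])
  have F1 := dbl (R := R + 1) (F := fun x y => ∑ i, ‖u1 x y i‖ ^ 2)
    (by
      have : ∀ i, Continuous fun p : ℝ × ℝ => u1 p.1 p.2 i := fun i => (continuous_apply i).comp hu1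
      fun_prop)
    (fun x y h => by simp [z1 x y h])
  have F2 := dbl (R := R + 1) (F := fun x y => ∑ i, ‖u2 x y i‖ ^ 2)
    (by
      have : ∀ i, Continuous fun p : ℝ × ℝ => u2 p.1 p.2 i := fun i => (continuous_apply i).comp hu2
      fun_prop)
    (fun x y h => by simp [z2 x y h])
  have hSc : ∀ i j, Continuous fun x => S x i j := fun i j => by
    have : ∀ x, HasDerivAt (fun y => S y i j) _ x := fun x => cx.deriv x i j
    exact continuous_iff_continuousAt.2 fun x => (this x).continuousAt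
  have hS0 : ∀ x, R ≤ |x| → S x = 0 := fun x hx => cx.supp x hx
  have hSi : Integrable (fun x => rtr (S x * S x * S x)) := by
    refine Continuous.integrable_of_hasCompactSupport ?_ (hcs (R := R) fun x hx => ?_)
    · unfold rtr
      simp only [Matrix.trace, Matrix.diag_apply, Matrix.mul_apply]
      fun_prop
    · rw [hS0 x hx]; simp [rtr]
  have e3 : (∫ x, ∫ y, ∑ i, (‖u1 x y i‖ ^ 2 + ‖u2 x y i‖ ^ 2))
      = (∫ x, ∫ y, ∑ i, ‖u1 x y i‖ ^ 2) + ∫ x, ∫ y, ∑ i, ‖u2 x y i‖ ^ 2 := by
    rw [← integral_add F1.2 F2.2]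
    refine integral_congr_ae (Filter.Eventually.of_forall fun x => ?_)
    simp only
    rw [← integral_add (F1.1 x) (F2.1 x)]
    refine integral_congr_ae (Filter.Eventually.of_forall fun y => ?_)
    simp only
    rw [Finset.sum_add_distrib]
  rw [e3, ← integral_const_mul]
  have s3 : ∫ x, Real.sqrt 3 * Real.pi * ∫ y, (∑ i, ‖u x y i‖ ^ 2) ^ 2
      ≤ ∫ x, ((∫ y, ∑ i, ‖u2 x y i‖ ^ 2) + Real.pi ^ 2 / 4 * rtr (S x * S x * S x)) :=
    integral_mono (F0.2.const_mul _) (F2.2.add (hSi.const_mul _)) s2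
  rw [integral_add F2.2 (hSi.const_mul _), integral_const_mul (Real.pi ^ 2 / 4)] at s3
  have s1' : Real.pi ^ 2 / 4 * ∫ x, rtr (S x * S x * S x) ≤ ∫ x, ∫ y, ∑ i, ‖u1 x y i‖ ^ 2 := s1
  linarith

end Pool.LT
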