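import Pool.Agent.Work.MP_3242df_lt.Interface

set_option autoImplicit false

open MeasureTheory Matrix Finset
open scoped BigOperators ComplexOrder

namespace Pool.LT
namespace REG

/-- the pointwise identity behind `(Q)` -/
theorem pointwise {N : ℕ} (u u' : Fin N → ℂ) (X : Mat N) (hX : X.IsHermitian) :
    (∑ i, ‖u' i‖ ^ 2) + rtr ((Matrix.of fun i j => u' i * (starRingEnd ℂ) (u j)
        + u i * (starRingEnd ℂ) (u' j)) * X)
      + rtr ((Matrix.of fun i j => u i * (starRingEnd ℂ) (u j)) * (X * X))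
      = ∑ i, ‖u' i + ∑ j, X i j * u j‖ ^ 2 := by
  have hc : ∀ i, (starRingEnd ℂ) (∑ j, X i j * u j) = ∑ j, X j i * (starRingEnd ℂ) (u j) := by
    intro i
    rw [map_sum]
    refine Finset.sum_congr rfl fun j _ => ?_
    rw [map_mul]
    congr 1
    exact hX.apply j i
  have T1 : Matrix.trace ((Matrix.of fun i j => u' i * (starRingEnd ℂ) (u j)
        + u i * (starRingEnd ℂ) (u' j)) * X)
      = (∑ i, u' i * (starRingEnd ℂ) (∑ j, X i j * u j))
        + ∑ i, (starRingEnd ℂ) (u' i) * (∑ j, X i j * u j) := by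
    simp only [Matrix.trace, Matrix.diag_apply, Matrix.mul_apply, Matrix.of_apply]
    have e1 : ∀ i, ∑ j, (u' i * (starRingEnd ℂ) (u j) + u i * (starRingEnd ℂ) (u' j)) * X j i
        = u' i * (starRingEnd ℂ) (∑ j, X i j * u j)
          + ∑ j, u i * (starRingEnd ℂ) (u' j) * X j i := by
      intro i
      rw [hc i, Finset.mul_sum, ← Finset.sum_add_distrib]
      refine Finset.sum_congr rfl fun j _ => ?_
      ring
    rw [Finset.sum_congr rfl fun i _ => e1 i, Finset.sum_add_distrib]
    congr 1
    rw [Finset.sum_comm]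
    refine Finset.sum_congr rfl fun j _ => ?_
    rw [Finset.mul_sum]
    refine Finset.sum_congr rfl fun i _ => ?_
    ring
  have T2 : Matrix.trace ((Matrix.of fun i j => u i * (starRingEnd ℂ) (u j)) * (X * X))
      = ∑ k, (starRingEnd ℂ) (∑ j, X k j * u j) * (∑ j, X k j * u j) := by
    simp only [Matrix.trace, Matrix.diag_apply, Matrix.mul_apply, Matrix.of_apply]
    have e2 : ∀ i, ∑ j, u i * (starRingEnd ℂ) (u j) * ∑ k, X j k * X k i
        = ∑ k, ∑ j, X j k * (starRingEnd ℂ) (u j) * (X k i * u i) := by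
      intro i
      rw [Finset.sum_comm]
      refine Finset.sum_congr rfl fun j _ => ?_
      rw [Finset.mul_sum]
      refine Finset.sum_congr rfl fun k _ => ?_
      ring
    rw [Finset.sum_congr rfl fun i _ => e2 i, Finset.sum_comm]
    refine Finset.sum_congr rfl fun k _ => ?_
    rw [hc k, Finset.sum_mul_sum, Finset.sum_comm]
  unfold rtr
  rw [T1, T2]
  have R1 : ∀ i, ‖u' i + ∑ j, X i j * u j‖ ^ 2 = ‖u' i‖ ^ 2
      + ((u' i * (starRingEnd ℂ) (∑ j, X i j * u j)).re
        + ((starRingEnd ℂ) (u' i) * (∑ j, X i j * u j)).re)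
      + ((starRingEnd ℂ) (∑ j, X i j * u j) * (∑ j, X i j * u j)).re := by
    intro i
    generalize (∑ j, X i j * u j) = w
    rw [Complex.sq_norm, Complex.sq_norm, Complex.normSq_add]
    simp only [Complex.normSq_apply, Complex.mul_re, Complex.conj_re, Complex.conj_im]
    ring
  rw [Finset.sum_congr rfl fun i _ => R1 i]
  simp only [Finset.sum_add_distrib, Complex.add_re, Complex.re_sum]

theorem nonneg {N : ℕ} (u u' : Fin N → ℂ) (X : Mat N) (hX : X.IsHermitian) :
    0 ≤ (∑ i, ‖u' i‖ ^ 2) + rtr ((Matrix.of fun i j => u' i * (starRingEnd ℂ) (u j)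
        + u i * (starRingEnd ℂ) (u' j)) * X)
      + rtr ((Matrix.of fun i j => u i * (starRingEnd ℂ) (u j)) * (X * X)) := by
  rw [pointwise u u' X hX]
  positivity

section param

variable {Y : Type} [NormedAddCommGroup Y] [NormedSpace ℝ Y] [FiniteDimensional ℝ Y]
  [MeasurableSpace Y] [BorelSpace Y] (μ : Measure Y) [IsFiniteMeasureOnCompacts μ]

theorem integrable_of {E : Type*} [NormedAddCommGroup E] {R : ℝ} {g : Y → E} (hg : Continuous g)
    (h0 : ∀ y, R ≤ ‖y‖ → g y = 0) : Integrable g μ := by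
  have : ProperSpace Y := FiniteDimensional.proper ℝ Y
  refine hg.integrable_of_hasCompactSupport ?_
  refine HasCompactSupport.intro (isCompact_closedBall (0 : Y) R) ?_
  intro y hy
  apply h0
  have : ¬ dist y 0 ≤ R := fun h => hy (Metric.mem_closedBall.2 h)
  rw [dist_zero_right] at this
  exact le_of_lt (not_le.1 this)

theorem paramCont {E : Type*} [NormedAddCommGroup E] [NormedSpace ℝ E] {R : ℝ} (F : ℝ → Y → E)
    (hF : Continuous (fun p : ℝ × Y => F p.1 p.2)) (h0 : ∀ x y, R ≤ ‖y‖ → F x y = 0) :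
    Continuous (fun x => ∫ y, F x y ∂μ) := by
  have : ProperSpace Y := FiniteDimensional.proper ℝ Y
  have : IsLocallyFiniteMeasure μ := isLocallyFiniteMeasure_of_isFiniteMeasureOnCompacts
  have h := continuous_parametric_integral_of_continuous (μ := μ) (f := F) hF
    (isCompact_closedBall (0 : Y) R)
  have e : (fun x => ∫ y, F x y ∂μ) = fun x => ∫ y in Metric.closedBall (0 : Y) R, F x y ∂μ := by
    funext x
    rw [setIntegral_eq_integral_of_forall_compl_eq_zero]
    intro y hy
    apply h0
    have : ¬ dist y 0 ≤ R := fun h => hy (Metric.mem_closedBall.2 h)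
    rw [dist_zero_right] at this
    exact le_of_lt (not_le.1 this)
  rw [e]
  exact h

theorem paramDeriv {R : ℝ} (F F' : ℝ → Y → ℂ)
    (hF : Continuous (fun p : ℝ × Y => F p.1 p.2))
    (hF' : Continuous (fun p : ℝ × Y => F' p.1 p.2))
    (h0 : ∀ x y, R ≤ ‖y‖ → F x y = 0) (h0' : ∀ x y, R ≤ ‖y‖ → F' x y = 0)
    (hd : ∀ x y, HasDerivAt (fun s => F s y) (F' x y) x) (x : ℝ) :
    HasDerivAt (fun s => ∫ y, F s y ∂μ) (∫ y, F' x y ∂μ) x := by
  have : ProperSpace Y := FiniteDimensional.proper ℝ Y
  have hK : IsCompact ((Set.Icc (x - 1) (x + 1)) ×ˢ (Metric.closedBall (0 : Y) R)) :=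
    isCompact_Icc.prod (isCompact_closedBall _ _)
  obtain ⟨C, hC⟩ := hK.exists_bound_of_continuousOn (f := fun p : ℝ × Y => F' p.1 p.2)
    hF'.continuousOn
  have hFx : ∀ s, Continuous (F s) := fun s => hF.comp (continuous_const.prodMk continuous_id)
  have hFx' : ∀ s, Continuous (F' s) := fun s => hF'.comp (continuous_const.prodMk continuous_id)
  refine (hasDerivAt_integral_of_dominated_loc_of_deriv_le (s := Metric.ball x 1)
    (bound := (Metric.closedBall (0 : Y) R).indicator fun _ => C)
    (Metric.ball_mem_nhds x one_pos) (Filter.Eventually.of_forall fun s =>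
      (hFx s).aestronglyMeasurable) (integrable_of μ (hFx x) (h0 x))
    (hFx' x).aestronglyMeasurable ?_ ?_ ?_).2
  · refine Filter.Eventually.of_forall fun y s hs => ?_
    by_cases hy : y ∈ Metric.closedBall (0 : Y) R
    · rw [Set.indicator_of_mem hy]
      refine hC (s, y) ⟨?_, hy⟩
      rw [Metric.mem_ball, Real.dist_eq, abs_lt] at hs
      constructor <;> linarith [hs.1, hs.2]
    · rw [Set.indicator_of_notMem hy, h0' s y, norm_zero]
      have : ¬ dist y 0 ≤ R := fun h => hy (Metric.mem_closedBall.2 h)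
      rw [dist_zero_right] at this
      exact le_of_lt (not_le.1 this)
  · rw [integrable_indicator_iff Metric.isClosed_closedBall.measurableSet]
    exact integrableOn_const (isCompact_closedBall (0 : Y) R).measure_ne_top
  · exact Filter.Eventually.of_forall fun y s _ => hd s y

theorem int_rtr {N : ℕ} (a : Y → Fin N → Fin N → ℂ)
    (hint : ∀ i j, Integrable (fun y => a y i j) μ) (X : Mat N) :
    rtr ((Matrix.of fun i j => ∫ y, a y i j ∂μ) * X)
      = ∫ y, rtr ((Matrix.of fun i j => a y i j) * X) ∂μ := by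
  have hI : Integrable (fun y => Matrix.trace ((Matrix.of fun i j => a y i j) * X)) μ := by
    simp only [Matrix.trace, Matrix.diag_apply, Matrix.mul_apply, Matrix.of_apply]
    exact integrable_finsetSum _ fun i _ => integrable_finsetSum _ fun j _ =>
      (hint i j).mul_const _
  have h := (Complex.reCLM.integral_comp_comm hI)
  unfold rtr
  simp only [Complex.reCLM_apply] at h
  rw [h]
  congr 1
  simp only [Matrix.trace, Matrix.diag_apply, Matrix.mul_apply, Matrix.of_apply]
  rw [integral_finsetSum _ fun i _ => integrable_finsetSum _ fun j _ => (hint i j).mul_const _]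
  refine Finset.sum_congr rfl fun i _ => ?_
  rw [integral_finsetSum _ fun j _ => (hint i j).mul_const _]
  refine Finset.sum_congr rfl fun j _ => ?_
  rw [integral_mul_const]

end param

theorem deriv_zero_of_ge {R : ℝ} {f : ℝ → ℂ} {f' : ℂ} {x : ℝ} (hd : HasDerivAt f f' x)
    (h0 : ∀ s, R ≤ |s| → f s = 0) (hR : 0 < R) (hx : R ≤ |x|) : f' = 0 := by
  rcases le_abs.1 hx with h | h
  · have h1 : HasDerivWithinAt f 0 (Set.Ici x) x := by
      refine (hasDerivWithinAt_const x (Set.Ici x) (0 : ℂ)).congr ?_ (h0 x hx)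
      intro s hs
      exact h0 s (le_trans (le_trans h hs) (le_abs_self s))
    exact (uniqueDiffOn_Ici x x Set.self_mem_Ici).eq_deriv _ hd.hasDerivWithinAt h1
  · have h1 : HasDerivWithinAt f 0 (Set.Iic x) x := by
      refine (hasDerivWithinAt_const x (Set.Iic x) (0 : ℂ)).congr ?_ (h0 x hx)
      intro s hs
      have hs' : s ≤ x := hs
      refine h0 s (le_trans ?_ (neg_le_abs s))
      linarith
    exact (uniqueDiffOn_Iic x x Set.self_mem_Iic).eq_deriv _ hd.hasDerivWithinAt h1

end REG

open REG in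
theorem stmt_REG : Stmt_REG := by
  intro Y _ _ _ _ _ μ _ N R v v' hR hv hv' hx0 hy0 hd
  have hy0' : ∀ x y, R ≤ ‖y‖ → v' x y = 0 := by
    intro x y hy
    funext i
    have h1 := hd x y i
    have h2 : (fun s => v s y i) = fun _ => (0 : ℂ) := by
      funext s
      rw [hy0 s y hy]
      rfl
    rw [h2] at h1
    exact h1.unique (hasDerivAt_const x (0 : ℂ))
  have hx0' : ∀ x y, R ≤ |x| → v' x y = 0 := by
    intro x y hx
    funext i
    refine deriv_zero_of_ge (hd x y i) ?_ hR hx
    intro s hs
    rw [hx0 s y hs]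
    rfl
  have hvi : ∀ i, Continuous (fun p : ℝ × Y => v p.1 p.2 i) := fun i =>
    (continuous_apply i).comp hv
  have hvi' : ∀ i, Continuous (fun p : ℝ × Y => v' p.1 p.2 i) := fun i =>
    (continuous_apply i).comp hv'
  have c1 : ∀ i j, Continuous (fun p : ℝ × Y =>
      v p.1 p.2 i * (starRingEnd ℂ) (v p.1 p.2 j)) := fun i j =>
    (hvi i).mul (Complex.continuous_conj.comp (hvi j))
  have c2 : ∀ i j, Continuous (fun p : ℝ × Y =>
      v' p.1 p.2 i * (starRingEnd ℂ) (v p.1 p.2 j)
        + v p.1 p.2 i * (starRingEnd ℂ) (v' p.1 p.2 j)) := fun i j =>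
    ((hvi' i).mul (Complex.continuous_conj.comp (hvi j))).add
      ((hvi i).mul (Complex.continuous_conj.comp (hvi' j)))
  have c3 : Continuous (fun p : ℝ × Y => ∑ i, ‖v' p.1 p.2 i‖ ^ 2) :=
    continuous_finsetSum _ fun i _ => ((hvi' i).norm).pow 2
  have z1 : ∀ i j x y, R ≤ ‖y‖ → v x y i * (starRingEnd ℂ) (v x y j) = 0 := by
    intro i j x y hy
    rw [hy0 x y hy]
    simp
  have z2 : ∀ i j x y, R ≤ ‖y‖ → v' x y i * (starRingEnd ℂ) (v x y j)
      + v x y i * (starRingEnd ℂ) (v' x y j) = 0 := by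
    intro i j x y hy
    rw [hy0 x y hy, hy0' x y hy]
    simp
  have z3 : ∀ x y, R ≤ ‖y‖ → ∑ i, ‖v' x y i‖ ^ 2 = 0 := by
    intro x y hy
    rw [hy0' x y hy]
    simp
  have sl : ∀ (E : Type) [NormedAddCommGroup E] (F : ℝ × Y → E), Continuous F → ∀ x,
      Continuous (fun y => F (x, y)) := fun E _ F hF x =>
    hF.comp (continuous_const.prodMk continuous_id)
  have i1 : ∀ x i j, Integrable (fun y => v x y i * (starRingEnd ℂ) (v x y j)) μ := fun x i j =>
    integrable_of μ (sl ℂ _ (c1 i j) x) (z1 i j x)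
  have i2 : ∀ x i j, Integrable (fun y => v' x y i * (starRingEnd ℂ) (v x y j)
      + v x y i * (starRingEnd ℂ) (v' x y j)) μ := fun x i j =>
    integrable_of μ (sl ℂ _ (c2 i j) x) (z2 i j x)
  have i3 : ∀ x, Integrable (fun y => ∑ i, ‖v' x y i‖ ^ 2) μ := fun x =>
    integrable_of μ (sl ℝ _ c3 x) (z3 x)
  refine ⟨hR, ?_, ?_, ?_, ?_, ?_, ?_, ?_⟩
  · intro x i j
    refine paramDeriv μ (fun x y => v x y i * (starRingEnd ℂ) (v x y j))
      (fun x y => v' x y i * (starRingEnd ℂ) (v x y j)
        + v x y i * (starRingEnd ℂ) (v' x y j)) (c1 i j) (c2 i j) (z1 i j) (z2 i j) ?_ x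
    intro s y
    have h := (hd s y i).mul ((hd s y j).star)
    exact h
  · intro i j
    exact paramCont μ (fun x y => v' x y i * (starRingEnd ℂ) (v x y j)
        + v x y i * (starRingEnd ℂ) (v' x y j)) (c2 i j) (z2 i j)
  · intro x hx
    ext i j
    show ∫ y, v x y i * (starRingEnd ℂ) (v x y j) ∂μ = 0
    have : (fun y => v x y i * (starRingEnd ℂ) (v x y j)) = fun _ => (0 : ℂ) := by
      funext y
      rw [hx0 x y hx]
      simp
    rw [this]
    simp
  · intro x
    refine Matrix.PosSemidef.of_dotProduct_mulVec_nonneg ?_ ?_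
    · ext i j
      show star (∫ y, v x y j * (starRingEnd ℂ) (v x y i) ∂μ)
        = ∫ y, v x y i * (starRingEnd ℂ) (v x y j) ∂μ
      have h := integral_conj (μ := μ) (f := fun y => v x y j * (starRingEnd ℂ) (v x y i))
      have h2 : star (∫ y, v x y j * (starRingEnd ℂ) (v x y i) ∂μ)
          = ∫ y, (starRingEnd ℂ) (v x y j * (starRingEnd ℂ) (v x y i)) ∂μ := h.symm
      rw [h2]
      congr 1
      funext y
      rw [map_mul, Complex.conj_conj]
      ring
    · intro c
      have e : star c ⬝ᵥ ((Matrix.of fun i j => ∫ y, v x y i * (starRingEnd ℂ) (v x y j) ∂μ) *ᵥ c)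
          = ∫ y, (((Complex.normSq (∑ i, (starRingEnd ℂ) (c i) * v x y i) : ℝ)) : ℂ) ∂μ := by
        have e1 : ∀ y, (((Complex.normSq (∑ i, (starRingEnd ℂ) (c i) * v x y i) : ℝ)) : ℂ)
            = ∑ i, ∑ j, (starRingEnd ℂ) (c i)
                * ((v x y i * (starRingEnd ℂ) (v x y j)) * c j) := by
          intro y
          rw [← Complex.mul_conj, map_sum, Finset.sum_mul_sum]
          refine Finset.sum_congr rfl fun i _ => Finset.sum_congr rfl fun j _ => ?_
          rw [map_mul, Complex.conj_conj]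
          ring
        simp_rw [e1]
        rw [integral_finsetSum _ fun i _ => integrable_finsetSum _ fun j _ =>
          ((i1 x i j).mul_const _).const_mul _]
        simp only [dotProduct, Matrix.mulVec, Pi.star_apply, Matrix.of_apply]
        refine Finset.sum_congr rfl fun i _ => ?_
        rw [integral_finsetSum _ fun j _ => ((i1 x i j).mul_const _).const_mul _,
          Finset.mul_sum]
        refine Finset.sum_congr rfl fun j _ => ?_
        rw [integral_const_mul, integral_mul_const]
        rfl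
      rw [e, integral_complex_ofReal]
      exact Complex.zero_le_real.2 (integral_nonneg fun y => Complex.normSq_nonneg _)
  · exact paramCont μ (fun x y => ∑ i, ‖v' x y i‖ ^ 2) c3 z3
  · intro x hx
    have : (fun y => ∑ i, ‖v' x y i‖ ^ 2) = fun _ => (0 : ℝ) := by
      funext y
      rw [hx0' x y hx]
      simp
    show ∫ y, ∑ i, ‖v' x y i‖ ^ 2 ∂μ = 0
    rw [this]
    simp
  · intro x X hX
    rw [int_rtr μ _ (i2 x) X, int_rtr μ _ (i1 x) (X * X)]
    have I2 : Integrable (fun y => rtr ((Matrix.of fun i j => v' x y i * (starRingEnd ℂ) (v x y j)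
        + v x y i * (starRingEnd ℂ) (v' x y j)) * X)) μ := by
      have hI : Integrable (fun y => Matrix.trace ((Matrix.of fun i j =>
          v' x y i * (starRingEnd ℂ) (v x y j)
            + v x y i * (starRingEnd ℂ) (v' x y j)) * X)) μ := by
        simp only [Matrix.trace, Matrix.diag_apply, Matrix.mul_apply, Matrix.of_apply]
        exact integrable_finsetSum _ fun i _ => integrable_finsetSum _ fun j _ =>
          (i2 x i j).mul_const _
      exact hI.re
    have I1 : Integrable (fun y => rtr ((Matrix.of fun i j =>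
        v x y i * (starRingEnd ℂ) (v x y j)) * (X * X))) μ := by
      have hI : Integrable (fun y => Matrix.trace ((Matrix.of fun i j =>
          v x y i * (starRingEnd ℂ) (v x y j)) * (X * X))) μ := by
        simp only [Matrix.trace, Matrix.diag_apply, Matrix.mul_apply, Matrix.of_apply]
        exact integrable_finsetSum _ fun i _ => integrable_finsetSum _ fun j _ =>
          (i1 x i j).mul_const _
      exact hI.re
    have I32 : Integrable (fun y => (∑ i, ‖v' x y i‖ ^ 2)
        + rtr ((Matrix.of fun i j => v' x y i * (starRingEnd ℂ) (v x y j)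
          + v x y i * (starRingEnd ℂ) (v' x y j)) * X)) μ := (i3 x).add I2
    rw [← integral_add (i3 x) I2, ← integral_add I32 I1]
    exact integral_nonneg fun y => nonneg (v x y) (v' x y) X hX

end Pool.LT
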