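import Pool.Agent.Work.MP_3242df_lt.Interface

/-!
STEP2: the operator valued sharp `gamma = 3/2` inequality in kinetic form.
-/

set_option autoImplicit false

open MeasureTheory Matrix Finset
open scoped BigOperators ComplexOrder

namespace Pool.LT.STEP2

variable {N : ℕ}

/-- entrywise derivative -/
def ED (A : ℝ → Mat N) (A' : Mat N) (x : ℝ) : Prop :=
  ∀ i j, HasDerivAt (fun y => A y i j) (A' i j) x

theorem ED.mul {A B : ℝ → Mat N} {A' B' : Mat N} {x : ℝ} (hA : ED A A' x) (hB : ED B B' x) :
    ED (fun y => A y * B y) (A' * B x + A x * B') x := by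
  intro i j
  have h : HasDerivAt (fun y => ∑ k, A y i k * B y k j)
      (∑ k, (A' i k * B x k j + A x i k * B' k j)) x :=
    HasDerivAt.fun_sum fun k _ => (hA i k).mul (hB k j)
  have e1 : (fun y => (A y * B y) i j) = fun y => ∑ k, A y i k * B y k j := by
    funext y; exact Matrix.mul_apply
  have e2 : (A' * B x + A x * B') i j = ∑ k, (A' i k * B x k j + A x i k * B' k j) := by
    rw [Matrix.add_apply, Matrix.mul_apply, Matrix.mul_apply, Finset.sum_add_distrib]
  show HasDerivAt (fun y => (A y * B y) i j) ((A' * B x + A x * B') i j) x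
  rw [e1, e2]
  exact h

theorem ED.rtr {A : ℝ → Mat N} {A' : Mat N} {x : ℝ} (hA : ED A A' x) :
    HasDerivAt (fun y => LT.rtr (A y)) (LT.rtr A') x := by
  have h : HasDerivAt (fun y => ∑ i, A y i i) (∑ i, A' i i) x :=
    HasDerivAt.fun_sum fun i _ => hA i i
  have h2 := (Complex.reCLM.hasFDerivAt (x := ∑ i, A x i i)).comp_hasDerivAt x h
  exact h2

/-- entrywise continuity -/
def EC (A : ℝ → Mat N) : Prop := ∀ i j, Continuous (fun x => A x i j)

theorem EC.mul {A B : ℝ → Mat N} (hA : EC A) (hB : EC B) : EC (fun y => A y * B y) := by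
  intro i j
  have e1 : (fun y => (A y * B y) i j) = fun y => ∑ k, A y i k * B y k j := by
    funext y; exact Matrix.mul_apply
  show Continuous (fun y => (A y * B y) i j)
  rw [e1]
  exact continuous_finsetSum _ fun k _ => (hA i k).mul (hB k j)

theorem EC.rtr {A : ℝ → Mat N} (hA : EC A) : Continuous (fun y => LT.rtr (A y)) :=
  Complex.continuous_re.comp (continuous_finsetSum _ fun i _ => hA i i)

theorem EC_of_ED {A A' : ℝ → Mat N} (h : ∀ x, ED A (A' x) x) : EC A := by
  intro i j
  rw [continuous_iff_continuousAt]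
  exact fun x => (h x i j).continuousAt

theorem rtr_add (A B : Mat N) : rtr (A + B) = rtr A + rtr B := by
  simp [rtr, Matrix.trace_add]

theorem rtr_sub (A B : Mat N) : rtr (A - B) = rtr A - rtr B := by
  simp [rtr, Matrix.trace_sub]

theorem rtr_smul (c : ℝ) (A : Mat N) : rtr (((c : ℝ) : ℂ) • A) = c * rtr A := by
  simp [rtr, Matrix.trace_smul]

theorem rtr_comm (A B : Mat N) : rtr (A * B) = rtr (B * A) := by
  simp [rtr, Matrix.trace_mul_comm A B]

theorem rtr_zero : rtr (0 : Mat N) = 0 := by simp [rtr]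

theorem int_eq {R : ℝ} (f : ℝ → ℝ) (hf : ∀ x, R ≤ |x| → f x = 0) :
    ∫ x, f x = ∫ x in (-R)..R, f x := by
  symm
  apply intervalIntegral.integral_eq_integral_of_support_subset
  intro x hx
  rw [Function.mem_support] at hx
  have : ¬ R ≤ |x| := fun h => hx (hf x h)
  rw [not_le, abs_lt] at this
  exact ⟨this.1, this.2.le⟩

theorem int_eqC {R : ℝ} (f : ℝ → ℂ) (hf : ∀ x, R ≤ |x| → f x = 0) :
    ∫ x, f x = ∫ x in (-R)..R, f x := by
  symm
  apply intervalIntegral.integral_eq_integral_of_support_subset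
  intro x hx
  rw [Function.mem_support] at hx
  have : ¬ R ≤ |x| := fun h => hx (hf x h)
  rw [not_le, abs_lt] at this
  exact ⟨this.1, this.2.le⟩

end Pool.LT.STEP2

namespace Pool.LT

open STEP2

theorem stmt_STEP2 : Stmt_STEP2 := by
  intro N R σ σ' t hC c S hS
  have hR := hC.hR
  have hσc : EC σ := EC_of_ED (A' := σ') fun x i j => hC.deriv x i j
  have hσ'c : EC σ' := hC.cont'
  -- the primitive
  set M : ℝ → Mat N := fun x => Matrix.of fun i j =>
    (∫ y in (-R)..x, σ y i j) - S i j / 2 with hM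
  have hMd : ∀ x, ED M (σ x) x := by
    intro x i j
    have h := intervalIntegral.integral_hasDerivAt_right
      ((hσc i j).intervalIntegrable (-R) x)
      ((hσc i j).stronglyMeasurableAtFilter _ _) (hσc i j).continuousAt
    simpa [hM] using h.sub_const (S i j / 2)
  have hMc : EC M := EC_of_ED hMd
  have hσH : ∀ x, (σ x).IsHermitian := fun x => (hC.psd x).isHermitian
  have hSH : ∀ i j, star (S j i) = S i j := by
    intro i j
    rw [← hS, ← hS]
    have : star (∫ x, σ x j i) = ∫ x, star (σ x j i) := by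
      simpa using (integral_conj (f := fun x => σ x j i)).symm
    rw [this]
    congr 1
    funext x
    exact (hσH x).apply i j
  have hMH : ∀ x, (M x).IsHermitian := by
    intro x
    ext i j
    rw [Matrix.conjTranspose_apply]
    simp only [hM, Matrix.of_apply]
    rw [star_sub, star_div₀, hSH]
    have h1 : star (∫ y in (-R)..x, σ y j i) = ∫ y in (-R)..x, σ y i j := by
      have h2 : (starRingEnd ℂ) (∫ y in (-R)..x, σ y j i) = ∫ y in (-R)..x, (starRingEnd ℂ) (σ y j i) := by
        rw [intervalIntegral.intervalIntegral_eq_integral_uIoc,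
          intervalIntegral.intervalIntegral_eq_integral_uIoc]
        split_ifs
        · simp [integral_conj]
        · simp [integral_conj]
      rw [show star (∫ y in (-R)..x, σ y j i) = (starRingEnd ℂ) (∫ y in (-R)..x, σ y j i) from rfl, h2]
      congr 1
      funext y
      exact (hσH y).apply i j
    rw [h1]
    simp
  -- the pointwise inequality
  have hq : ∀ x, 0 ≤ t x + c * rtr (σ' x * M x) + c ^ 2 * rtr (σ x * (M x * M x)) := by
    intro x
    have h := hC.q x (((c : ℝ) : ℂ) • M x) ((hMH x).smul (by simp [IsSelfAdjoint]))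
    rw [Matrix.mul_smul, rtr_smul, Matrix.smul_mul, Matrix.mul_smul, Matrix.mul_smul,
      Matrix.mul_smul, rtr_smul, rtr_smul] at h
    nlinarith [h]
  -- first derivative identity
  have hd1 : ∀ x, HasDerivAt (fun y => rtr (σ y * M y)) (rtr (σ' x * M x) + rtr (σ x * σ x)) x := by
    intro x
    have h := (ED.mul (A := σ) (B := M) (A' := σ' x) (B' := σ x) (fun i j => hC.deriv x i j)
      (hMd x)).rtr
    rwa [rtr_add] at h
  have hd2 : ∀ x, HasDerivAt (fun y => rtr (M y * M y * M y)) (3 * rtr (σ x * (M x * M x))) x := by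
    intro x
    have h := ((ED.mul (hMd x) (hMd x)).mul (hMd x)).rtr
    have e : rtr ((σ x * M x + M x * σ x) * M x + M x * M x * σ x) = 3 * rtr (σ x * (M x * M x)) := by
      rw [rtr_add, add_mul, rtr_add, rtr_comm (M x * M x) (σ x), rtr_comm (M x * σ x) (M x),
        ← mul_assoc (M x) (M x) (σ x), rtr_comm (M x * M x) (σ x), mul_assoc (σ x) (M x) (M x)]
      ring
    rwa [e] at h
  have hI1 : ∫ x in (-R)..R, (rtr (σ' x * M x) + rtr (σ x * σ x)) = 0 := by
    have hcont : Continuous (fun x => rtr (σ' x * M x) + rtr (σ x * σ x)) :=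
      (hσ'c.mul hMc).rtr.add (hσc.mul hσc).rtr
    rw [intervalIntegral.integral_eq_sub_of_hasDerivAt (fun x _ => hd1 x)
      (hcont.intervalIntegrable _ _)]
    rw [hC.supp R (by rw [abs_of_pos hR]), hC.supp (-R) (by rw [abs_neg, abs_of_pos hR])]
    simp [rtr_zero]
  have hMR : M R = (1 / 2 : ℂ) • S := by
    ext i j
    simp only [hM, Matrix.of_apply, Matrix.smul_apply, smul_eq_mul]
    have := hS i j
    rw [int_eqC (R := R) _ (fun x hx => by rw [hC.supp x hx]; rfl)] at this
    rw [this]
    ring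
  have hMmR : M (-R) = (-(1 / 2) : ℂ) • S := by
    ext i j
    simp only [hM, Matrix.of_apply, Matrix.smul_apply, smul_eq_mul]
    rw [intervalIntegral.integral_same]
    ring
  have hI2 : ∫ x in (-R)..R, (3 * rtr (σ x * (M x * M x))) = rtr (S * S * S) / 4 := by
    have hcont : Continuous (fun x => 3 * rtr (σ x * (M x * M x))) :=
      continuous_const.mul (hσc.mul (hMc.mul hMc)).rtr
    rw [intervalIntegral.integral_eq_sub_of_hasDerivAt (fun x _ => hd2 x)
      (hcont.intervalIntegrable _ _)]
    rw [hMR, hMmR]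
    simp only [Matrix.smul_mul, Matrix.mul_smul, smul_smul]
    have e1 : ((1 / 2 : ℂ) * ((1 / 2 : ℂ) * (1 / 2 : ℂ))) = (((1 / 8 : ℝ)) : ℂ) := by
      push_cast; norm_num
    have e2 : (-(1 / 2 : ℂ) * (-(1 / 2 : ℂ) * -(1 / 2 : ℂ))) = (((-1 / 8 : ℝ)) : ℂ) := by
      push_cast; norm_num
    rw [e1, e2, rtr_smul, rtr_smul]
    ring
  -- integrate the pointwise inequality
  have hct : Continuous t := hC.tcont
  have hc1 : Continuous (fun x => rtr (σ' x * M x)) := (hσ'c.mul hMc).rtr
  have hc2 : Continuous (fun x => rtr (σ x * (M x * M x))) := (hσc.mul (hMc.mul hMc)).rtr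
  have hc3 : Continuous (fun x => rtr (σ x * σ x)) := (hσc.mul hσc).rtr
  have hint : 0 ≤ ∫ x in (-R)..R,
      (t x + c * rtr (σ' x * M x) + c ^ 2 * rtr (σ x * (M x * M x))) :=
    intervalIntegral.integral_nonneg (by linarith) fun x _ => hq x
  have hcc1 : Continuous (fun x => c * rtr (σ' x * M x)) := continuous_const.mul hc1
  have hcc2 : Continuous (fun x => c ^ 2 * rtr (σ x * (M x * M x))) := continuous_const.mul hc2
  have hcc3 : Continuous (fun x => t x + c * rtr (σ' x * M x)) := hct.add hcc1
  rw [intervalIntegral.integral_add (hcc3.intervalIntegrable _ _) (hcc2.intervalIntegrable _ _),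
    intervalIntegral.integral_add (hct.intervalIntegrable _ _) (hcc1.intervalIntegrable _ _),
    intervalIntegral.integral_const_mul, intervalIntegral.integral_const_mul] at hint
  rw [intervalIntegral.integral_const_mul] at hI2
  rw [intervalIntegral.integral_add (hc1.intervalIntegrable _ _)
    (hc3.intervalIntegrable _ _)] at hI1
  have g1 : ∫ x, rtr (σ x * σ x) = ∫ x in (-R)..R, rtr (σ x * σ x) :=
    int_eq _ fun x hx => by rw [hC.supp x hx]; simp [rtr_zero]
  have g2 : ∫ x, t x = ∫ x in (-R)..R, t x := int_eq _ fun x hx => hC.tsupp x hx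
  rw [g1, g2]
  have h3 : ∫ x in (-R)..R, rtr (σ' x * M x) = - ∫ x in (-R)..R, rtr (σ x * σ x) := by linarith
  have h4 : ∫ x in (-R)..R, rtr (σ x * (M x * M x)) = rtr (S * S * S) / 12 := by linarith
  rw [h3, h4] at hint
  linarith

end Pool.LT
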