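import Pool.Agent.Work.MP_3242df_lt.Interface

/-!
# Lieb-Thirring project: block OUT
-/

set_option autoImplicit false

open MeasureTheory Matrix Finset
open scoped BigOperators ComplexOrder

namespace Pool.LT

/-- a function vanishing outside `(-R, R)` has vanishing derivative there -/
theorem deriv_eq_zero_of_supp {f : ℝ → ℂ} {f' : ℂ} {x R : ℝ} (hf : HasDerivAt f f' x)
    (hx : R ≤ |x|) (h0 : ∀ y, R ≤ |y| → f y = 0) : f' = 0 := by
  rcases le_total 0 x with h | h
  · have h1 : HasDerivWithinAt f f' (Set.Ici x) x := hf.hasDerivWithinAt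
    have h2 : HasDerivWithinAt f 0 (Set.Ici x) x := by
      refine (hasDerivWithinAt_const x (Set.Ici x) (0 : ℂ)).congr ?_ ?_
      · intro y hy
        refine h0 y (hx.trans ?_)
        rw [abs_of_nonneg h]
        exact (Set.mem_Ici.1 hy).trans (le_abs_self y)
      · exact h0 x hx
    exact (uniqueDiffWithinAt_Ici x).eq_deriv _ h1 h2
  · have h1 : HasDerivWithinAt f f' (Set.Iic x) x := hf.hasDerivWithinAt
    have h2 : HasDerivWithinAt f 0 (Set.Iic x) x := by
      refine (hasDerivWithinAt_const x (Set.Iic x) (0 : ℂ)).congr ?_ ?_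
      · intro y hy
        refine h0 y (hx.trans ?_)
        rw [abs_of_nonpos h]
        have := Set.mem_Iic.1 hy
        exact (neg_le_neg this).trans (neg_le_abs y)
      · exact h0 x hx
    exact (uniqueDiffWithinAt_Iic x).eq_deriv _ h1 h2

theorem hasDerivAt_conj {f : ℝ → ℂ} {f' : ℂ} {x : ℝ} (hf : HasDerivAt f f' x) :
    HasDerivAt (fun y => (starRingEnd ℂ) (f y)) ((starRingEnd ℂ) f') x := by
  have := hf.star
  simpa using this

/-- the quadratic form identity behind `QProp` -/
theorem outer_q {N : ℕ} (u u' : Fin N → ℂ) (X : Mat N) (hX : X.IsHermitian) :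
    (∑ i, ‖u' i‖ ^ 2)
      + rtr ((Matrix.of fun i j => u' i * (starRingEnd ℂ) (u j)
        + u i * (starRingEnd ℂ) (u' j)) * X) + rtr (outer u * (X * X))
      = ∑ i, ‖u' i + (X *ᵥ u) i‖ ^ 2 := by
  have hXc : ∀ i j, (starRingEnd ℂ) (X i j) = X j i := fun i j => by
    have := congrFun (congrFun hX j) i
    rw [Matrix.conjTranspose_apply] at this
    exact this
  have h1 : rtr ((Matrix.of fun i j => u' i * (starRingEnd ℂ) (u j)
        + u i * (starRingEnd ℂ) (u' j)) * X)
      = ∑ i, 2 * ((starRingEnd ℂ) (u' i) * (X *ᵥ u) i).re := by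
    unfold rtr
    rw [Matrix.trace]
    simp only [Matrix.diag_apply, Matrix.mul_apply, Matrix.of_apply, add_mul, Finset.sum_add_distrib,
      Complex.add_re]
    have e1 : (∑ x, ∑ j, u' x * (starRingEnd ℂ) (u j) * X j x).re
        = (∑ i, (starRingEnd ℂ) (u' i) * (X *ᵥ u) i).re := by
      rw [← Complex.conj_re (∑ i, (starRingEnd ℂ) (u' i) * (X *ᵥ u) i), map_sum]
      congr 1
      refine Finset.sum_congr rfl fun i _ => ?_
      rw [map_mul, Complex.conj_conj, Matrix.mulVec, dotProduct, map_sum, Finset.mul_sum]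
      refine Finset.sum_congr rfl fun j _ => ?_
      rw [map_mul, hXc]
      ring
    have e2 : (∑ x, ∑ j, u x * (starRingEnd ℂ) (u' j) * X j x).re
        = (∑ i, (starRingEnd ℂ) (u' i) * (X *ᵥ u) i).re := by
      rw [Finset.sum_comm]
      congr 1
      refine Finset.sum_congr rfl fun i _ => ?_
      rw [Matrix.mulVec, dotProduct, Finset.mul_sum]
      refine Finset.sum_congr rfl fun j _ => ?_
      ring
    rw [e1, e2, Complex.re_sum, ← Finset.mul_sum]
    ring
  have h2 : rtr (outer u * (X * X)) = ∑ i, ‖(X *ᵥ u) i‖ ^ 2 := by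
    have e : ∀ i, (X *ᵥ u) i * (starRingEnd ℂ) ((X *ᵥ u) i)
        = ∑ j, ∑ k, X i j * u j * ((starRingEnd ℂ) (u k) * X k i) := by
      intro i
      rw [Matrix.mulVec, dotProduct, map_sum, Finset.sum_mul_sum]
      refine Finset.sum_congr rfl fun j _ => Finset.sum_congr rfl fun k _ => ?_
      rw [map_mul, hXc]
      ring
    have e3 : (∑ i, ‖(X *ᵥ u) i‖ ^ 2 : ℝ)
        = (∑ i, (X *ᵥ u) i * (starRingEnd ℂ) ((X *ᵥ u) i)).re := by
      rw [Complex.re_sum]
      refine Finset.sum_congr rfl fun i _ => ?_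
      rw [Complex.mul_conj, Complex.ofReal_re, Complex.normSq_eq_norm_sq]
    rw [e3]
    unfold rtr outer
    rw [Matrix.trace]
    simp only [Matrix.diag_apply, Matrix.mul_apply, Matrix.of_apply]
    congr 1
    simp_rw [e, Finset.mul_sum]
    calc ∑ x, ∑ k, ∑ i, u x * (starRingEnd ℂ) (u k) * (X k i * X i x)
        = ∑ x, ∑ i, ∑ k, u x * (starRingEnd ℂ) (u k) * (X k i * X i x) :=
          Finset.sum_congr rfl fun x _ => Finset.sum_comm
      _ = ∑ i, ∑ x, ∑ k, u x * (starRingEnd ℂ) (u k) * (X k i * X i x) := Finset.sum_comm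
      _ = _ := by
          refine Finset.sum_congr rfl fun i _ => Finset.sum_congr rfl fun j _ =>
            Finset.sum_congr rfl fun k _ => ?_
          ring
  rw [h1, h2, ← Finset.sum_add_distrib, ← Finset.sum_add_distrib]
  refine Finset.sum_congr rfl fun i _ => ?_
  rw [← Complex.normSq_eq_norm_sq, ← Complex.normSq_eq_norm_sq, ← Complex.normSq_eq_norm_sq,
    Complex.normSq_add]
  have : ((starRingEnd ℂ) (u' i) * (X *ᵥ u) i).re = (u' i * (starRingEnd ℂ) ((X *ᵥ u) i)).re := by
    rw [← Complex.conj_re, map_mul, Complex.conj_conj]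
  rw [this]
  ring

theorem outer_posSemidef {N : ℕ} (u : Fin N → ℂ) : (outer u).PosSemidef := by
  have : outer u = Matrix.vecMulVec u (star u) := by
    ext i j
    rfl
  rw [this]
  exact Matrix.posSemidef_vecMulVec_self_star u

theorem stmt_OUT : Stmt_OUT := by
  intro N R u u' hR hd hc hs
  have hu : ∀ i, Continuous fun x => u x i := fun i =>
    continuous_iff_continuousAt.2 fun x => (hd x i).continuousAt
  have hu' : ∀ i, Continuous fun x => u' x i := fun i => (continuous_apply i).comp hc
  have hs' : ∀ x i, R ≤ |x| → u' x i = 0 := fun x i hx =>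
    deriv_eq_zero_of_supp (hd x i) hx fun y hy => by rw [hs y hy]; rfl
  refine ⟨hR, ?_, ?_, ?_, ?_, ?_, ?_, ?_⟩
  · intro x i j
    exact (hd x i).mul (hasDerivAt_conj (hd x j))
  · intro i j
    simp only [Matrix.of_apply]
    exact ((hu' i).mul (Complex.continuous_conj.comp (hu j))).add
      ((hu i).mul (Complex.continuous_conj.comp (hu' j)))
  · intro x hx
    ext i j
    simp [outer, hs x hx]
  · intro x
    exact outer_posSemidef _
  · exact continuous_finsetSum _ fun i _ => ((hu' i).norm.pow 2)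
  · intro x hx
    refine Finset.sum_eq_zero fun i _ => ?_
    rw [hs' x i hx]; simp
  · intro x X hX
    rw [outer_q (u x) (u' x) X hX]
    exact Finset.sum_nonneg fun i _ => sq_nonneg _

end Pool.LT
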