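import Pool.Agent.Work.MP_3242df_lt.S3a

/-!
# Lieb-Thirring project: block STEP3
-/

set_option autoImplicit false

open MeasureTheory Matrix Finset
open scoped BigOperators ComplexOrder

namespace Pool.LT

theorem integrable_of_supp {E : Type*} [NormedAddCommGroup E] {f : ℝ → E} {R : ℝ}
    (hc : Continuous f) (hs : ∀ x, R ≤ |x| → f x = 0) : Integrable f := by
  refine hc.integrable_of_hasCompactSupport ?_
  refine HasCompactSupport.intro (isCompact_Icc (a := -R) (b := R)) ?_
  intro x hx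
  apply hs
  by_contra hcon
  exact hx ⟨(abs_lt.1 (not_le.1 hcon)).1.le, (abs_lt.1 (not_le.1 hcon)).2.le⟩

/-- Step 2 for the weighted family `√g_i u_i`. -/
theorem weighted_step2 (h2 : Stmt_STEP2) (ho : Stmt_OUT) {N : ℕ} {R : ℝ}
    {u u' : ℝ → Fin N → ℂ} (hR : 0 < R)
    (hd : ∀ x i, HasDerivAt (fun y => u y i) (u' x i) x) (hc : Continuous u')
    (hs : ∀ x, R ≤ |x| → u x = 0) (s : Fin N → ℝ)
    (hS : ∀ i j, ∫ x, u x i * (starRingEnd ℂ) (u x j) = if i = j then ((s i : ℝ) : ℂ) else 0)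
    (b : ℝ) (g : Fin N → ℝ) (hg : ∀ i, 0 ≤ g i) :
    b * ∫ x, (∑ i, g i * ‖u x i‖ ^ 2) ^ 2
      ≤ ∑ i, g i * (∫ x, ‖u' x i‖ ^ 2) + b ^ 2 / 12 * ∑ i, (g i * s i) ^ 3 := by
  have hu' : ∀ i, Continuous fun x => u' x i := fun i => (continuous_apply i).comp hc
  have hs' : ∀ x i, R ≤ |x| → u' x i = 0 := fun x i hx =>
    deriv_eq_zero_of_supp (hd x i) hx fun y hy => by rw [hs y hy]; rfl
  have hcv : Curve N R (fun x => outer (fun i => ((√(g i) : ℝ) : ℂ) * u x i))
      (fun x => Matrix.of fun i j =>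
        ((√(g i) : ℝ) : ℂ) * u' x i * (starRingEnd ℂ) (((√(g j) : ℝ) : ℂ) * u x j)
        + ((√(g i) : ℝ) : ℂ) * u x i * (starRingEnd ℂ) (((√(g j) : ℝ) : ℂ) * u' x j))
      (fun x => ∑ i, ‖((√(g i) : ℝ) : ℂ) * u' x i‖ ^ 2) := by
    refine ho N R (fun x i => ((√(g i) : ℝ) : ℂ) * u x i)
      (fun x i => ((√(g i) : ℝ) : ℂ) * u' x i) hR ?_ ?_ ?_
    · intro x i
      exact (hd x i).const_mul _
    · exact continuous_pi fun i => continuous_const.mul (hu' i)
    · intro x hx
      funext i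
      rw [hs x hx]
      simp
  have hsq : ∀ i, ((√(g i) : ℝ) : ℂ) * ((√(g i) : ℝ) : ℂ) = ((g i : ℝ) : ℂ) := by
    intro i
    rw [← Complex.ofReal_mul, Real.mul_self_sqrt (hg i)]
  have hint : ∀ i j, ∫ x, outer (fun i => ((√(g i) : ℝ) : ℂ) * u x i) i j
      = (Matrix.diagonal fun i => ((g i * s i : ℝ) : ℂ) : Mat N) i j := by
    intro i j
    have e : ∀ x, outer (fun i => ((√(g i) : ℝ) : ℂ) * u x i) i j
        = (((√(g i) : ℝ) : ℂ) * ((√(g j) : ℝ) : ℂ)) * (u x i * (starRingEnd ℂ) (u x j)) := by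
      intro x
      unfold outer
      rw [Matrix.of_apply, map_mul, Complex.conj_ofReal]
      ring
    simp only [e]
    rw [integral_const_mul, hS]
    by_cases hij : i = j
    · subst hij
      rw [if_pos rfl, Matrix.diagonal_apply_eq, hsq]
      push_cast
      ring
    · rw [if_neg hij, Matrix.diagonal_apply_ne _ hij, mul_zero]
  have key := h2 N R _ _ _ hcv b _ hint
  have e1 : ∀ x, rtr (outer (fun i => ((√(g i) : ℝ) : ℂ) * u x i)
      * outer (fun i => ((√(g i) : ℝ) : ℂ) * u x i)) = (∑ i, g i * ‖u x i‖ ^ 2) ^ 2 := by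
    intro x
    unfold rtr outer
    rw [Matrix.trace]
    simp only [Matrix.diag_apply, Matrix.mul_apply, Matrix.of_apply]
    have : ∀ i j, ((√(g i) : ℝ) : ℂ) * u x i * (starRingEnd ℂ) (((√(g j) : ℝ) : ℂ) * u x j)
        * (((√(g j) : ℝ) : ℂ) * u x j * (starRingEnd ℂ) (((√(g i) : ℝ) : ℂ) * u x i))
        = ((g i * ‖u x i‖ ^ 2 * (g j * ‖u x j‖ ^ 2) : ℝ) : ℂ) := by
      intro i j
      have c1 : ∀ z : ℂ, z * (starRingEnd ℂ) z = ((‖z‖ ^ 2 : ℝ) : ℂ) := fun z => by
        rw [Complex.mul_conj, Complex.normSq_eq_norm_sq]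
      rw [map_mul, map_mul, Complex.conj_ofReal, Complex.conj_ofReal]
      calc _ = (((√(g i) : ℝ) : ℂ) * ((√(g i) : ℝ) : ℂ)) * (u x i * (starRingEnd ℂ) (u x i))
            * ((((√(g j) : ℝ) : ℂ) * ((√(g j) : ℝ) : ℂ)) * (u x j * (starRingEnd ℂ) (u x j))) := by
            ring
        _ = _ := by
            rw [hsq, hsq, c1, c1]
            push_cast
            ring
    simp_rw [this]
    rw [sq, Finset.sum_mul_sum]
    norm_cast
  have e2 : ∀ x, ∑ i, ‖((√(g i) : ℝ) : ℂ) * u' x i‖ ^ 2 = ∑ i, g i * ‖u' x i‖ ^ 2 := by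
    intro x
    refine Finset.sum_congr rfl fun i _ => ?_
    rw [norm_mul, mul_pow, Complex.norm_real, Real.norm_eq_abs, sq_abs, Real.sq_sqrt (hg i)]
  have e3 : rtr ((Matrix.diagonal fun i => ((g i * s i : ℝ) : ℂ) : Mat N)
      * (Matrix.diagonal fun i => ((g i * s i : ℝ) : ℂ))
      * (Matrix.diagonal fun i => ((g i * s i : ℝ) : ℂ))) = ∑ i, (g i * s i) ^ 3 := by
    rw [Matrix.diagonal_mul_diagonal, Matrix.diagonal_mul_diagonal]
    unfold rtr
    rw [Matrix.trace_diagonal, Complex.re_sum]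
    refine Finset.sum_congr rfl fun i _ => ?_
    norm_cast
    ring
  simp only [e1, e2] at key
  rw [e3] at key
  have e4 : ∫ x, ∑ i, g i * ‖u' x i‖ ^ 2 = ∑ i, g i * ∫ x, ‖u' x i‖ ^ 2 := by
    rw [integral_finsetSum]
    · refine Finset.sum_congr rfl fun i _ => ?_
      rw [integral_const_mul]
    · intro i _
      refine (integrable_of_supp (R := R) (f := fun x => ‖u' x i‖ ^ 2)
        ((hu' i).norm.pow 2) ?_).const_mul _
      intro x hx
      show ‖u' x i‖ ^ 2 = 0
      rw [hs' x i hx]; simp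
  rw [e4] at key
  exact key

/-- the diagonal case of Step 3 -/
theorem step3_diag (h2 : Stmt_STEP2) (ho : Stmt_OUT) {N : ℕ} {R : ℝ}
    {u u' : ℝ → Fin N → ℂ} (hR : 0 < R)
    (hd : ∀ x i, HasDerivAt (fun y => u y i) (u' x i) x) (hc : Continuous u')
    (hs : ∀ x, R ≤ |x| → u x = 0) (s : Fin N → ℝ)
    (hS : ∀ i j, ∫ x, u x i * (starRingEnd ℂ) (u x j) = if i = j then ((s i : ℝ) : ℂ) else 0)
    (c : ℝ) (hcp : 0 < c) :
    3 / 5 * (3 * Real.pi * c) ^ ((2 : ℝ) / 3) * ∫ x, (∑ i, ‖u x i‖ ^ 2) ^ ((5 : ℝ) / 3)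
      ≤ (∑ i, ∫ x, ‖u' x i‖ ^ 2) + c * ∑ i, s i ^ 2 := by
  have hpi := Real.pi_pos
  have hu : ∀ i, Continuous fun x => u x i := fun i =>
    continuous_iff_continuousAt.2 fun x => (hd x i).continuousAt
  have hn : ∀ i, Continuous fun x => ‖u x i‖ ^ 2 := fun i => (hu i).norm.pow 2
  have hns : ∀ i x, R ≤ |x| → ‖u x i‖ ^ 2 = 0 := fun i x hx => by rw [hs x hx]; simp
  have hnI : ∀ i, Integrable fun x => ‖u x i‖ ^ 2 := fun i => integrable_of_supp (hn i) (hns i)
  have hnnI : ∀ i j, Integrable fun x => ‖u x i‖ ^ 2 * ‖u x j‖ ^ 2 := fun i j =>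
    integrable_of_supp ((hn i).mul (hn j)) fun x hx => by rw [hns i x hx, zero_mul]
  -- the total mass
  have hmass : ∀ i, ∫ x, ‖u x i‖ ^ 2 = s i := by
    intro i
    have h1 := hS i i
    rw [if_pos rfl] at h1
    have e : ∀ x, u x i * (starRingEnd ℂ) (u x i) = ((‖u x i‖ ^ 2 : ℝ) : ℂ) := fun x => by
      rw [Complex.mul_conj, Complex.normSq_eq_norm_sq]
    simp only [e] at h1
    rw [integral_complex_ofReal] at h1
    exact_mod_cast h1
  have hs0 : ∀ i, 0 ≤ s i := fun i => by
    rw [← hmass i]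
    exact integral_nonneg fun x => sq_nonneg _
  have hz : ∀ x i, s i = 0 → ‖u x i‖ ^ 2 = 0 := by
    intro x i h
    have h1 : (fun x => ‖u x i‖ ^ 2) =ᵐ[volume] 0 := by
      rw [← integral_eq_zero_iff_of_nonneg (fun x => sq_nonneg _) (hnI i), hmass i, h]
    have h2 : (fun x => ‖u x i‖ ^ 2) = 0 :=
      (Continuous.ae_eq_iff_eq volume (hn i) continuous_zero).1 h1
    exact congrFun h2 x
  have hT0 : ∀ i, 0 ≤ ∫ x, ‖u' x i‖ ^ 2 := fun i => integral_nonneg fun x => sq_nonneg _
  -- parameters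
  set b := 2 * Real.pi * c with hb
  have hbp : 0 < b := by positivity
  obtain ⟨L, hL, hsL⟩ : ∃ L : ℝ, 0 ≤ L ∧ ∀ i, b * s i / Real.pi ≤ L ^ 2 := by
    refine ⟨1 + ∑ i, b * s i / Real.pi, ?_, ?_⟩
    · have : 0 ≤ ∑ i, b * s i / Real.pi :=
        Finset.sum_nonneg fun i _ => by have := hs0 i; positivity
      linarith
    · intro i
      have h1 : b * s i / Real.pi ≤ ∑ j, b * s j / Real.pi :=
        Finset.single_le_sum (f := fun j => b * s j / Real.pi)
          (fun j _ => by have := hs0 j; positivity) (Finset.mem_univ i)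
      have h0 : 0 ≤ b * s i / Real.pi := by have := hs0 i; positivity
      nlinarith
  have hG := fun i => Gw_cont b (s i)
  have hG0 := fun i r => Gw_nonneg hbp (hs0 i) r
  -- the inequality for every r
  have hr : ∀ r : ℝ, b * ∑ i, ∑ j, Gw b (s i) r * Gw b (s j) r * ∫ x, ‖u x i‖ ^ 2 * ‖u x j‖ ^ 2
      ≤ ∑ i, Gw b (s i) r * (∫ x, ‖u' x i‖ ^ 2)
        + b ^ 2 / 12 * ∑ i, (Gw b (s i) r * s i) ^ 3 := by
    intro r
    have h1 := weighted_step2 h2 ho hR hd hc hs s hS b (fun i => Gw b (s i) r)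
      (fun i => hG0 i r)
    have e : ∫ x, (∑ i, Gw b (s i) r * ‖u x i‖ ^ 2) ^ 2
        = ∑ i, ∑ j, Gw b (s i) r * Gw b (s j) r * ∫ x, ‖u x i‖ ^ 2 * ‖u x j‖ ^ 2 := by
      have e' : ∀ x, (∑ i, Gw b (s i) r * ‖u x i‖ ^ 2) ^ 2
          = ∑ i, ∑ j, Gw b (s i) r * Gw b (s j) r * (‖u x i‖ ^ 2 * ‖u x j‖ ^ 2) := by
        intro x
        rw [sq, Finset.sum_mul_sum]
        refine Finset.sum_congr rfl fun i _ => Finset.sum_congr rfl fun j _ => ?_
        ring
      simp only [e']
      rw [integral_finsetSum]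
      · refine Finset.sum_congr rfl fun i _ => ?_
        rw [integral_finsetSum]
        · refine Finset.sum_congr rfl fun j _ => ?_
          rw [integral_const_mul]
        · intro j _
          exact (hnnI i j).const_mul _
      · intro i _
        exact integrable_finsetSum _ fun j _ => (hnnI i j).const_mul _
    rw [e] at h1
    exact h1
  -- integrate over r
  have hint : b * ∑ i, ∑ j, (∫ r in (-L)..L, Gw b (s i) r * Gw b (s j) r)
        * (∫ x, ‖u x i‖ ^ 2 * ‖u x j‖ ^ 2)
      ≤ ∑ i, (∫ r in (-L)..L, Gw b (s i) r) * (∫ x, ‖u' x i‖ ^ 2)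
        + b ^ 2 / 12 * ∑ i, ∫ r in (-L)..L, (Gw b (s i) r * s i) ^ 3 := by
    have c1 : Continuous fun r : ℝ =>
        b * ∑ i, ∑ j, Gw b (s i) r * Gw b (s j) r * ∫ x, ‖u x i‖ ^ 2 * ‖u x j‖ ^ 2 :=
      continuous_const.mul (continuous_finsetSum _ fun i _ => continuous_finsetSum _ fun j _ =>
        ((hG i).mul (hG j)).mul continuous_const)
    have c2 : Continuous fun r : ℝ => ∑ i, Gw b (s i) r * (∫ x, ‖u' x i‖ ^ 2) :=
      continuous_finsetSum _ fun i _ => (hG i).mul continuous_const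
    have c3 : Continuous fun r : ℝ => b ^ 2 / 12 * ∑ i, (Gw b (s i) r * s i) ^ 3 :=
      continuous_const.mul (continuous_finsetSum _ fun i _ => ((hG i).mul continuous_const).pow 3)
    have h1 := intervalIntegral.integral_mono_on (μ := volume) (by linarith : -L ≤ L)
      (c1.intervalIntegrable _ _) ((c2.add c3).intervalIntegrable _ _) (fun r _ => hr r)
    have e1 : ∫ r in (-L)..L,
        b * ∑ i, ∑ j, Gw b (s i) r * Gw b (s j) r * ∫ x, ‖u x i‖ ^ 2 * ‖u x j‖ ^ 2
        = b * ∑ i, ∑ j, (∫ r in (-L)..L, Gw b (s i) r * Gw b (s j) r)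
          * (∫ x, ‖u x i‖ ^ 2 * ‖u x j‖ ^ 2) := by
      rw [intervalIntegral.integral_const_mul, intervalIntegral.integral_finsetSum]
      · congr 1
        refine Finset.sum_congr rfl fun i _ => ?_
        rw [intervalIntegral.integral_finsetSum]
        · refine Finset.sum_congr rfl fun j _ => ?_
          rw [intervalIntegral.integral_mul_const]
        · intro j _
          exact (((hG i).mul (hG j)).mul continuous_const).intervalIntegrable _ _
      · intro i _
        exact (continuous_finsetSum _ fun j _ =>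
          ((hG i).mul (hG j)).mul continuous_const).intervalIntegrable _ _
    have e2 : ∫ r in (-L)..L, (∑ i, Gw b (s i) r * (∫ x, ‖u' x i‖ ^ 2)
          + b ^ 2 / 12 * ∑ i, (Gw b (s i) r * s i) ^ 3)
        = ∑ i, (∫ r in (-L)..L, Gw b (s i) r) * (∫ x, ‖u' x i‖ ^ 2)
        + b ^ 2 / 12 * ∑ i, ∫ r in (-L)..L, (Gw b (s i) r * s i) ^ 3 := by
      rw [intervalIntegral.integral_add (c2.intervalIntegrable _ _) (c3.intervalIntegrable _ _),
        intervalIntegral.integral_const_mul, intervalIntegral.integral_finsetSum,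
        intervalIntegral.integral_finsetSum]
      · congr 1
        refine Finset.sum_congr rfl fun i _ => ?_
        rw [intervalIntegral.integral_mul_const]
      · intro i _
        exact (((hG i).mul continuous_const).pow 3).intervalIntegrable _ _
      · intro i _
        exact ((hG i).mul continuous_const).intervalIntegrable _ _
    rw [e1] at h1
    exact h1.trans (le_of_eq e2)
  -- the pointwise bound, integrated over x
  have hpt : ∀ x, 3 / 5 * (3 * Real.pi * c) ^ ((2 : ℝ) / 3) * (∑ i, ‖u x i‖ ^ 2) ^ ((5 : ℝ) / 3)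
      ≤ b * (∑ i, ∑ j, (∫ r in (-L)..L, Gw b (s i) r * Gw b (s j) r)
          * (‖u x i‖ ^ 2 * ‖u x j‖ ^ 2))
        + ∑ i, (∫ r in (-L)..L, r ^ 2 * Gw b (s i) r) * ‖u x i‖ ^ 2 := by
    intro x
    have h1 := pointwise_W hbp hL s (fun i => ‖u x i‖ ^ 2) hs0 hsL (fun i => sq_nonneg _)
      (fun i h => hz x i h)
    have e0 : 3 * b / 2 = 3 * Real.pi * c := by rw [hb]; ring
    rw [e0] at h1
    refine h1.trans (le_of_eq ?_)
    have e1 : ∀ r : ℝ, b * (∑ i, Gw b (s i) r * ‖u x i‖ ^ 2) ^ 2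
          + r ^ 2 * ∑ i, Gw b (s i) r * ‖u x i‖ ^ 2
        = b * (∑ i, ∑ j, Gw b (s i) r * Gw b (s j) r * (‖u x i‖ ^ 2 * ‖u x j‖ ^ 2))
          + ∑ i, r ^ 2 * Gw b (s i) r * ‖u x i‖ ^ 2 := by
      intro r
      rw [sq (∑ i, Gw b (s i) r * ‖u x i‖ ^ 2), Finset.sum_mul_sum]
      congr 1
      · congr 1
        refine Finset.sum_congr rfl fun i _ => Finset.sum_congr rfl fun j _ => ?_
        ring
      · rw [Finset.mul_sum]
        refine Finset.sum_congr rfl fun i _ => ?_
        ring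
    simp only [e1]
    have c1 : Continuous fun r : ℝ =>
        b * (∑ i, ∑ j, Gw b (s i) r * Gw b (s j) r * (‖u x i‖ ^ 2 * ‖u x j‖ ^ 2)) :=
      continuous_const.mul (continuous_finsetSum _ fun i _ => continuous_finsetSum _ fun j _ =>
        ((hG i).mul (hG j)).mul continuous_const)
    have c2 : Continuous fun r : ℝ => ∑ i, r ^ 2 * Gw b (s i) r * ‖u x i‖ ^ 2 :=
      continuous_finsetSum _ fun i _ => ((continuous_pow 2).mul (hG i)).mul continuous_const
    rw [intervalIntegral.integral_add (c1.intervalIntegrable _ _) (c2.intervalIntegrable _ _),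
      intervalIntegral.integral_const_mul, intervalIntegral.integral_finsetSum,
      intervalIntegral.integral_finsetSum]
    · congr 1
      · congr 1
        refine Finset.sum_congr rfl fun i _ => ?_
        rw [intervalIntegral.integral_finsetSum]
        · refine Finset.sum_congr rfl fun j _ => ?_
          rw [intervalIntegral.integral_mul_const]
        · intro j _
          exact (((hG i).mul (hG j)).mul continuous_const).intervalIntegrable _ _
      · refine Finset.sum_congr rfl fun i _ => ?_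
        rw [intervalIntegral.integral_mul_const]
    · intro i _
      exact (((continuous_pow 2).mul (hG i)).mul continuous_const).intervalIntegrable _ _
    · intro i _
      exact (continuous_finsetSum _ fun j _ =>
        ((hG i).mul (hG j)).mul continuous_const).intervalIntegrable _ _
  have hρc : Continuous fun x => (∑ i, ‖u x i‖ ^ 2) ^ ((5 : ℝ) / 3) :=
    (continuous_finsetSum _ fun i _ => hn i).rpow_const fun x => Or.inr (by norm_num)
  have hρs : ∀ x, R ≤ |x| → (∑ i, ‖u x i‖ ^ 2) ^ ((5 : ℝ) / 3) = 0 := by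
    intro x hx
    rw [Finset.sum_eq_zero fun i _ => hns i x hx, Real.zero_rpow (by norm_num)]
  have hx : 3 / 5 * (3 * Real.pi * c) ^ ((2 : ℝ) / 3) * ∫ x, (∑ i, ‖u x i‖ ^ 2) ^ ((5 : ℝ) / 3)
      ≤ b * (∑ i, ∑ j, (∫ r in (-L)..L, Gw b (s i) r * Gw b (s j) r)
          * (∫ x, ‖u x i‖ ^ 2 * ‖u x j‖ ^ 2))
        + ∑ i, (∫ r in (-L)..L, r ^ 2 * Gw b (s i) r) * s i := by
    rw [← integral_const_mul]
    have I1 : Integrable fun x => b * (∑ i, ∑ j, (∫ r in (-L)..L, Gw b (s i) r * Gw b (s j) r)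
          * (‖u x i‖ ^ 2 * ‖u x j‖ ^ 2)) :=
      (integrable_finsetSum _ fun i _ => integrable_finsetSum _ fun j _ =>
        (hnnI i j).const_mul _).const_mul _
    have I2 : Integrable fun x =>
        ∑ i, (∫ r in (-L)..L, r ^ 2 * Gw b (s i) r) * ‖u x i‖ ^ 2 :=
      integrable_finsetSum _ fun i _ => (hnI i).const_mul _
    have h1 := integral_mono ((integrable_of_supp hρc hρs).const_mul
      (3 / 5 * (3 * Real.pi * c) ^ ((2 : ℝ) / 3))) (I1.add I2) hpt
    refine h1.trans (le_of_eq ?_)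
    rw [integral_add' I1 I2, integral_const_mul, integral_finsetSum, integral_finsetSum]
    · congr 1
      · congr 1
        refine Finset.sum_congr rfl fun i _ => ?_
        rw [integral_finsetSum]
        · refine Finset.sum_congr rfl fun j _ => ?_
          rw [integral_const_mul]
        · intro j _
          exact (hnnI i j).const_mul _
      · refine Finset.sum_congr rfl fun i _ => ?_
        rw [integral_const_mul, hmass i]
    · intro i _
      exact (hnI i).const_mul _
    · intro i _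
      exact integrable_finsetSum _ fun j _ => (hnnI i j).const_mul _
  -- conclusion
  have hfin1 : ∑ i, (∫ r in (-L)..L, Gw b (s i) r) * (∫ x, ‖u' x i‖ ^ 2)
      ≤ ∑ i, ∫ x, ‖u' x i‖ ^ 2 := by
    refine Finset.sum_le_sum fun i _ => ?_
    have := mul_le_mul_of_nonneg_right (Gw_int_le hbp (hs0 i) hL (hsL i)) (hT0 i)
    rwa [one_mul] at this
  have hfin2 : b ^ 2 / 12 * ∑ i, (∫ r in (-L)..L, (Gw b (s i) r * s i) ^ 3)
      + ∑ i, (∫ r in (-L)..L, r ^ 2 * Gw b (s i) r) * s i = c * ∑ i, s i ^ 2 := by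
    rw [Finset.mul_sum, Finset.mul_sum, ← Finset.sum_add_distrib]
    refine Finset.sum_congr rfl fun i _ => ?_
    rw [Gw_moment hbp (hs0 i) hL (hsL i), hb]
    field_simp
  linarith

/-- **block STEP3** -/
theorem stmt_STEP3 (h2 : Stmt_STEP2) (ho : Stmt_OUT) : Stmt_STEP3 := by
  intro N R u u' hR hd hc hs c hcp S hS
  have hu : ∀ i, Continuous fun x => u x i := fun i =>
    continuous_iff_continuousAt.2 fun x => (hd x i).continuousAt
  have hu' : ∀ i, Continuous fun x => u' x i := fun i => (continuous_apply i).comp hc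
  have hs' : ∀ x i, R ≤ |x| → u' x i = 0 := fun x i hx =>
    deriv_eq_zero_of_supp (hd x i) hx fun y hy => by rw [hs y hy]; rfl
  have hSH : S.IsHermitian := by
    ext i j
    rw [Matrix.conjTranspose_apply, ← hS j i, ← hS i j]
    change (starRingEnd ℂ) (∫ x, u x j * (starRingEnd ℂ) (u x i)) = _
    rw [← integral_conj]
    congr 1
    funext x
    rw [map_mul, Complex.conj_conj]
    ring
  set V : Matrix.unitaryGroup (Fin N) ℂ := hSH.eigenvectorUnitary with hV
  have hVu : star (V : Mat N) * (V : Mat N) = 1 := Unitary.coe_star_mul_self V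
  have hVu' : (V : Mat N) * star (V : Mat N) = 1 := Unitary.coe_mul_star_self V
  have hdiag : star (V : Mat N) * S * (V : Mat N)
      = Matrix.diagonal fun i => ((hSH.eigenvalues i : ℝ) : ℂ) := by
    have := hSH.conjStarAlgAut_star_eigenvectorUnitary
    rw [Unitary.conjStarAlgAut_star_apply] at this
    exact this
  -- norms are preserved
  have hnorm : ∀ w : Fin N → ℂ, ∑ i, ‖(star (V : Mat N) *ᵥ w) i‖ ^ 2 = ∑ i, ‖w i‖ ^ 2 := by
    intro w
    have e : ∀ z : Fin N → ℂ, ((∑ i, ‖z i‖ ^ 2 : ℝ) : ℂ) = star z ⬝ᵥ z := by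
      intro z
      rw [dotProduct]
      push_cast
      refine Finset.sum_congr rfl fun i _ => ?_
      rw [Pi.star_apply, mul_comm]
      change _ = z i * (starRingEnd ℂ) (z i)
      rw [Complex.mul_conj, Complex.normSq_eq_norm_sq]
      push_cast
      rfl
    have h1 : ((∑ i, ‖(star (V : Mat N) *ᵥ w) i‖ ^ 2 : ℝ) : ℂ) = ((∑ i, ‖w i‖ ^ 2 : ℝ) : ℂ) := by
      rw [e, e, Matrix.star_mulVec, Matrix.star_eq_conjTranspose, Matrix.conjTranspose_conjTranspose,
        ← Matrix.dotProduct_mulVec, Matrix.mulVec_mulVec, ← Matrix.star_eq_conjTranspose, hVu',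
        Matrix.one_mulVec]
    exact_mod_cast h1
  have hdt : ∀ x i, HasDerivAt (fun y => (star (V : Mat N) *ᵥ u y) i)
      ((star (V : Mat N) *ᵥ u' x) i) x := by
    intro x i
    simp only [Matrix.mulVec, dotProduct]
    exact HasDerivAt.fun_sum fun j _ => (hd x j).const_mul _
  have hct : Continuous fun x => star (V : Mat N) *ᵥ u' x := by
    refine continuous_pi fun i => ?_
    simp only [Matrix.mulVec, dotProduct]
    exact continuous_finsetSum _ fun j _ => continuous_const.mul (hu' j)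
  have hst : ∀ x, R ≤ |x| → star (V : Mat N) *ᵥ u x = 0 := by
    intro x hx
    rw [hs x hx, Matrix.mulVec_zero]
  have hI : ∀ i j, Integrable fun x => u x i * (starRingEnd ℂ) (u x j) := fun i j =>
    integrable_of_supp ((hu i).mul (Complex.continuous_conj.comp (hu j))) fun x hx => by
      rw [hs x hx]; simp
  have hSt : ∀ i j, ∫ x, (star (V : Mat N) *ᵥ u x) i * (starRingEnd ℂ) ((star (V : Mat N) *ᵥ u x) j)
      = if i = j then ((hSH.eigenvalues i : ℝ) : ℂ) else 0 := by
    intro i j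
    have e : ∀ x, (star (V : Mat N) *ᵥ u x) i * (starRingEnd ℂ) ((star (V : Mat N) *ᵥ u x) j)
        = ∑ k, ∑ l, (star (V : Mat N) i k * (V : Mat N) l j)
            * (u x k * (starRingEnd ℂ) (u x l)) := by
      intro x
      rw [Matrix.mulVec, Matrix.mulVec, dotProduct, dotProduct, map_sum, Finset.sum_mul_sum]
      refine Finset.sum_congr rfl fun k _ => Finset.sum_congr rfl fun l _ => ?_
      rw [map_mul, Matrix.star_apply (V : Mat N) j l]
      change _ * ((starRingEnd ℂ) ((starRingEnd ℂ) ((V : Mat N) l j)) * _) = _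
      rw [Complex.conj_conj]
      ring
    simp only [e]
    rw [integral_finsetSum]
    · have e2 : ∀ k, ∫ x, ∑ l, (star (V : Mat N) i k * (V : Mat N) l j)
            * (u x k * (starRingEnd ℂ) (u x l))
          = ∑ l, (star (V : Mat N) i k * (V : Mat N) l j) * S k l := by
        intro k
        rw [integral_finsetSum]
        · refine Finset.sum_congr rfl fun l _ => ?_
          rw [integral_const_mul, hS]
        · intro l _
          exact (hI k l).const_mul _
      simp only [e2]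
      have h1 := congrFun (congrFun hdiag i) j
      rw [Matrix.diagonal_apply] at h1
      rw [← h1, Matrix.mul_apply]
      simp only [Matrix.mul_apply, Finset.sum_mul]
      rw [Finset.sum_comm]
      refine Finset.sum_congr rfl fun l _ => Finset.sum_congr rfl fun k _ => ?_
      ring
    · intro k _
      exact integrable_finsetSum _ fun l _ => (hI k l).const_mul _
  have key := step3_diag h2 ho hR hdt hct hst hSH.eigenvalues hSt c hcp
  simp only [hnorm] at key
  have e1 : ∑ i, ∫ x, ‖(star (V : Mat N) *ᵥ u' x) i‖ ^ 2 = ∫ x, ∑ i, ‖u' x i‖ ^ 2 := by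
    rw [← integral_finsetSum]
    · simp only [hnorm]
    · intro i _
      refine integrable_of_supp (R := R) (((continuous_apply i).comp hct).norm.pow 2) ?_
      intro x hx
      have : u' x = 0 := by
        funext k
        exact hs' x k hx
      simp [this]
  have e2 : ∑ i, hSH.eigenvalues i ^ 2 = rtr (S * S) := by
    have h1 : rtr (S * S) = rtr ((star (V : Mat N) * S * (V : Mat N))
        * (star (V : Mat N) * S * (V : Mat N))) := by
      unfold rtr
      have : (star (V : Mat N) * S * (V : Mat N)) * (star (V : Mat N) * S * (V : Mat N))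
          = star (V : Mat N) * (S * S * (V : Mat N)) := by
        calc (star (V : Mat N) * S * (V : Mat N)) * (star (V : Mat N) * S * (V : Mat N))
            = star (V : Mat N) * S * ((V : Mat N) * star (V : Mat N)) * S * (V : Mat N) := by
              simp only [mul_assoc]
          _ = _ := by rw [hVu', mul_one]; simp only [mul_assoc]
      rw [this, Matrix.trace_mul_comm (star (V : Mat N)), mul_assoc (S * S), hVu', mul_one]
    rw [h1, hdiag, Matrix.diagonal_mul_diagonal]
    unfold rtr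
    rw [Matrix.trace_diagonal, Complex.re_sum]
    refine Finset.sum_congr rfl fun i _ => ?_
    norm_cast
    ring
  rw [e1, e2] at key
  exact key

end Pool.LT
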