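import Pool.Agent.Work.MP_3242df_lt.Interface

/-!
Block ASM3 of the Lieb-Thirring project: assembly of the three steps on `R x R x R`.
-/

set_option autoImplicit false

open MeasureTheory Matrix Finset
open scoped BigOperators ComplexOrder

namespace Pool.LT

namespace ASM3

/-- continuous and zero outside of `(-R, R)` -/
structure C1 {E : Type*} [NormedAddCommGroup E] (R : ℝ) (f : ℝ → E) : Prop where
  c : Continuous f
  s : ∀ x, R ≤ |x| → f x = 0

/-- continuous and zero outside of `(-R, R)^2` -/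
structure C2 {E : Type*} [NormedAddCommGroup E] (R : ℝ) (f : ℝ → ℝ → E) : Prop where
  c : Continuous (fun p : ℝ × ℝ => f p.1 p.2)
  s : ∀ x y, R ≤ |x| ∨ R ≤ |y| → f x y = 0

/-- continuous and zero outside of `(-R, R)^3` -/
structure C3 {E : Type*} [NormedAddCommGroup E] (R : ℝ) (f : ℝ → ℝ → ℝ → E) : Prop where
  c : Continuous (fun p : ℝ × ℝ × ℝ => f p.1 p.2.1 p.2.2)
  s : ∀ x y z, R ≤ |x| ∨ R ≤ |y| ∨ R ≤ |z| → f x y z = 0

section
variable {E : Type*} [NormedAddCommGroup E]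

theorem C1.int {R : ℝ} {f : ℝ → E} (h : C1 R f) : Integrable f := by
  apply h.c.integrable_of_hasCompactSupport
  apply HasCompactSupport.intro (isCompact_Icc (a := -R) (b := R))
  intro x hx
  apply h.s
  by_contra hc
  push Not at hc
  exact hx ⟨(abs_lt.1 hc).1.le, (abs_lt.1 hc).2.le⟩

theorem C2.int {R : ℝ} {f : ℝ → ℝ → E} (h : C2 R f) :
    Integrable (fun p : ℝ × ℝ => f p.1 p.2) := by
  apply h.c.integrable_of_hasCompactSupport
  apply HasCompactSupport.intro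
    ((isCompact_Icc (a := -R) (b := R)).prod (isCompact_Icc (a := -R) (b := R)))
  intro x hx
  apply h.s
  by_contra hc
  push Not at hc
  exact hx ⟨⟨(abs_lt.1 hc.1).1.le, (abs_lt.1 hc.1).2.le⟩,
    ⟨(abs_lt.1 hc.2).1.le, (abs_lt.1 hc.2).2.le⟩⟩

theorem C2.sec {R : ℝ} {f : ℝ → ℝ → E} (h : C2 R f) (x : ℝ) : C1 R (f x) :=
  ⟨h.c.comp (by fun_prop : Continuous fun y : ℝ => (x, y)), fun y hy => h.s x y (Or.inr hy)⟩

theorem C3.sec {R : ℝ} {f : ℝ → ℝ → ℝ → E} (h : C3 R f) (x : ℝ) : C2 R (f x) :=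
  ⟨h.c.comp (by fun_prop : Continuous fun y : ℝ × ℝ => (x, y.1, y.2)),
    fun y z hy => h.s x y z (Or.inr hy)⟩

variable [NormedSpace ℝ E]

theorem cont_int {X : Type*} [TopologicalSpace X] [FirstCountableTopology X]
    [LocallyCompactSpace X] (R : ℝ) (f : X → ℝ → E)
    (hf : Continuous (fun p : X × ℝ => f p.1 p.2))
    (hs : ∀ x z, R ≤ |z| → f x z = 0) : Continuous fun x => ∫ z, f x z := by
  have h1 : (fun x => ∫ z, f x z) = fun x => ∫ z in Set.Icc (-R) R, f x z := by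
    funext x
    symm
    apply setIntegral_eq_integral_of_forall_compl_eq_zero
    intro z hz
    apply hs
    by_contra hc
    push Not at hc
    exact hz ⟨(abs_lt.1 hc).1.le, (abs_lt.1 hc).2.le⟩
  rw [h1]
  exact continuous_parametric_integral_of_continuous hf isCompact_Icc

theorem C2.fst {R : ℝ} {f : ℝ → ℝ → E} (h : C2 R f) : C1 R (fun x => ∫ y, f x y) :=
  ⟨cont_int R f h.c (fun x z hz => h.s x z (Or.inr hz)), fun x hx => by
    simp [fun y => h.s x y (Or.inl hx)]⟩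

theorem C3.fst {R : ℝ} {f : ℝ → ℝ → ℝ → E} (h : C3 R f) :
    C2 R (fun x y => ∫ z, f x y z) := by
  refine ⟨cont_int R (fun p : ℝ × ℝ => f p.1 p.2)
    (h.c.comp (by fun_prop : Continuous fun q : (ℝ × ℝ) × ℝ => (q.1.1, q.1.2, q.2)))
    (fun x z hz => h.s x.1 x.2 z (Or.inr (Or.inr hz))), fun x y hxy => ?_⟩
  have : ∀ z, f x y z = 0 := fun z => h.s x y z (by tauto)
  simp [this]

theorem C2.fub {R : ℝ} {f : ℝ → ℝ → E} (h : C2 R f) :
    ∫ p : ℝ × ℝ, f p.1 p.2 = ∫ x, ∫ y, f x y := by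
  rw [Measure.volume_eq_prod, integral_prod _ h.int]

end

theorem dz {R x : ℝ} {f : ℝ → ℂ} {f' : ℂ} (h : HasDerivAt f f' x)
    (hs : ∀ y, R ≤ |y| → f y = 0) (hx : R ≤ |x|) : f' = 0 := by
  rcases le_abs.1 hx with h1 | h1
  · have h2 : HasDerivWithinAt f 0 (Set.Ici x) x :=
      (hasDerivWithinAt_const x (Set.Ici x) (0 : ℂ)).congr
        (fun y hy => hs y (le_trans (le_trans h1 hy) (le_abs_self y))) (hs x hx)
    exact (uniqueDiffOn_Ici x x (Set.mem_Ici.2 le_rfl)).eq_deriv _ h.hasDerivWithinAt h2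
  · have h2 : HasDerivWithinAt f 0 (Set.Iic x) x :=
      (hasDerivWithinAt_const x (Set.Iic x) (0 : ℂ)).congr
        (fun y hy => hs y (le_trans (le_trans h1 (neg_le_neg hy)) (neg_le_abs y))) (hs x hx)
    exact (uniqueDiffOn_Iic x x (Set.mem_Iic.2 le_rfl)).eq_deriv _ h.hasDerivWithinAt h2

theorem C1.mono3 {R : ℝ} {f g h : ℝ → ℝ} (hf : C1 R f) (hg : C1 R g) (hh : C1 R h) (K c : ℝ)
    (H : ∀ x, K * f x ≤ g x + c * h x) :
    K * ∫ x, f x ≤ (∫ x, g x) + c * ∫ x, h x := by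
  rw [← integral_const_mul, ← integral_const_mul, ← integral_add hg.int (hh.int.const_mul c)]
  exact integral_mono (hf.int.const_mul K) (hg.int.add (hh.int.const_mul c)) H

theorem C1.add3 {R : ℝ} {f g h : ℝ → ℝ} (hf : C1 R f) (hg : C1 R g) (hh : C1 R h) :
    ∫ x, (f x + g x + h x) = (∫ x, f x) + (∫ x, g x) + ∫ x, h x := by
  have h1 : ∫ x, (f x + g x) = (∫ x, f x) + ∫ x, g x := integral_add hf.int hg.int
  have h2 : ∫ x, ((f x + g x) + h x) = (∫ x, (f x + g x)) + ∫ x, h x :=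
    integral_add (hf.int.add hg.int) hh.int
  rw [h2, h1]

theorem rtr_C1 {R : ℝ} {N : ℕ} {S : ℝ → Mat N} (h : ∀ i j, C1 R (fun x => S x i j)) :
    C1 R (fun x => rtr (S x * S x * S x)) := by
  have hc : Continuous S := continuous_matrix fun i j => (h i j).c
  refine ⟨?_, fun x hx => ?_⟩
  · unfold rtr
    exact Complex.continuous_re.comp (((hc.matrix_mul hc).matrix_mul hc).matrix_trace)
  · have : S x = 0 := by
      ext i j
      exact (h i j).s x hx
    simp [rtr, this]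

theorem rtr_C2 {R : ℝ} {N : ℕ} {S : ℝ → ℝ → Mat N} (h : ∀ i j, C2 R (fun x y => S x y i j)) :
    C2 R (fun x y => rtr (S x y * S x y)) := by
  have hc : Continuous (fun p : ℝ × ℝ => S p.1 p.2) := continuous_matrix fun i j => (h i j).c
  refine ⟨?_, fun x y hx => ?_⟩
  · unfold rtr
    exact Complex.continuous_re.comp ((hc.matrix_mul hc).matrix_trace)
  · have : S x y = 0 := by
      ext i j
      exact (h i j).s x y hx
    simp [rtr, this]

theorem constK : 3 / 5 * (3 * Real.pi * (Real.sqrt 3 * Real.pi)) ^ ((2 : ℝ) / 3)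
    = 9 / 5 * Real.pi ^ ((4 : ℝ) / 3) := by
  have h3 : (0 : ℝ) ≤ Real.sqrt 3 := Real.sqrt_nonneg 3
  have hp : (0 : ℝ) ≤ Real.pi := Real.pi_pos.le
  have e0 : Real.sqrt 3 * Real.sqrt 3 = 3 := Real.mul_self_sqrt (by norm_num)
  have e1 : 3 * Real.pi * (Real.sqrt 3 * Real.pi) = Real.sqrt 3 ^ 3 * Real.pi ^ 2 := by
    calc 3 * Real.pi * (Real.sqrt 3 * Real.pi)
        = (Real.sqrt 3 * Real.sqrt 3) * Real.pi * (Real.sqrt 3 * Real.pi) := by rw [e0]
      _ = Real.sqrt 3 ^ 3 * Real.pi ^ 2 := by ring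
  have e2 : (Real.sqrt 3 ^ 3) ^ ((2 : ℝ) / 3) = 3 := by
    rw [← Real.rpow_natCast, ← Real.rpow_mul h3]
    norm_num
  have e3 : (Real.pi ^ 2) ^ ((2 : ℝ) / 3) = Real.pi ^ ((4 : ℝ) / 3) := by
    rw [← Real.rpow_natCast, ← Real.rpow_mul hp]
    norm_num
  rw [e1, Real.mul_rpow (by positivity) (by positivity), e2, e3]
  ring

end ASM3

open ASM3 in
theorem stmt_ASM3 (h1 : Stmt_STEP1) (h2 : Stmt_STEP2) (h3 : Stmt_STEP3) (hreg : Stmt_REG) :
    Stmt_ASM3 := by
  intro N R u u1 u2 u3 hR hc hc1 hc2 hc3 hs hd1 hd2 hd3 hon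
  have s1 : ∀ x y z, (R ≤ |x| ∨ R ≤ |y| ∨ R ≤ |z|) → u1 x y z = 0 := by
    intro x y z h
    funext i
    rcases h with h | h
    · exact dz (hd1 x y z i) (fun s hs' => by rw [hs s y z (Or.inl hs')]; rfl) h
    · have h0 : HasDerivAt (fun s => u s y z i) 0 x := by
        have : (fun s => u s y z i) = fun _ => 0 := by
          funext s
          rw [hs s y z (Or.inr h)]; rfl
        rw [this]
        exact hasDerivAt_const _ _
      exact (hd1 x y z i).unique h0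
  have s2 : ∀ x y z, (R ≤ |x| ∨ R ≤ |y| ∨ R ≤ |z|) → u2 x y z = 0 := by
    intro x y z h
    funext i
    rcases h with h | h | h
    · have h0 : HasDerivAt (fun s => u x s z i) 0 y := by
        have : (fun s => u x s z i) = fun _ => 0 := by
          funext s
          rw [hs x s z (Or.inl h)]; rfl
        rw [this]
        exact hasDerivAt_const _ _
      exact (hd2 x y z i).unique h0
    · exact dz (hd2 x y z i) (fun s hs' => by rw [hs x s z (Or.inr (Or.inl hs'))]; rfl) h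
    · have h0 : HasDerivAt (fun s => u x s z i) 0 y := by
        have : (fun s => u x s z i) = fun _ => 0 := by
          funext s
          rw [hs x s z (Or.inr (Or.inr h))]; rfl
        rw [this]
        exact hasDerivAt_const _ _
      exact (hd2 x y z i).unique h0
  have s3 : ∀ x y z, (R ≤ |x| ∨ R ≤ |y| ∨ R ≤ |z|) → u3 x y z = 0 := by
    intro x y z h
    funext i
    rcases h with h | h | h
    · have h0 : HasDerivAt (fun s => u x y s i) 0 z := by
        have : (fun s => u x y s i) = fun _ => 0 := by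
          funext s
          rw [hs x y s (Or.inl h)]; rfl
        rw [this]
        exact hasDerivAt_const _ _
      exact (hd3 x y z i).unique h0
    · have h0 : HasDerivAt (fun s => u x y s i) 0 z := by
        have : (fun s => u x y s i) = fun _ => 0 := by
          funext s
          rw [hs x y s (Or.inr (Or.inl h))]; rfl
        rw [this]
        exact hasDerivAt_const _ _
      exact (hd3 x y z i).unique h0
    · exact dz (hd3 x y z i) (fun s hs' => by rw [hs x y s (Or.inr (Or.inr hs'))]; rfl) h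
  -- the functions
  have hsq : ∀ v : ℝ → ℝ → ℝ → Fin N → ℂ,
      Continuous (fun p : ℝ × ℝ × ℝ => v p.1 p.2.1 p.2.2) →
      (∀ x y z, (R ≤ |x| ∨ R ≤ |y| ∨ R ≤ |z|) → v x y z = 0) →
      C3 R (fun x y z => ∑ i, ‖v x y z i‖ ^ 2) := by
    intro v hv hv0
    refine ⟨?_, fun x y z h => ?_⟩
    · apply continuous_finsetSum
      intro i _
      exact ((continuous_norm.comp ((continuous_apply i).comp hv)).pow 2)
    · simp [hv0 x y z h]
  have D1 := hsq u1 hc1 s1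
  have D2 := hsq u2 hc2 s2
  have D3 := hsq u3 hc3 s3
  have D0 := hsq u hc hs
  have hP : C3 R (fun x y z => (∑ i, ‖u x y z i‖ ^ 2) ^ ((5 : ℝ) / 3)) := by
    refine ⟨?_, fun x y z h => ?_⟩
    · exact D0.c.rpow_const (fun p => Or.inr (by norm_num))
    · have h0 : ∑ i, ‖u x y z i‖ ^ 2 = 0 := D0.s x y z h
      rw [h0]
      exact Real.zero_rpow (by norm_num)
  have hF : ∀ i j, C3 R (fun x y z => u x y z i * (starRingEnd ℂ) (u x y z j)) := by
    intro i j
    refine ⟨?_, fun x y z h => ?_⟩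
    · exact ((continuous_apply i).comp hc).mul
        (Complex.continuous_conj.comp ((continuous_apply j).comp hc))
    · simp [hs x y z h]
  set S : ℝ → Mat N := fun x => Matrix.of fun i j =>
    ∫ y, ∫ z, u x y z i * (starRingEnd ℂ) (u x y z j) with hS
  set s : ℝ → ℝ → Mat N := fun x y => Matrix.of fun i j =>
    ∫ z, u x y z i * (starRingEnd ℂ) (u x y z j) with hs'
  have cS : ∀ i j, C1 R (fun x => S x i j) := fun i j => (hF i j).fst.fst
  have cs : ∀ i j, C2 R (fun x y => s x y i j) := fun i j => (hF i j).fst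
  -- Step 1
  have hA : Real.pi ^ 2 / 4 * ∫ x, rtr (S x * S x * S x)
      ≤ ∫ x, ∫ y, ∫ z, ∑ i, ‖u1 x y z i‖ ^ 2 := by
    have cv := hreg (ℝ × ℝ) volume N R (fun x p => u x p.1 p.2) (fun x p => u1 x p.1 p.2) hR hc hc1
      (fun x y hx => hs x y.1 y.2 (Or.inl hx))
      (fun x y hy => by
        apply hs
        right
        rw [Prod.norm_def, le_max_iff] at hy
        simpa using hy)
      (fun x y i => hd1 x y.1 y.2 i)
    have eS : (fun x => Matrix.of fun i j => ∫ p : ℝ × ℝ, u x p.1 p.2 i *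
        (starRingEnd ℂ) (u x p.1 p.2 j)) = S := by
      funext x
      ext i j
      exact ((hF i j).sec x).fub
    have eT : (fun x => ∫ p : ℝ × ℝ, ∑ i, ‖u1 x p.1 p.2 i‖ ^ 2)
        = fun x => ∫ y, ∫ z, ∑ i, ‖u1 x y z i‖ ^ 2 := by
      funext x
      exact (D1.sec x).fub
    rw [eS, eT] at cv
    exact h1 N R _ _ _ cv hon
  -- Step 2
  have hB0 : ∀ x, Real.sqrt 3 * Real.pi * ∫ y, rtr (s x y * s x y)
      ≤ (∫ y, ∫ z, ∑ i, ‖u2 x y z i‖ ^ 2)
        + (Real.sqrt 3 * Real.pi) ^ 2 / 12 * rtr (S x * S x * S x) := by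
    intro x
    have cv := hreg ℝ volume N R (fun y z => u x y z) (fun y z => u2 x y z) hR
      (hc.comp (by fun_prop : Continuous fun q : ℝ × ℝ => (x, q.1, q.2)))
      (hc2.comp (by fun_prop : Continuous fun q : ℝ × ℝ => (x, q.1, q.2)))
      (fun y z hy => hs x y z (Or.inr (Or.inl hy)))
      (fun y z hz => hs x y z (Or.inr (Or.inr hz)))
      (fun y z i => hd2 x y z i)
    exact h2 N R _ _ _ cv (Real.sqrt 3 * Real.pi) (S x) (fun i j => rfl)
  have hB : Real.sqrt 3 * Real.pi * ∫ x, ∫ y, rtr (s x y * s x y)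
      ≤ (∫ x, ∫ y, ∫ z, ∑ i, ‖u2 x y z i‖ ^ 2)
        + (Real.sqrt 3 * Real.pi) ^ 2 / 12 * ∫ x, rtr (S x * S x * S x) :=
    C1.mono3 (rtr_C2 cs).fst D2.fst.fst (rtr_C1 cS) _ _ hB0
  -- Step 3
  have hC0 : ∀ x y, 9 / 5 * Real.pi ^ ((4 : ℝ) / 3) *
      (∫ z, (∑ i, ‖u x y z i‖ ^ 2) ^ ((5 : ℝ) / 3))
      ≤ (∫ z, ∑ i, ‖u3 x y z i‖ ^ 2) + Real.sqrt 3 * Real.pi * rtr (s x y * s x y) := by
    intro x y
    have := h3 N R (u x y) (u3 x y) hR (fun z i => hd3 x y z i)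
      (hc3.comp (by fun_prop : Continuous fun q : ℝ => (x, y, q)))
      (fun z hz => hs x y z (Or.inr (Or.inr hz)))
      (Real.sqrt 3 * Real.pi) (by positivity) (s x y) (fun i j => rfl)
    rw [constK] at this
    exact this
  have hC1 : ∀ x, 9 / 5 * Real.pi ^ ((4 : ℝ) / 3) *
      (∫ y, ∫ z, (∑ i, ‖u x y z i‖ ^ 2) ^ ((5 : ℝ) / 3))
      ≤ (∫ y, ∫ z, ∑ i, ‖u3 x y z i‖ ^ 2)
        + Real.sqrt 3 * Real.pi * ∫ y, rtr (s x y * s x y) := fun x =>
    C1.mono3 (hP.sec x).fst (D3.sec x).fst ((rtr_C2 cs).sec x) _ _ (hC0 x)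
  have hC : 9 / 5 * Real.pi ^ ((4 : ℝ) / 3) *
      (∫ x, ∫ y, ∫ z, (∑ i, ‖u x y z i‖ ^ 2) ^ ((5 : ℝ) / 3))
      ≤ (∫ x, ∫ y, ∫ z, ∑ i, ‖u3 x y z i‖ ^ 2)
        + Real.sqrt 3 * Real.pi * ∫ x, ∫ y, rtr (s x y * s x y) :=
    C1.mono3 hP.fst.fst D3.fst.fst (rtr_C2 cs).fst _ _ hC1
  -- the sum
  have hsum : ∫ x, ∫ y, ∫ z, ∑ i, (‖u1 x y z i‖ ^ 2 + ‖u2 x y z i‖ ^ 2 + ‖u3 x y z i‖ ^ 2)
      = (∫ x, ∫ y, ∫ z, ∑ i, ‖u1 x y z i‖ ^ 2) + (∫ x, ∫ y, ∫ z, ∑ i, ‖u2 x y z i‖ ^ 2)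
        + (∫ x, ∫ y, ∫ z, ∑ i, ‖u3 x y z i‖ ^ 2) := by
    rw [← C1.add3 D1.fst.fst D2.fst.fst D3.fst.fst]
    congr 1
    funext x
    rw [← C1.add3 (D1.sec x).fst (D2.sec x).fst (D3.sec x).fst]
    congr 1
    funext y
    rw [← C1.add3 ((D1.sec x).sec y) ((D2.sec x).sec y) ((D3.sec x).sec y)]
    congr 1
    funext z
    simp only [Finset.sum_add_distrib]
  rw [hsum]
  have e4 : (Real.sqrt 3 * Real.pi) ^ 2 / 12 = Real.pi ^ 2 / 4 := by
    rw [mul_pow, Real.sq_sqrt (by norm_num : (0 : ℝ) ≤ 3)]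
    ring
  rw [e4] at hB
  linarith

end Pool.LT
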