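import Pool.Agent.Work.MP_3242df_lt.Defs

/-!
Interface (statements as Props) of the Lieb-Thirring project.
-/

set_option autoImplicit false

open MeasureTheory Matrix Finset
open scoped BigOperators ComplexOrder

namespace Pool.LT

/-- SINC: `sin(p(x+y))/sin(x+y)` is PSD on `(0, pi/2)`. -/
def Stmt_SINC : Prop := ∀ p : ℝ, 0 < p → p < 1 →
  PSDKer (Set.Ioo 0 (Real.pi / 2)) (fun x y => Real.sin (p * (x + y)) / Real.sin (x + y))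

/-- LEMH -/
def Stmt_LEMH : Prop := ∀ p φ : ℝ, 0 < p → p < 1 → |φ| ≤ (1 - p) * (Real.pi / 2) →
  PSDKer (Set.Ioo (-(Real.pi / 4)) (Real.pi / 4))
    (fun x y => Real.cos (p * (x + y) + φ) / Real.cos (x + y))

/-- AKER -/
def Stmt_AKER : Prop := ∀ a z : ℝ, 0 ≤ a → a ≤ 1 → z ∈ Set.Ioo (-(Real.pi / 4)) (Real.pi / 4) →
  PSDKer (Set.Ioo (-(Real.pi / 4)) (Real.pi / 4)) (fun x y => Afun a z x y / Real.cos (x + y))

/-- L1 (form of helper20) -/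
def Stmt_L1 : Prop := ∀ (n : ℕ) (th : Fin n → ℝ)
  (_ : ∀ i, th i ∈ Set.Ioo (-(Real.pi / 4)) (Real.pi / 4)) (sig : Matrix (Fin n) (Fin n) ℂ)
  (_ : sig.PosSemidef),
  0 ≤ (∑ i, ∑ j, ∑ k, (((Real.sinc (th i - th j) - Real.cos (th i - th j)) /
    (Real.cos (th i + th k) * Real.cos (th j + th k)) : ℝ) : ℂ) *
      (sig i j * sig j k * sig k i)).re

/-- POLY (Weierstrass): polynomial approximation of `g(s) = 2 w tan(w s)` in `C^1([-2,2])`,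
stated with divided differences; `q m` coefficients, value at `s` is `sum_{m<d} c_m s^m`,
the divided difference of `s^m` is `sum_{l<m} a^{m-1-l} b^l`. -/
def Stmt_POLY : Prop := ∀ w : ℝ, 0 < w → w < Real.pi / 4 → ∀ ε : ℝ, 0 < ε →
  ∃ (d : ℕ) (c : ℕ → ℝ),
    (∀ s : ℝ, |s| ≤ 2 → |(∑ m ∈ Finset.range d, c m * s ^ m) - 2 * w * Real.tan (w * s)| ≤ ε) ∧
    (∀ a b : ℝ, |a| ≤ 2 → |b| ≤ 2 → a ≠ b →
      |(∑ m ∈ Finset.range d, c m * ∑ l ∈ Finset.range m, a ^ (m - 1 - l) * b ^ l)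
        - (2 * w * Real.tan (w * a) - 2 * w * Real.tan (w * b)) / (a - b)| ≤ ε) ∧
    (∀ a : ℝ, |a| ≤ 2 →
      |(∑ m ∈ Finset.range d, c m * ∑ l ∈ Finset.range m, a ^ (m - 1 - l) * a ^ l)
        - 2 * w ^ 2 / Real.cos (w * a) ^ 2| ≤ ε)

/-- EIG: the pointwise inequality. -/
def Stmt_EIG : Prop := ∀ N : ℕ, ∀ w : ℝ, 0 < w → w < Real.pi / 4 → ∀ ε : ℝ, 0 < ε →
  ∃ (d : ℕ) (c : ℕ → ℝ), ∀ M σ : Mat N, M.IsHermitian → (1 - M).PosSemidef → (1 + M).PosSemidef →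
    σ.PosSemidef →
    4 * w ^ 2 * rtr (σ * σ * σ) - ε * (rtr σ) ^ 3
      ≤ DD d c M σ - rtr (σ * (XX d c M σ * XX d c M σ))

/-- EIGD: formula in the diagonal case (`M = diagonal lam`). -/
def Stmt_EIGD : Prop := ∀ (N d : ℕ) (c : ℕ → ℝ) (lam : Fin N → ℝ) (σ : Mat N), σ.IsHermitian →
  DD d c (Matrix.diagonal fun i => ((lam i : ℝ) : ℂ)) σ
      - rtr (σ * (XX d c (Matrix.diagonal fun i => ((lam i : ℝ) : ℂ)) σ
          * XX d c (Matrix.diagonal fun i => ((lam i : ℝ) : ℂ)) σ))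
    = (∑ i, ∑ j, ∑ k,
        (((2 * (∑ m ∈ Finset.range d, c m * ∑ l ∈ Finset.range m,
              (lam i + lam k) ^ (m - 1 - l) * (lam j + lam k) ^ l)
          - (∑ m ∈ Finset.range d, c m * (lam i + lam k) ^ m)
            * (∑ m ∈ Finset.range d, c m * (lam j + lam k) ^ m) : ℝ)) : ℂ)
          * (σ i j * σ j k * σ k i)).re

/-- EIGU: unitary invariance, reduces EIG to diagonal `M`. -/
def Stmt_EIGU : Prop := ∀ (N d : ℕ) (c : ℕ → ℝ) (M σ U : Mat N), U ∈ Matrix.unitaryGroup (Fin N) ℂ →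
  DD d c (star U * M * U) (star U * σ * U) = DD d c M σ ∧
  rtr ((star U * σ * U) * (XX d c (star U * M * U) (star U * σ * U)
      * XX d c (star U * M * U) (star U * σ * U))) = rtr (σ * (XX d c M σ * XX d c M σ))

/-- CALC: the integrated null-Lagrangian identity. `M x = 2 int_{-R}^x sigma - 1`. -/
def Stmt_CALC : Prop := ∀ (N : ℕ) (R : ℝ) (σ σ' : ℝ → Mat N) (t : ℝ → ℝ), Curve N R σ σ' t →
  ∀ (d : ℕ) (c : ℕ → ℝ) (M : ℝ → Mat N),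
    (∀ x i j, HasDerivAt (fun y => M y i j) (2 * σ x i j) x) →
    (∫ x in (-R)..R, (rtr (σ' x * XX d c (M x) (σ x)) + DD d c (M x) (σ x))) = 0

/-- STEP1: sharp operator valued Lieb-Thirring inequality, `d = 1`, `gamma = 1`. -/
def Stmt_STEP1 : Prop := ∀ (N : ℕ) (R : ℝ) (σ σ' : ℝ → Mat N) (t : ℝ → ℝ), Curve N R σ σ' t →
  (∀ i j, ∫ x, σ x i j = (1 : Mat N) i j) →
  Real.pi ^ 2 / 4 * ∫ x, rtr (σ x * σ x * σ x) ≤ ∫ x, t x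

/-- STEP2: operator valued `gamma = 3/2`. -/
def Stmt_STEP2 : Prop := ∀ (N : ℕ) (R : ℝ) (σ σ' : ℝ → Mat N) (t : ℝ → ℝ), Curve N R σ σ' t →
  ∀ c : ℝ, ∀ S : Mat N, (∀ i j, ∫ x, σ x i j = S i j) →
  c * ∫ x, rtr (σ x * σ x) ≤ (∫ x, t x) + c ^ 2 / 12 * rtr (S * S * S)

/-- STEP3: scalar `gamma = 2`. -/
def Stmt_STEP3 : Prop := ∀ (N : ℕ) (R : ℝ) (u u' : ℝ → Fin N → ℂ), 0 < R →
  (∀ x i, HasDerivAt (fun y => u y i) (u' x i) x) → Continuous u' →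
  (∀ x, R ≤ |x| → u x = 0) →
  ∀ c : ℝ, 0 < c → ∀ S : Mat N, (∀ i j, ∫ x, u x i * (starRingEnd ℂ) (u x j) = S i j) →
  3 / 5 * (3 * Real.pi * c) ^ ((2 : ℝ) / 3) * ∫ x, (∑ i, ‖u x i‖ ^ 2) ^ ((5 : ℝ) / 3)
    ≤ (∫ x, ∑ i, ‖u' x i‖ ^ 2) + c * rtr (S * S)

/-- REG: differentiation under the integral sign; `Y` with a measure finite on compacts. -/
def Stmt_REG : Prop := ∀ (Y : Type) [NormedAddCommGroup Y] [NormedSpace ℝ Y] [FiniteDimensional ℝ Y]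
  [MeasurableSpace Y] [BorelSpace Y] (μ : Measure Y) [IsFiniteMeasureOnCompacts μ]
  (N : ℕ) (R : ℝ) (v v' : ℝ → Y → Fin N → ℂ), 0 < R →
  Continuous (fun p : ℝ × Y => v p.1 p.2) → Continuous (fun p : ℝ × Y => v' p.1 p.2) →
  (∀ x y, R ≤ |x| → v x y = 0) → (∀ x y, R ≤ ‖y‖ → v x y = 0) →
  (∀ x y i, HasDerivAt (fun s => v s y i) (v' x y i) x) →
  Curve N R (fun x => Matrix.of fun i j => ∫ y, v x y i * (starRingEnd ℂ) (v x y j) ∂μ)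
    (fun x => Matrix.of fun i j => ∫ y, (v' x y i * (starRingEnd ℂ) (v x y j)
        + v x y i * (starRingEnd ℂ) (v' x y j)) ∂μ)
    (fun x => ∫ y, ∑ i, ‖v' x y i‖ ^ 2 ∂μ)

/-- OUT: the case of no integration, `sigma = u u^*`. -/
def Stmt_OUT : Prop := ∀ (N : ℕ) (R : ℝ) (u u' : ℝ → Fin N → ℂ), 0 < R →
  (∀ x i, HasDerivAt (fun y => u y i) (u' x i) x) → Continuous u' →
  (∀ x, R ≤ |x| → u x = 0) →
  Curve N R (fun x => outer (u x))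
    (fun x => Matrix.of fun i j => u' x i * (starRingEnd ℂ) (u x j)
        + u x i * (starRingEnd ℂ) (u' x j))
    (fun x => ∑ i, ‖u' x i‖ ^ 2)

/-- ASM3: assembly of the three steps on `R x R x R` (iterated integrals). -/
def Stmt_ASM3 : Prop := ∀ (N : ℕ) (R : ℝ) (u u1 u2 u3 : ℝ → ℝ → ℝ → Fin N → ℂ), 0 < R →
  Continuous (fun p : ℝ × ℝ × ℝ => u p.1 p.2.1 p.2.2) →
  Continuous (fun p : ℝ × ℝ × ℝ => u1 p.1 p.2.1 p.2.2) →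
  Continuous (fun p : ℝ × ℝ × ℝ => u2 p.1 p.2.1 p.2.2) →
  Continuous (fun p : ℝ × ℝ × ℝ => u3 p.1 p.2.1 p.2.2) →
  (∀ x y z, R ≤ |x| ∨ R ≤ |y| ∨ R ≤ |z| → u x y z = 0) →
  (∀ x y z i, HasDerivAt (fun s => u s y z i) (u1 x y z i) x) →
  (∀ x y z i, HasDerivAt (fun s => u x s z i) (u2 x y z i) y) →
  (∀ x y z i, HasDerivAt (fun s => u x y s i) (u3 x y z i) z) →
  (∀ i j, ∫ x, ∫ y, ∫ z, u x y z i * (starRingEnd ℂ) (u x y z j) = (1 : Mat N) i j) →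
  9 / 5 * Real.pi ^ ((4 : ℝ) / 3) * (∫ x, ∫ y, ∫ z, (∑ i, ‖u x y z i‖ ^ 2) ^ ((5 : ℝ) / 3))
    ≤ ∫ x, ∫ y, ∫ z, ∑ i, (‖u1 x y z i‖ ^ 2 + ‖u2 x y z i‖ ^ 2 + ‖u3 x y z i‖ ^ 2)

/-- MAIN3: the theorem for MP_3242df_mp. -/
def Stmt_MAIN3 : Prop := ∀ (N : ℕ) (φ : Fin N → EuclideanSpace ℝ (Fin 3) → ℂ),
  (∀ i, ContDiff ℝ 1 (φ i) ∧ HasCompactSupport (φ i)) →
  (∀ i j, ∫ x, (starRingEnd ℂ) (φ i x) * φ j x = if i = j then (1 : ℂ) else 0) →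
  (9 / 5 : ℝ) * Real.pi ^ ((4 : ℝ) / 3) * ∫ x, (∑ i, ‖φ i x‖ ^ 2) ^ ((5 : ℝ) / 3)
    ≤ ∑ i, ∫ x, ∑ j : Fin 3, ‖fderiv ℝ (φ i) x (EuclideanSpace.single j (1 : ℝ))‖ ^ 2

/-- ASM1: `d = 1` on `ℝ`. -/
def Stmt_ASM1 : Prop := ∀ (N : ℕ) (R : ℝ) (u u' : ℝ → Fin N → ℂ), 0 < R →
  (∀ x i, HasDerivAt (fun y => u y i) (u' x i) x) → Continuous u' →
  (∀ x, R ≤ |x| → u x = 0) →
  (∀ i j, ∫ x, u x i * (starRingEnd ℂ) (u x j) = (1 : Mat N) i j) →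
  Real.pi ^ 2 / 4 * ∫ x, (∑ i, ‖u x i‖ ^ 2) ^ 3 ≤ ∫ x, ∑ i, ‖u' x i‖ ^ 2

/-- D1: the case `d = 1` (not used). -/
def Stmt_D1 : Prop :=
  sInf {K : ℝ | ∃ N : ℕ, ∃ u : Fin N → EuclideanSpace ℝ (Fin 1) → ℂ,
      0 < N ∧
      (∀ n, ContDiff ℝ 1 (u n) ∧ HasCompactSupport (u n)) ∧
      (∀ n m, ∫ x, star (u n x) * u m x = if n = m then (1 : ℂ) else 0) ∧
      K = (∑ n, ∫ x, ∑ i : Fin 1, ‖fderiv ℝ (u n) x (EuclideanSpace.single i (1 : ℝ))‖ ^ 2)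
          / ∫ x, (∑ n, ‖u n x‖ ^ 2) ^ (1 + 2 / ((1 : ℕ) : ℝ))} = Real.pi ^ 2 / 4

end Pool.LT
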