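import Pool.Agent.Work.MP_3242df_h20.AKer

set_option autoImplicit false

namespace Pool.LT

theorem stmt_AKER (_ : Stmt_LEMH) : Stmt_AKER := fun _ _ h0 h1 hz =>
  (Pool.LT20.KP.aker h0 h1 hz).toPSD

end Pool.LT
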