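import Pool.Agent.Work.MP_3242df_lt.Interface

set_option autoImplicit false

open MeasureTheory Matrix Finset
open scoped BigOperators ComplexOrder

namespace Pool.LT

namespace CALC

/-- entrywise derivative -/
private def HD {N : ℕ} (F : ℝ → Mat N) (F' : Mat N) (x : ℝ) : Prop :=
  ∀ i j, HasDerivAt (fun y => F y i j) (F' i j) x

private lemma HD.add {N : ℕ} {F G : ℝ → Mat N} {F' G' : Mat N} {x : ℝ} (hF : HD F F' x)
    (hG : HD G G' x) : HD (fun y => F y + G y) (F' + G') x := by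
  intro i j
  simpa [Matrix.add_apply] using (hF i j).fun_add (hG i j)

private lemma HD.mul {N : ℕ} {F G : ℝ → Mat N} {F' G' : Mat N} {x : ℝ} (hF : HD F F' x)
    (hG : HD G G' x) : HD (fun y => F y * G y) (F' * G x + F x * G') x := by
  intro i j
  have h : HasDerivAt (fun y => ∑ k, F y i k * G y k j)
      (∑ k, (F' i k * G x k j + F x i k * G' k j)) x :=
    HasDerivAt.fun_sum fun k _ => (hF i k).mul (hG k j)
  simpa [Matrix.mul_apply, Matrix.add_apply, Finset.sum_add_distrib] using h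

private lemma HD.smul {N : ℕ} {F : ℝ → Mat N} {F' : Mat N} {x : ℝ} (a : ℂ) (hF : HD F F' x) :
    HD (fun y => a • F y) (a • F') x := by
  intro i j
  simpa [Matrix.smul_apply] using (hF i j).const_mul a

private lemma HD.sum {N : ℕ} {F : ℕ → ℝ → Mat N} {F' : ℕ → Mat N} {x : ℝ} (s : Finset ℕ)
    (hF : ∀ m ∈ s, HD (F m) (F' m) x) : HD (fun y => ∑ m ∈ s, F m y) (∑ m ∈ s, F' m) x := by
  intro i j
  have h : HasDerivAt (fun y => ∑ m ∈ s, F m y i j) (∑ m ∈ s, F' m i j) x :=
    HasDerivAt.fun_sum fun m hm => hF m hm i j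
  simpa [Matrix.sum_apply] using h

private lemma HD.rtr {N : ℕ} {F : ℝ → Mat N} {F' : Mat N} {x : ℝ} (hF : HD F F' x) :
    HasDerivAt (fun y => rtr (F y)) (rtr F') x := by
  have h : HasDerivAt (fun y => ∑ i, F y i i) (∑ i, F' i i) x :=
    HasDerivAt.fun_sum fun i _ => hF i i
  have h2 := (Complex.reCLM.hasFDerivAt (x := ∑ i, F x i i)).comp_hasDerivAt x h
  have e : (⇑Complex.reCLM ∘ fun y => ∑ i, F y i i) = fun y => Pool.LT.rtr (F y) := by
    funext y
    simp [Pool.LT.rtr, Matrix.trace, Matrix.diag]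
  rw [e] at h2
  simpa [Pool.LT.rtr, Matrix.trace, Matrix.diag] using h2

/-- the derivative of `GG` along `M' = 2 sigma` -/
private noncomputable def GD {N : ℕ} (M σ σ' : Mat N) : ℕ → Mat N
  | 0 => σ'
  | (m + 1) => JJ M (GD M σ σ' m) + (2 : ℂ) • (σ * GG M σ m + GG M σ m * σ)

private lemma HD_GG {N : ℕ} {M σ : ℝ → Mat N} {σ' : Mat N} {x : ℝ}
    (hM : HD M ((2 : ℂ) • σ x) x) (hσ : HD σ σ' x) (m : ℕ) :
    HD (fun y => GG (M y) (σ y) m) (GD (M x) (σ x) σ' m) x := by
  induction m with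
  | zero => exact hσ
  | succ m ih =>
    have h := (hM.mul ih).add (ih.mul hM)
    have e : (2 : ℂ) • σ x * GG (M x) (σ x) m + M x * GD (M x) (σ x) σ' m +
        (GD (M x) (σ x) σ' m * M x + GG (M x) (σ x) m * (2 : ℂ) • σ x)
        = GD (M x) (σ x) σ' (m + 1) := by
      simp only [GD, JJ, Matrix.smul_mul, Matrix.mul_smul, smul_add]
      abel
    rw [e] at h
    exact h

private lemma rtr_add {N : ℕ} (A B : Mat N) : rtr (A + B) = rtr A + rtr B := by
  simp [rtr, Matrix.trace_add]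

private lemma rtr_comm {N : ℕ} (A B : Mat N) : rtr (A * B) = rtr (B * A) := by
  simp [rtr, Matrix.trace_mul_comm A B]

private lemma rtr_two {N : ℕ} (A : Mat N) : rtr ((2 : ℂ) • A) = 2 * rtr A := by
  simp [rtr, Matrix.trace_smul]

private lemma rtr_real {N : ℕ} (r : ℝ) (A : Mat N) : rtr ((r : ℂ) • A) = r * rtr A := by
  simp [rtr, Matrix.trace_smul]

private lemma rtr_sum {N : ℕ} (s : Finset ℕ) (A : ℕ → Mat N) :
    rtr (∑ m ∈ s, A m) = ∑ m ∈ s, rtr (A m) := by
  simp [rtr, Matrix.trace_sum]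

private lemma rtr_JJ {N : ℕ} (M X Y : Mat N) : rtr (X * JJ M Y) = rtr (JJ M X * Y) := by
  unfold JJ
  rw [Matrix.mul_add, Matrix.add_mul, rtr_add, rtr_add, ← Matrix.mul_assoc, ← Matrix.mul_assoc,
    rtr_comm (X * Y) M, ← Matrix.mul_assoc, add_comm]

private lemma dual {N : ℕ} (M σ σ' Y : Mat N) (m : ℕ) : ∀ k : ℕ,
    rtr (GG M Y k * GD M σ σ' m) = rtr (GG M Y (k + m) * σ')
      + 2 * ∑ l ∈ Finset.range m, rtr (GG M Y (k + m - 1 - l) * (σ * GG M σ l + GG M σ l * σ)) := by
  induction m with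
  | zero => intro k; simp [GD]
  | succ m ih =>
    intro k
    rw [GD, Matrix.mul_add, rtr_add, rtr_JJ, Matrix.mul_smul, rtr_two]
    have h : JJ M (GG M Y k) = GG M Y (k + 1) := rfl
    rw [h, ih (k + 1), Finset.sum_range_succ]
    have e1 : k + 1 + m = k + (m + 1) := by ring
    have e2 : k + (m + 1) - 1 - m = k := by omega
    rw [e1, e2]
    ring

private lemma cont_GG {N : ℕ} {M σ : ℝ → Mat N} (hM : Continuous M) (hσ : Continuous σ) (m : ℕ) :
    Continuous (fun x => GG (M x) (σ x) m) := by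
  induction m with
  | zero => exact hσ
  | succ m ih =>
    simp only [GG, JJ]
    exact (hM.matrix_mul ih).add (ih.matrix_mul hM)

private lemma cont_XX {N : ℕ} {M σ : ℝ → Mat N} (d : ℕ) (c : ℕ → ℝ) (hM : Continuous M)
    (hσ : Continuous σ) : Continuous (fun x => XX d c (M x) (σ x)) := by
  unfold XX
  exact continuous_finsetSum _ fun m _ => (cont_GG hM hσ m).fun_const_smul _

private lemma cont_rtr {N : ℕ} {F : ℝ → Mat N} (hF : Continuous F) :
    Continuous (fun x => rtr (F x)) := by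
  unfold rtr
  exact Complex.continuous_re.comp hF.matrix_trace

private lemma cont_DD {N : ℕ} {M σ : ℝ → Mat N} (d : ℕ) (c : ℕ → ℝ) (hM : Continuous M)
    (hσ : Continuous σ) : Continuous (fun x => DD d c (M x) (σ x)) := by
  unfold DD
  refine continuous_finsetSum _ fun m _ => continuous_const.mul ?_
  refine continuous_finsetSum _ fun l _ => cont_rtr ?_
  exact (cont_GG hM hσ _).matrix_mul
    ((hσ.matrix_mul (cont_GG hM hσ l)).add ((cont_GG hM hσ l).matrix_mul hσ))

private lemma main_deriv {N : ℕ} {M σ : ℝ → Mat N} {σ' : Mat N} {x : ℝ} (d : ℕ) (c : ℕ → ℝ)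
    (hM : HD M ((2 : ℂ) • σ x) x) (hσ : HD σ σ' x) :
    HasDerivAt (fun y => 1 / 2 * rtr (σ y * XX d c (M y) (σ y)))
      (rtr (σ' * XX d c (M x) (σ x)) + DD d c (M x) (σ x)) x := by
  have h1 : HD (fun y => XX d c (M y) (σ y))
      (∑ m ∈ Finset.range d, ((c m : ℝ) : ℂ) • GD (M x) (σ x) σ' m) x := by
    unfold XX
    exact HD.sum _ fun m _ => (HD_GG hM hσ m).smul _
  have h2 := ((hσ.mul h1).rtr).const_mul (1 / 2 : ℝ)
  refine h2.congr_deriv ?_
  rw [rtr_add]
  have e : rtr (σ x * ∑ m ∈ Finset.range d, ((c m : ℝ) : ℂ) • GD (M x) (σ x) σ' m)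
      = rtr (σ' * XX d c (M x) (σ x)) + 2 * DD d c (M x) (σ x) := by
    unfold XX DD
    rw [Matrix.mul_sum, Matrix.mul_sum, rtr_sum, rtr_sum, Finset.mul_sum,
      ← Finset.sum_add_distrib]
    refine Finset.sum_congr rfl fun m _ => ?_
    rw [Matrix.mul_smul, Matrix.mul_smul, rtr_real, rtr_real]
    have := dual (M x) (σ x) σ' (σ x) m 0
    rw [show GG (M x) (σ x) 0 = σ x from rfl, zero_add] at this
    rw [this, rtr_comm σ']
    ring
  rw [e]
  ring

end CALC

open CALC in
theorem stmt_CALC : Stmt_CALC := by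
  intro N R σ σ' t h d c M hM
  have hσc : Continuous σ := by
    refine continuous_pi fun i => continuous_pi fun j => ?_
    exact continuous_iff_continuousAt.2 fun x => (h.deriv x i j).continuousAt
  have hMc : Continuous M := by
    refine continuous_pi fun i => continuous_pi fun j => ?_
    exact continuous_iff_continuousAt.2 fun x => (hM x i j).continuousAt
  have hσ'c : Continuous σ' := continuous_pi fun i => continuous_pi fun j => h.cont' i j
  have hd : ∀ x ∈ Set.uIcc (-R) R,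
      HasDerivAt (fun y => 1 / 2 * rtr (σ y * XX d c (M y) (σ y)))
        (rtr (σ' x * XX d c (M x) (σ x)) + DD d c (M x) (σ x)) x := by
    intro x _
    refine main_deriv d c ?_ (fun i j => h.deriv x i j)
    intro i j
    simpa [Matrix.smul_apply] using hM x i j
  have hc : Continuous (fun x => rtr (σ' x * XX d c (M x) (σ x)) + DD d c (M x) (σ x)) :=
    (cont_rtr (hσ'c.matrix_mul (cont_XX d c hMc hσc))).add (cont_DD d c hMc hσc)
  rw [intervalIntegral.integral_eq_sub_of_hasDerivAt hd (hc.intervalIntegrable _ _)]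
  have h1 : σ R = 0 := h.supp R (le_abs_self R)
  have h2 : σ (-R) = 0 := h.supp (-R) (by rw [abs_neg]; exact le_abs_self R)
  simp [h1, h2, rtr]

end Pool.LT
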