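import Pool.Agent.Work.MP_3242df_lt.Interface

set_option autoImplicit false

open MeasureTheory Matrix Finset
open scoped BigOperators ComplexOrder

namespace Pool.LT

namespace EIG

/-- `g s = 2 w tan (w s)` -/
private noncomputable def g (w s : ℝ) : ℝ := 2 * w * Real.tan (w * s)

/-- divided difference of `g` -/
private noncomputable def Dg (w a b : ℝ) : ℝ :=
  if a = b then 2 * w ^ 2 / Real.cos (w * a) ^ 2 else (g w a - g w b) / (a - b)

private lemma cos_pos' {w : ℝ} (hw : 0 < w) (hw' : w < Real.pi / 4) {s : ℝ} (hs : |s| ≤ 2) :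
    0 < Real.cos (w * s) := by
  have h := abs_le.1 hs
  apply Real.cos_pos_of_mem_Ioo
  constructor <;> nlinarith

private lemma trig {w : ℝ} (hw : 0 < w) (hw' : w < Real.pi / 4) {x y z : ℝ} (hx : |x| ≤ 1)
    (hy : |y| ≤ 1) (hz : |z| ≤ 1) :
    2 * Dg w (x + z) (y + z) - g w (x + z) * g w (y + z)
      = 4 * w ^ 2 * (1 + (Real.sinc (w * x - w * y) - Real.cos (w * x - w * y)) /
          (Real.cos (w * x + w * z) * Real.cos (w * y + w * z))) := by
  have hxz : |x + z| ≤ 2 := (abs_add_le _ _).trans (by linarith)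
  have hyz : |y + z| ≤ 2 := (abs_add_le _ _).trans (by linarith)
  have h1 : 0 < Real.cos (w * x + w * z) := by
    rw [← mul_add]; exact cos_pos' hw hw' hxz
  have h2 : 0 < Real.cos (w * y + w * z) := by
    rw [← mul_add]; exact cos_pos' hw hw' hyz
  have e3 : w * x - w * y = (w * x + w * z) - (w * y + w * z) := by ring
  have hc : Real.cos (w * x - w * y) = Real.cos (w * x + w * z) * Real.cos (w * y + w * z)
      + Real.sin (w * x + w * z) * Real.sin (w * y + w * z) := by
    rw [e3, Real.cos_sub]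
  have hs : Real.sin (w * x - w * y) = Real.sin (w * x + w * z) * Real.cos (w * y + w * z)
      - Real.cos (w * x + w * z) * Real.sin (w * y + w * z) := by
    rw [e3, Real.sin_sub]
  unfold Dg g
  rw [mul_add w x z, mul_add w y z, Real.tan_eq_sin_div_cos, Real.tan_eq_sin_div_cos]
  by_cases hxy : x = y
  · subst hxy
    simp only [if_true, sub_self, Real.sinc_zero]
    rw [sub_self, Real.cos_zero] at hc
    rw [Real.cos_zero]
    generalize Real.cos (w * x + w * z) = A at *
    generalize Real.sin (w * x + w * z) = C at *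
    have hsq : C ^ 2 = 1 - A ^ 2 := by linarith
    field_simp
    rw [hsq]
    ring
  · have hxy' : x + z ≠ y + z := by
      intro h; exact hxy (by linarith)
    have hsub : x - y ≠ 0 := sub_ne_zero.2 hxy
    have hsub2 : w * x - w * y ≠ 0 := by
      rw [← mul_sub]; exact mul_ne_zero hw.ne' hsub
    rw [if_neg hxy', Real.sinc_of_ne_zero hsub2, hs, hc]
    have e4 : x + z - (y + z) = x - y := by ring
    rw [e4, ← mul_sub w x y]
    generalize Real.cos (w * x + w * z) = A at *
    generalize Real.sin (w * x + w * z) = C at *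
    generalize Real.cos (w * y + w * z) = B at *
    generalize Real.sin (w * y + w * z) = D at *
    field_simp
    ring

open scoped MatrixOrder in
/-- the entries of a PSD matrix are bounded by the trace -/
private lemma entry_le {N : ℕ} {σ : Mat N} (h : σ.PosSemidef) (i j : Fin N) :
    ‖σ i j‖ ≤ rtr σ := by
  obtain ⟨B, hB⟩ := CStarAlgebra.nonneg_iff_eq_star_mul_self.mp h.nonneg
  have hentry : ∀ i j, σ i j = ∑ k, (starRingEnd ℂ) (B k i) * B k j := by
    intro i j
    rw [hB, Matrix.star_eq_conjTranspose, Matrix.mul_apply]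
    rfl
  have hdiag : ∀ i, (σ i i).re = ∑ k, ‖B k i‖ ^ 2 := by
    intro i
    rw [hentry, Complex.re_sum]
    refine Finset.sum_congr rfl fun k _ => ?_
    rw [Complex.conj_mul', ← Complex.ofReal_pow, Complex.ofReal_re]
  have hle : ∀ i, (σ i i).re ≤ rtr σ := by
    intro i
    unfold rtr Matrix.trace
    rw [Complex.re_sum]
    simp only [Matrix.diag]
    refine Finset.single_le_sum (f := fun i => (σ i i).re) (fun j _ => ?_) (Finset.mem_univ i)
    simp only [hdiag]
    positivity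
  calc ‖σ i j‖ ≤ ∑ k, ‖(starRingEnd ℂ) (B k i) * B k j‖ := by
        rw [hentry]; exact norm_sum_le _ _
    _ ≤ ∑ k, (‖B k i‖ ^ 2 + ‖B k j‖ ^ 2) / 2 := by
        refine Finset.sum_le_sum fun k _ => ?_
        rw [norm_mul, Complex.norm_conj]
        nlinarith [sq_nonneg (‖B k i‖ - ‖B k j‖)]
    _ = ((σ i i).re + (σ j j).re) / 2 := by
        rw [hdiag, hdiag, ← Finset.sum_add_distrib, Finset.sum_div]
    _ ≤ rtr σ := by linarith [hle i, hle j]

/-- coefficient bound -/
private lemma coef {qa qb ga gb D Dq e G : ℝ} (he : 0 ≤ e) (he1 : e ≤ 1) (h1 : |qa - ga| ≤ e)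
    (h2 : |qb - gb| ≤ e) (h3 : |Dq - D| ≤ e) (h4 : |ga| ≤ G) (h5 : |gb| ≤ G) :
    |(2 * Dq - qa * qb) - (2 * D - ga * gb)| ≤ e * (3 + 2 * G) := by
  have hG : 0 ≤ G := (abs_nonneg _).trans h4
  have e1 : (2 * Dq - qa * qb) - (2 * D - ga * gb)
      = 2 * (Dq - D) - ((qa - ga) * (qb - gb) + ga * (qb - gb) + gb * (qa - ga)) := by ring
  rw [e1]
  have b1 : |(qa - ga) * (qb - gb)| ≤ e * 1 := by
    rw [abs_mul]; exact mul_le_mul h1 (h2.trans he1) (abs_nonneg _) he
  have b2 : |ga * (qb - gb)| ≤ G * e := by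
    rw [abs_mul]; exact mul_le_mul h4 h2 (abs_nonneg _) hG
  have b3 : |gb * (qa - ga)| ≤ G * e := by
    rw [abs_mul]; exact mul_le_mul h5 h1 (abs_nonneg _) hG
  rw [abs_le] at *
  constructor <;> nlinarith

private lemma rtr3 {N : ℕ} (σ : Mat N) :
    rtr (σ * σ * σ) = (∑ i, ∑ j, ∑ k, (σ i j * σ j k * σ k i)).re := by
  unfold rtr Matrix.trace
  congr 1
  refine Finset.sum_congr rfl fun i _ => ?_
  simp only [Matrix.diag, Matrix.mul_apply, Finset.sum_mul]
  rw [Finset.sum_comm]

/-- the diagonal case -/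
private lemma diag_case (hL1 : Stmt_L1) (hP : Stmt_POLY) (hD : Stmt_EIGD) (N : ℕ) (w : ℝ)
    (hw : 0 < w) (hw' : w < Real.pi / 4) (ε : ℝ) (hε : 0 < ε) :
    ∃ (d : ℕ) (c : ℕ → ℝ), ∀ (lam : Fin N → ℝ) (σ : Mat N), (∀ i, |lam i| ≤ 1) → σ.PosSemidef →
      4 * w ^ 2 * rtr (σ * σ * σ) - ε * (rtr σ) ^ 3
        ≤ DD d c (Matrix.diagonal fun i => ((lam i : ℝ) : ℂ)) σ
          - rtr (σ * (XX d c (Matrix.diagonal fun i => ((lam i : ℝ) : ℂ)) σ
              * XX d c (Matrix.diagonal fun i => ((lam i : ℝ) : ℂ)) σ)) := by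
  set G : ℝ := 2 * w * Real.tan (w * 2) with hGdef
  have hgb : ∀ s : ℝ, |s| ≤ 2 → |g w s| ≤ G := by
    intro s hs
    have hs' := abs_le.1 hs
    have hmono : ∀ a b : ℝ, |a| ≤ 2 → |b| ≤ 2 → a ≤ b → Real.tan (w * a) ≤ Real.tan (w * b) := by
      intro a b ha hb hab
      have ha' := abs_le.1 ha
      have hb' := abs_le.1 hb
      rcases eq_or_lt_of_le hab with h | h
      · rw [h]
      · refine (Real.tan_lt_tan_of_lt_of_lt_pi_div_two ?_ ?_ ?_).le <;> nlinarith
    have h1 := hmono s 2 hs (by norm_num) hs'.2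
    have h2 := hmono (-2) s (by norm_num) hs hs'.1
    have h3 : Real.tan (w * -2) = - Real.tan (w * 2) := by
      rw [mul_neg, Real.tan_neg]
    rw [h3] at h2
    unfold g
    rw [abs_le]
    constructor <;> nlinarith
  have hG : 0 ≤ G := (abs_nonneg _).trans (hgb 0 (by norm_num))
  set K : ℝ := ((N : ℝ) ^ 3 + 1) * (3 + 2 * G) with hK
  have hKpos : 0 < K := by positivity
  set e : ℝ := min 1 (ε / K) with hedef
  have hepos : 0 < e := lt_min one_pos (div_pos hε hKpos)
  have he1 : e ≤ 1 := min_le_left _ _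
  have heK : e * K ≤ ε := by
    have : e ≤ ε / K := min_le_right _ _
    rwa [le_div_iff₀ hKpos] at this
  obtain ⟨d, c, hq1, hq2, hq3⟩ := hP w hw hw' e hepos
  refine ⟨d, c, fun lam σ hlam hσ => ?_⟩
  rw [hD N d c lam σ hσ.1]
  set q : ℝ → ℝ := fun s => ∑ m ∈ Finset.range d, c m * s ^ m with hq
  set Q : ℝ → ℝ → ℝ := fun a b => ∑ m ∈ Finset.range d, c m * ∑ l ∈ Finset.range m,
    a ^ (m - 1 - l) * b ^ l with hQ
  have hQD : ∀ a b : ℝ, |a| ≤ 2 → |b| ≤ 2 → |Q a b - Dg w a b| ≤ e := by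
    intro a b ha hb
    unfold Dg
    by_cases hab : a = b
    · rw [if_pos hab, ← hab]
      exact hq3 a ha
    · rw [if_neg hab]
      exact hq2 a b ha hb hab
  have hs2 : ∀ i k, |lam i + lam k| ≤ 2 := fun i k =>
    (abs_add_le _ _).trans (by linarith [hlam i, hlam k])
  set T := rtr σ with hT
  have hTnn : 0 ≤ T := by
    have := hσ.trace_nonneg
    rw [hT]; unfold rtr
    exact (Complex.nonneg_iff.1 this).1
  -- the kernel
  set κ : Fin N → Fin N → Fin N → ℝ := fun i j k =>
    (Real.sinc (w * lam i - w * lam j) - Real.cos (w * lam i - w * lam j)) /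
      (Real.cos (w * lam i + w * lam k) * Real.cos (w * lam j + w * lam k)) with hκ
  have hcoef : ∀ i j k, |(2 * Q (lam i + lam k) (lam j + lam k)
      - q (lam i + lam k) * q (lam j + lam k)) - 4 * w ^ 2 * (1 + κ i j k)| ≤ e * (3 + 2 * G) := by
    intro i j k
    rw [hκ]
    simp only
    rw [← trig hw hw' (hlam i) (hlam j) (hlam k)]
    exact coef hepos.le he1 (hq1 _ (hs2 i k)) (hq1 _ (hs2 j k)) (hQD _ _ (hs2 i k) (hs2 j k))
      (hgb _ (hs2 i k)) (hgb _ (hs2 j k))
  have hterm : ∀ i j k, ‖σ i j * σ j k * σ k i‖ ≤ T ^ 3 := by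
    intro i j k
    rw [norm_mul, norm_mul]
    have := entry_le hσ i j
    have h2 := entry_le hσ j k
    have h3 := entry_le hσ k i
    calc ‖σ i j‖ * ‖σ j k‖ * ‖σ k i‖ ≤ T * T * T := by gcongr
      _ = T ^ 3 := by ring
  have hL := hL1 N (fun i => w * lam i) (fun i => by
    have := abs_le.1 (hlam i)
    constructor <;> nlinarith) σ hσ
  -- compare termwise
  have hre : ∀ (r : ℝ) (z : ℂ), ((r : ℂ) * z).re = r * z.re := fun r z => by simp
  have hkey : ∀ i j k, 4 * w ^ 2 * ((σ i j * σ j k * σ k i).re)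
      + 4 * w ^ 2 * (κ i j k * (σ i j * σ j k * σ k i).re) - e * (3 + 2 * G) * T ^ 3
      ≤ (2 * Q (lam i + lam k) (lam j + lam k)
          - q (lam i + lam k) * q (lam j + lam k)) * (σ i j * σ j k * σ k i).re := by
    intro i j k
    have h1 := hcoef i j k
    have h2 : |(σ i j * σ j k * σ k i).re| ≤ T ^ 3 := (Complex.abs_re_le_norm _).trans (hterm i j k)
    set A := (2 * Q (lam i + lam k) (lam j + lam k)
          - q (lam i + lam k) * q (lam j + lam k))
    set z := (σ i j * σ j k * σ k i).re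
    have h3 : |(A - 4 * w ^ 2 * (1 + κ i j k)) * z| ≤ e * (3 + 2 * G) * T ^ 3 := by
      rw [abs_mul]
      exact mul_le_mul h1 h2 (abs_nonneg _) (by positivity)
    have h4 := (abs_le.1 h3).1
    nlinarith
  rw [rtr3]
  simp only [Complex.re_sum, hre] at hL ⊢
  have hsum : ∑ i, ∑ j, ∑ k, (4 * w ^ 2 * ((σ i j * σ j k * σ k i).re)
      + 4 * w ^ 2 * (κ i j k * (σ i j * σ j k * σ k i).re) - e * (3 + 2 * G) * T ^ 3)
      ≤ ∑ i, ∑ j, ∑ k, (2 * Q (lam i + lam k) (lam j + lam k)
          - q (lam i + lam k) * q (lam j + lam k)) * (σ i j * σ j k * σ k i).re :=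
    Finset.sum_le_sum fun i _ => Finset.sum_le_sum fun j _ => Finset.sum_le_sum fun k _ =>
      hkey i j k
  refine le_trans ?_ hsum
  simp only [Finset.sum_sub_distrib, Finset.sum_add_distrib, ← Finset.mul_sum]
  simp only [Finset.sum_const, Finset.card_univ, Fintype.card_fin, nsmul_eq_mul]
  have hL' : 0 ≤ ∑ i, ∑ j, ∑ k, κ i j k * (σ i j * σ j k * σ k i).re := hL
  have hT3 : 0 ≤ T ^ 3 := by positivity
  have : (N : ℝ) * ((N : ℝ) * ((N : ℝ) * (e * (3 + 2 * G) * T ^ 3))) ≤ ε * T ^ 3 := by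
    have h1 : (N : ℝ) * ((N : ℝ) * ((N : ℝ) * (e * (3 + 2 * G) * T ^ 3)))
        = (e * ((N : ℝ) ^ 3 * (3 + 2 * G))) * T ^ 3 := by ring
    rw [h1]
    refine mul_le_mul_of_nonneg_right ?_ hT3
    refine le_trans ?_ heK
    rw [hK]
    refine mul_le_mul_of_nonneg_left ?_ hepos.le
    nlinarith
  have h4w : 0 ≤ 4 * w ^ 2 := by positivity
  nlinarith [mul_nonneg h4w hL']

end EIG

open EIG in
theorem stmt_EIG (hL1 : Stmt_L1) (hP : Stmt_POLY) (hD : Stmt_EIGD) (hU : Stmt_EIGU) :
    Stmt_EIG := by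
  intro N w hw hw' ε hε
  obtain ⟨d, c, h⟩ := diag_case hL1 hP hD N w hw hw' ε hε
  refine ⟨d, c, fun M σ hM h1 h2 hσ => ?_⟩
  set U : Mat N := (hM.eigenvectorUnitary : Mat N) with hUdef
  have hUm : U ∈ Matrix.unitaryGroup (Fin N) ℂ := hM.eigenvectorUnitary.2
  have hUs : U * star U = 1 := (Matrix.mem_unitaryGroup_iff).1 hUm
  have hUs' : star U * U = 1 := (Matrix.mem_unitaryGroup_iff').1 hUm
  have hdiag : star U * M * U = Matrix.diagonal fun i => ((hM.eigenvalues i : ℝ) : ℂ) := by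
    have := hM.conjStarAlgAut_star_eigenvectorUnitary
    rw [Unitary.conjStarAlgAut_star_apply] at this
    exact this
  have hlam : ∀ i, |hM.eigenvalues i| ≤ 1 := by
    intro i
    have p1 : (star U * (1 - M) * U).PosSemidef := by
      have := h1.conjTranspose_mul_mul_same U
      exact this
    have p2 : (star U * (1 + M) * U).PosSemidef := by
      have := h2.conjTranspose_mul_mul_same U
      exact this
    rw [Matrix.mul_sub, Matrix.sub_mul, Matrix.mul_one, hUs', hdiag] at p1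
    rw [Matrix.mul_add, Matrix.add_mul, Matrix.mul_one, hUs', hdiag] at p2
    have q1 := p1.diag_nonneg (i := i)
    have q2 := p2.diag_nonneg (i := i)
    simp only [Matrix.sub_apply, Matrix.add_apply, Matrix.one_apply_eq, Matrix.diagonal_apply_eq]
      at q1 q2
    have r1 := (Complex.nonneg_iff.1 q1).1
    have r2 := (Complex.nonneg_iff.1 q2).1
    simp at r1 r2
    rw [abs_le]
    constructor <;> linarith
  have hσ' : (star U * σ * U).PosSemidef := by
    have := hσ.conjTranspose_mul_mul_same U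
    exact this
  have hmain := h hM.eigenvalues (star U * σ * U) hlam hσ'
  rw [← hdiag] at hmain
  obtain ⟨u1, u2⟩ := hU N d c M σ U hUm
  rw [u1, u2] at hmain
  have t1 : rtr (star U * σ * U) = rtr σ := by
    unfold rtr
    rw [Matrix.trace_mul_comm, ← Matrix.mul_assoc, hUs, Matrix.one_mul]
  have t3 : rtr ((star U * σ * U) * (star U * σ * U) * (star U * σ * U)) = rtr (σ * σ * σ) := by
    have e : (star U * σ * U) * (star U * σ * U) * (star U * σ * U)
        = star U * (σ * (U * star U) * σ * (U * star U) * σ) * U := by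
      simp only [Matrix.mul_assoc]
    rw [e, hUs, Matrix.mul_one, Matrix.mul_one]
    unfold rtr
    rw [Matrix.trace_mul_comm, ← Matrix.mul_assoc, hUs, Matrix.one_mul]
  rw [t1, t3] at hmain
  exact hmain

end Pool.LT
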