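import Pool.Agent.Work.MP_3242df_lt.Interface

set_option autoImplicit false

open MeasureTheory Matrix Finset
open scoped BigOperators ComplexOrder

namespace Pool.LT.EIGD

variable {N : ℕ}

lemma GG_diag (lam : Fin N → ℝ) (σ : Mat N) (m : ℕ) (i j : Fin N) :
    GG (Matrix.diagonal fun i => ((lam i : ℝ) : ℂ)) σ m i j
      = (((lam i + lam j) ^ m : ℝ) : ℂ) * σ i j := by
  induction m with
  | zero => simp [GG]
  | succ m ih =>
    simp only [GG, JJ, Matrix.add_apply, Matrix.diagonal_mul, Matrix.mul_diagonal, ih]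
    push_cast
    ring

lemma XX_diag (d : ℕ) (c : ℕ → ℝ) (lam : Fin N → ℝ) (σ : Mat N) (i j : Fin N) :
    XX d c (Matrix.diagonal fun i => ((lam i : ℝ) : ℂ)) σ i j
      = ((∑ m ∈ Finset.range d, c m * (lam i + lam j) ^ m : ℝ) : ℂ) * σ i j := by
  simp only [XX, Matrix.sum_apply, Matrix.smul_apply, GG_diag, smul_eq_mul]
  push_cast
  rw [Finset.sum_mul]
  refine Finset.sum_congr rfl fun m _ => ?_
  ring

lemma trace3 (A B C : Mat N) :
    Matrix.trace (A * (B * C)) = ∑ i, ∑ j, ∑ k, A k i * (B i j * C j k) := by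
  have h : Matrix.trace (A * (B * C)) = ∑ k, ∑ i, ∑ j, A k i * (B i j * C j k) := by
    simp only [Matrix.trace, Matrix.diag, Matrix.mul_apply, Finset.mul_sum]
  rw [h, Finset.sum_comm]
  refine Finset.sum_congr rfl fun i _ => ?_
  rw [Finset.sum_comm]

lemma trace3' (A B C : Mat N) :
    Matrix.trace (A * (B * C)) = ∑ i, ∑ j, ∑ k, A j k * (B k i * C i j) := by
  have h : Matrix.trace (A * (B * C)) = ∑ j, ∑ k, ∑ i, A j k * (B k i * C i j) := by
    simp only [Matrix.trace, Matrix.diag, Matrix.mul_apply, Finset.mul_sum]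
  rw [h]
  calc ∑ j, ∑ k, ∑ i, A j k * (B k i * C i j) = ∑ j, ∑ i, ∑ k, A j k * (B k i * C i j) :=
        Finset.sum_congr rfl fun j _ => Finset.sum_comm
    _ = _ := Finset.sum_comm

lemma trace3'' (A B C : Mat N) :
    Matrix.trace (A * (B * C)) = ∑ i, ∑ j, ∑ k, A i j * (B j k * C k i) := by
  simp only [Matrix.trace, Matrix.diag, Matrix.mul_apply, Finset.mul_sum]

/-- the inner sum for fixed `m` -/
lemma inner (lam : Fin N → ℝ) (σ : Mat N) (m : ℕ) :
    ∑ l ∈ Finset.range m, Matrix.trace
      (GG (Matrix.diagonal fun i => ((lam i : ℝ) : ℂ)) σ (m - 1 - l)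
        * (σ * GG (Matrix.diagonal fun i => ((lam i : ℝ) : ℂ)) σ l
          + GG (Matrix.diagonal fun i => ((lam i : ℝ) : ℂ)) σ l * σ))
      = ∑ i, ∑ j, ∑ k, ((2 * ∑ l ∈ Finset.range m,
          (lam i + lam k) ^ (m - 1 - l) * (lam j + lam k) ^ l : ℝ) : ℂ)
            * (σ i j * σ j k * σ k i) := by
  have e1 : ∑ l ∈ Finset.range m, Matrix.trace
      (GG (Matrix.diagonal fun i => ((lam i : ℝ) : ℂ)) σ (m - 1 - l)
        * (σ * GG (Matrix.diagonal fun i => ((lam i : ℝ) : ℂ)) σ l))
      = ∑ i, ∑ j, ∑ k, ((∑ l ∈ Finset.range m,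
          (lam i + lam k) ^ (m - 1 - l) * (lam j + lam k) ^ l : ℝ) : ℂ)
            * (σ i j * σ j k * σ k i) := by
    calc _ = ∑ l ∈ Finset.range m, ∑ i, ∑ j, ∑ k,
          (((lam i + lam k) ^ (m - 1 - l) * (lam j + lam k) ^ l : ℝ) : ℂ)
            * (σ i j * σ j k * σ k i) := by
          refine Finset.sum_congr rfl fun l _ => ?_
          rw [trace3]
          refine Finset.sum_congr rfl fun i _ => Finset.sum_congr rfl fun j _ =>
            Finset.sum_congr rfl fun k _ => ?_
          rw [GG_diag, GG_diag]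
          push_cast
          ring
      _ = _ := by
          rw [Finset.sum_comm]
          refine Finset.sum_congr rfl fun i _ => ?_
          rw [Finset.sum_comm]
          refine Finset.sum_congr rfl fun j _ => ?_
          rw [Finset.sum_comm]
          refine Finset.sum_congr rfl fun k _ => ?_
          rw [← Finset.sum_mul]
          push_cast
          rfl
  have e2 : ∑ l ∈ Finset.range m, Matrix.trace
      (GG (Matrix.diagonal fun i => ((lam i : ℝ) : ℂ)) σ (m - 1 - l)
        * (GG (Matrix.diagonal fun i => ((lam i : ℝ) : ℂ)) σ l * σ))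
      = ∑ i, ∑ j, ∑ k, ((∑ l ∈ Finset.range m,
          (lam i + lam k) ^ (m - 1 - l) * (lam j + lam k) ^ l : ℝ) : ℂ)
            * (σ i j * σ j k * σ k i) := by
    calc _ = ∑ l ∈ Finset.range m, ∑ i, ∑ j, ∑ k,
          (((lam i + lam k) ^ l * (lam j + lam k) ^ (m - 1 - l) : ℝ) : ℂ)
            * (σ i j * σ j k * σ k i) := by
          refine Finset.sum_congr rfl fun l _ => ?_
          rw [trace3']
          refine Finset.sum_congr rfl fun i _ => Finset.sum_congr rfl fun j _ =>
            Finset.sum_congr rfl fun k _ => ?_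
          rw [GG_diag, GG_diag]
          push_cast
          ring
      _ = ∑ l ∈ Finset.range m, ∑ i, ∑ j, ∑ k,
          (((lam i + lam k) ^ (m - 1 - l) * (lam j + lam k) ^ l : ℝ) : ℂ)
            * (σ i j * σ j k * σ k i) := by
          rw [← Finset.sum_range_reflect]
          refine Finset.sum_congr rfl fun l hl => ?_
          have hl' : l < m := Finset.mem_range.1 hl
          have h1 : m - 1 - (m - 1 - l) = l := by omega
          rw [h1]
      _ = _ := by
          rw [Finset.sum_comm]
          refine Finset.sum_congr rfl fun i _ => ?_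
          rw [Finset.sum_comm]
          refine Finset.sum_congr rfl fun j _ => ?_
          rw [Finset.sum_comm]
          refine Finset.sum_congr rfl fun k _ => ?_
          rw [← Finset.sum_mul]
          push_cast
          rfl
  simp only [Matrix.mul_add, Matrix.trace_add, Finset.sum_add_distrib]
  rw [e1, e2]
  simp only [← Finset.sum_add_distrib]
  refine Finset.sum_congr rfl fun i _ => Finset.sum_congr rfl fun j _ =>
    Finset.sum_congr rfl fun k _ => ?_
  push_cast
  ring

lemma DD_eq (d : ℕ) (c : ℕ → ℝ) (M σ : Mat N) :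
    DD d c M σ = (∑ m ∈ Finset.range d, ((c m : ℝ) : ℂ) * ∑ l ∈ Finset.range m,
      Matrix.trace (GG M σ (m - 1 - l) * (σ * GG M σ l + GG M σ l * σ))).re := by
  simp only [DD, rtr, Complex.re_sum, Complex.re_ofReal_mul]

theorem stmt_EIGD : Stmt_EIGD := by
  intro N d c lam σ _
  rw [DD_eq]
  simp only [rtr]
  rw [← Complex.sub_re]
  congr 1
  have hX : Matrix.trace (σ * (XX d c (Matrix.diagonal fun i => ((lam i : ℝ) : ℂ)) σ
          * XX d c (Matrix.diagonal fun i => ((lam i : ℝ) : ℂ)) σ))
      = ∑ i, ∑ j, ∑ k,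
        (((∑ m ∈ Finset.range d, c m * (lam i + lam k) ^ m)
            * (∑ m ∈ Finset.range d, c m * (lam j + lam k) ^ m) : ℝ) : ℂ)
          * (σ i j * σ j k * σ k i) := by
    rw [trace3'']
    refine Finset.sum_congr rfl fun i _ => Finset.sum_congr rfl fun j _ =>
      Finset.sum_congr rfl fun k _ => ?_
    rw [XX_diag, XX_diag, add_comm (lam k) (lam i)]
    push_cast
    ring
  have hD : ∑ m ∈ Finset.range d, ((c m : ℝ) : ℂ) * ∑ l ∈ Finset.range m,
      Matrix.trace (GG (Matrix.diagonal fun i => ((lam i : ℝ) : ℂ)) σ (m - 1 - l)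
        * (σ * GG (Matrix.diagonal fun i => ((lam i : ℝ) : ℂ)) σ l
          + GG (Matrix.diagonal fun i => ((lam i : ℝ) : ℂ)) σ l * σ))
      = ∑ i, ∑ j, ∑ k,
        ((2 * (∑ m ∈ Finset.range d, c m * ∑ l ∈ Finset.range m,
              (lam i + lam k) ^ (m - 1 - l) * (lam j + lam k) ^ l) : ℝ) : ℂ)
          * (σ i j * σ j k * σ k i) := by
    calc _ = ∑ m ∈ Finset.range d, ∑ i, ∑ j, ∑ k, ((c m * (2 * ∑ l ∈ Finset.range m,
          (lam i + lam k) ^ (m - 1 - l) * (lam j + lam k) ^ l) : ℝ) : ℂ)
            * (σ i j * σ j k * σ k i) := by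
          refine Finset.sum_congr rfl fun m _ => ?_
          rw [inner]
          simp only [Finset.mul_sum]
          refine Finset.sum_congr rfl fun i _ => Finset.sum_congr rfl fun j _ =>
            Finset.sum_congr rfl fun k _ => ?_
          rw [← mul_assoc]
          congr 1
          push_cast
          simp only [Finset.mul_sum]
      _ = _ := by
          rw [Finset.sum_comm]
          refine Finset.sum_congr rfl fun i _ => ?_
          rw [Finset.sum_comm]
          refine Finset.sum_congr rfl fun j _ => ?_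
          rw [Finset.sum_comm]
          refine Finset.sum_congr rfl fun k _ => ?_
          rw [← Finset.sum_mul]
          congr 1
          rw [← Complex.ofReal_sum]
          congr 1
          rw [Finset.mul_sum]
          refine Finset.sum_congr rfl fun m _ => ?_
          ring
  rw [hD, hX]
  simp only [← Finset.sum_sub_distrib]
  refine Finset.sum_congr rfl fun i _ => Finset.sum_congr rfl fun j _ =>
    Finset.sum_congr rfl fun k _ => ?_
  push_cast
  ring

end Pool.LT.EIGD
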