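import Pool.Agent.Work.MP_3242df_lt.Interface

set_option autoImplicit false

open MeasureTheory Matrix Finset
open scoped BigOperators ComplexOrder

namespace Pool.LT

namespace EIGU

/-- conjugation by a unitary -/
private def cj {N : ℕ} (U X : Mat N) : Mat N := star U * X * U

private lemma cj_mul {N : ℕ} {U : Mat N} (hU : U * star U = 1) (X Y : Mat N) :
    cj U X * cj U Y = cj U (X * Y) := by
  unfold cj
  calc star U * X * U * (star U * Y * U) = star U * X * (U * star U) * (Y * U) := by
        simp only [Matrix.mul_assoc]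
    _ = star U * (X * Y) * U := by rw [hU]; simp only [Matrix.mul_one, Matrix.mul_assoc]

private lemma cj_add {N : ℕ} (U X Y : Mat N) : cj U X + cj U Y = cj U (X + Y) := by
  unfold cj
  rw [Matrix.mul_add, Matrix.add_mul]

private lemma rtr_cj {N : ℕ} {U : Mat N} (hU : U * star U = 1) (X : Mat N) :
    rtr (cj U X) = rtr X := by
  unfold rtr cj
  rw [Matrix.trace_mul_comm, ← Matrix.mul_assoc, hU, Matrix.one_mul]

private lemma GG_cj {N : ℕ} {U : Mat N} (hU : U * star U = 1) (M σ : Mat N) (m : ℕ) :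
    GG (cj U M) (cj U σ) m = cj U (GG M σ m) := by
  induction m with
  | zero => rfl
  | succ m ih =>
    simp only [GG, JJ]
    rw [ih, cj_mul hU, cj_mul hU, cj_add]

private lemma XX_cj {N : ℕ} {U : Mat N} (hU : U * star U = 1) (d : ℕ) (c : ℕ → ℝ) (M σ : Mat N) :
    XX d c (cj U M) (cj U σ) = cj U (XX d c M σ) := by
  unfold XX
  simp only [GG_cj hU]
  unfold cj
  rw [Matrix.mul_sum, Matrix.sum_mul]
  refine Finset.sum_congr rfl fun m _ => ?_
  rw [Matrix.mul_smul, Matrix.smul_mul]

end EIGU

open EIGU in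
theorem stmt_EIGU : Stmt_EIGU := by
  intro N d c M σ U hUu
  have hU : U * star U = 1 := (Matrix.mem_unitaryGroup_iff).1 hUu
  constructor
  · change DD d c (cj U M) (cj U σ) = DD d c M σ
    unfold DD
    refine Finset.sum_congr rfl fun m _ => ?_
    congr 1
    refine Finset.sum_congr rfl fun l _ => ?_
    rw [GG_cj hU, GG_cj hU, cj_mul hU, cj_mul hU, cj_add, cj_mul hU, rtr_cj hU]
  · change rtr (cj U σ * (XX d c (cj U M) (cj U σ) * XX d c (cj U M) (cj U σ))) = _
    rw [XX_cj hU, cj_mul hU, cj_mul hU, rtr_cj hU]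

end Pool.LT
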