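import Pool.Agent.Work.MP_3242df_h20.L1

set_option autoImplicit false

namespace Pool.LT

theorem stmt_L1 (_ : Stmt_AKER) : Stmt_L1 := fun _ th hth sig hs => Pool.LT20.L1 th hth sig hs

end Pool.LT
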