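import Pool.Agent.Work.MP_3242df_h20.LemmaH

set_option autoImplicit false

namespace Pool.LT

theorem stmt_LEMH (_ : Stmt_SINC) : Stmt_LEMH := fun _ _ h0 h1 h2 =>
  (Pool.LT20.KP.lemmaH ⟨h0, h1⟩ h2).toPSD

end Pool.LT
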