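import Pool.Agent.Work.MP_3242df_lt.Interface

set_option autoImplicit false

open MeasureTheory Matrix Finset
open scoped BigOperators ComplexOrder

namespace Pool.LT

namespace MAIN3

abbrev E3 := EuclideanSpace ℝ (Fin 3)

/-- the point `(x, y, z)` -/
noncomputable def pt (x y z : ℝ) : E3 := WithLp.toLp 2 ![x, y, z]

/-- the measurable equivalence with `ℝ × ℝ × ℝ` -/
noncomputable def eqv : ℝ × ℝ × ℝ ≃ᵐ E3 :=
  ((MeasurableEquiv.refl ℝ).prodCongr (MeasurableEquiv.finTwoArrow (α := ℝ)).symm).trans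
    ((MeasurableEquiv.piFinSuccAbove (fun _ : Fin 3 => ℝ) 0).symm.trans
      (MeasurableEquiv.toLp 2 (Fin 3 → ℝ)))

lemma eqv_apply (p : ℝ × ℝ × ℝ) : eqv p = pt p.1 p.2.1 p.2.2 := by
  ext i
  fin_cases i <;> simp [eqv, pt, MeasurableEquiv.piFinSuccAbove, MeasurableEquiv.finTwoArrow] <;> rfl

lemma eqv_mp : MeasurePreserving eqv volume volume := by
  have h1 : MeasurePreserving
      ((MeasurableEquiv.refl ℝ).prodCongr (MeasurableEquiv.finTwoArrow (α := ℝ)).symm)
      (volume : Measure (ℝ × ℝ × ℝ)) (volume : Measure (ℝ × (Fin 2 → ℝ))) :=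
    (MeasurePreserving.id (volume : Measure ℝ)).prod
      ((volume_preserving_finTwoArrow ℝ).symm _)
  have h2 : MeasurePreserving (MeasurableEquiv.piFinSuccAbove (fun _ : Fin 3 => ℝ) 0).symm
      volume volume := (volume_preserving_piFinSuccAbove (fun _ : Fin 3 => ℝ) 0).symm _
  have h3 : MeasurePreserving (MeasurableEquiv.toLp 2 (Fin 3 → ℝ)) volume volume :=
    PiLp.volume_preserving_toLp (Fin 3)
  exact h3.comp (h2.comp h1)

lemma integral_pt {F : Type*} [NormedAddCommGroup F] [NormedSpace ℝ F] [CompleteSpace F]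
    (f : E3 → F) (hf : Integrable f) :
    ∫ x, ∫ y, ∫ z, f (pt x y z) = ∫ p, f p := by
  have hi : Integrable (fun p : ℝ × ℝ × ℝ => f (pt p.1 p.2.1 p.2.2)) := by
    have := (eqv_mp.integrable_comp_emb eqv.measurableEmbedding (g := f)).2 hf
    refine this.congr (Filter.Eventually.of_forall fun p => ?_)
    simp [Function.comp, eqv_apply]
  have h1 : ∫ p, f p = ∫ p : ℝ × ℝ × ℝ, f (pt p.1 p.2.1 p.2.2) := by
    rw [← eqv_mp.integral_comp eqv.measurableEmbedding f]
    exact integral_congr_ae (Filter.Eventually.of_forall fun p => by simp [eqv_apply])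
  rw [h1]
  have h2 : ∫ p : ℝ × ℝ × ℝ, f (pt p.1 p.2.1 p.2.2)
      = ∫ x, ∫ q : ℝ × ℝ, f (pt x q.1 q.2) :=
    integral_prod (fun p : ℝ × ℝ × ℝ => f (pt p.1 p.2.1 p.2.2)) hi
  rw [h2]
  have h3 : ∀ᵐ x : ℝ, Integrable (fun q : ℝ × ℝ => f (pt x q.1 q.2)) := hi.prod_right_ae
  refine integral_congr_ae ?_
  filter_upwards [h3] with x hx
  exact (integral_prod (fun q : ℝ × ℝ => f (pt x q.1 q.2)) hx).symm

lemma continuous_pt : Continuous (fun p : ℝ × ℝ × ℝ => pt p.1 p.2.1 p.2.2) := by
  unfold pt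
  refine (PiLp.continuous_toLp 2 (fun _ : Fin 3 => ℝ)).comp ?_
  refine continuous_pi fun i => ?_
  fin_cases i
  · exact continuous_fst
  · exact continuous_fst.comp continuous_snd
  · exact continuous_snd.comp continuous_snd

lemma abs_le_norm (x y z : ℝ) : |x| ≤ ‖pt x y z‖ ∧ |y| ≤ ‖pt x y z‖ ∧ |z| ≤ ‖pt x y z‖ := by
  have h := fun i => PiLp.norm_apply_le (pt x y z) i
  exact ⟨h 0, h 1, h 2⟩

lemma pt_eq1 (x y z : ℝ) : pt x y z = pt 0 y z + x • EuclideanSpace.single (0 : Fin 3) (1 : ℝ) := by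
  ext i; fin_cases i <;> simp [pt]

lemma pt_eq2 (x y z : ℝ) : pt x y z = pt x 0 z + y • EuclideanSpace.single (1 : Fin 3) (1 : ℝ) := by
  ext i; fin_cases i <;> simp [pt]

lemma pt_eq3 (x y z : ℝ) : pt x y z = pt x y 0 + z • EuclideanSpace.single (2 : Fin 3) (1 : ℝ) := by
  ext i; fin_cases i <;> simp [pt]

lemma hasDerivAt_line (v w : E3) (x : ℝ) : HasDerivAt (fun s : ℝ => v + s • w) w x := by
  have := ((hasDerivAt_id x).smul_const w).const_add v
  simpa using this

lemma hasDerivAt_pt1 (x y z : ℝ) :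
    HasDerivAt (fun s => pt s y z) (EuclideanSpace.single (0 : Fin 3) (1 : ℝ)) x := by
  rw [show (fun s => pt s y z) = fun s => pt 0 y z + s • EuclideanSpace.single (0 : Fin 3) (1 : ℝ)
    from funext fun s => pt_eq1 s y z]
  exact hasDerivAt_line _ _ _

lemma hasDerivAt_pt2 (x y z : ℝ) :
    HasDerivAt (fun s => pt x s z) (EuclideanSpace.single (1 : Fin 3) (1 : ℝ)) y := by
  rw [show (fun s => pt x s z) = fun s => pt x 0 z + s • EuclideanSpace.single (1 : Fin 3) (1 : ℝ)
    from funext fun s => pt_eq2 x s z]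
  exact hasDerivAt_line _ _ _

lemma hasDerivAt_pt3 (x y z : ℝ) :
    HasDerivAt (fun s => pt x y s) (EuclideanSpace.single (2 : Fin 3) (1 : ℝ)) z := by
  rw [show (fun s => pt x y s) = fun s => pt x y 0 + s • EuclideanSpace.single (2 : Fin 3) (1 : ℝ)
    from funext fun s => pt_eq3 x y s]
  exact hasDerivAt_line _ _ _

end MAIN3

open MAIN3 in
theorem stmt_MAIN3 (hASM3 : Stmt_ASM3) : Stmt_MAIN3 := by
  intro N φ hφ hon
  -- a common radius
  have hR : ∃ R : ℝ, 0 < R ∧ ∀ i p, R ≤ ‖p‖ → φ i p = 0 := by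
    have h : ∀ i, ∃ R : ℝ, 0 < R ∧ ∀ p, R ≤ ‖p‖ → φ i p = 0 := by
      intro i
      obtain ⟨R, hR⟩ := (hφ i).2.isCompact.isBounded.subset_ball (0 : E3)
      refine ⟨max R 1, by positivity, fun p hp => ?_⟩
      by_contra hne
      have hmem : p ∈ tsupport (φ i) := subset_tsupport _ hne
      have := hR hmem
      rw [mem_ball_zero_iff] at this
      exact absurd (lt_of_lt_of_le this (le_max_left R 1)) (not_lt.2 hp)
    choose R hR0 hR using h
    refine ⟨1 + ∑ i, R i, by have := Finset.sum_nonneg fun i (_ : i ∈ Finset.univ) => (hR0 i).le; positivity, fun i p hp => hR i p (le_trans ?_ hp)⟩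
    have := Finset.single_le_sum (f := R) (fun i _ => (hR0 i).le) (Finset.mem_univ i)
    linarith
  obtain ⟨R, hR0, hR⟩ := hR
  have hcont : ∀ i, Continuous (φ i) := fun i => (hφ i).1.continuous
  have hcd : ∀ i (v : E3), Continuous fun p => fderiv ℝ (φ i) p v := fun i v =>
    ((hφ i).1.continuous_fderiv (by norm_num)).clm_apply continuous_const
  have hdiff : ∀ i p, HasFDerivAt (φ i) (fderiv ℝ (φ i) p) p := fun i p =>
    ((hφ i).1.differentiable (by norm_num) p).hasFDerivAt
  have hint : ∀ {F : Type} [NormedAddCommGroup F] (f : E3 → F), Continuous f →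
      HasCompactSupport f → Integrable f := fun f h1 h2 => h1.integrable_of_hasCompactSupport h2
  have hsupp_of : ∀ {F : Type} [NormedAddCommGroup F] (f : E3 → F),
      (∀ p, R < ‖p‖ → f p = 0) → HasCompactSupport f := by
    intro F _ f h
    refine HasCompactSupport.intro (isCompact_closedBall (0 : E3) R) fun p hp => h p ?_
    rw [mem_closedBall_zero_iff, not_le] at hp
    exact hp
  have hfd0 : ∀ i p, R < ‖p‖ → fderiv ℝ (φ i) p = 0 := by
    intro i p hp
    have : φ i =ᶠ[nhds p] fun _ => 0 := by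
      have ho : IsOpen {q : E3 | R < ‖q‖} := isOpen_lt continuous_const continuous_norm
      filter_upwards [ho.mem_nhds hp] with q hq
      exact hR i q (le_of_lt hq)
    rw [this.fderiv_eq]
    simp
  have h := hASM3 N R (fun x y z i => φ i (pt x y z))
    (fun x y z i => fderiv ℝ (φ i) (pt x y z) (EuclideanSpace.single 0 1))
    (fun x y z i => fderiv ℝ (φ i) (pt x y z) (EuclideanSpace.single 1 1))
    (fun x y z i => fderiv ℝ (φ i) (pt x y z) (EuclideanSpace.single 2 1)) hR0
    (continuous_pi fun i => (hcont i).comp continuous_pt)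
    (continuous_pi fun i => (hcd i _).comp continuous_pt)
    (continuous_pi fun i => (hcd i _).comp continuous_pt)
    (continuous_pi fun i => (hcd i _).comp continuous_pt)
    (by
      intro x y z hxyz
      funext i
      refine hR i _ ?_
      rcases hxyz with h | h | h
      · exact h.trans (abs_le_norm x y z).1
      · exact h.trans (abs_le_norm x y z).2.1
      · exact h.trans (abs_le_norm x y z).2.2)
    (fun x y z i => by
      have := (hdiff i (pt x y z)).comp_hasDerivAt x (hasDerivAt_pt1 x y z)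
      exact this)
    (fun x y z i => by
      have := (hdiff i (pt x y z)).comp_hasDerivAt y (hasDerivAt_pt2 x y z)
      exact this)
    (fun x y z i => by
      have := (hdiff i (pt x y z)).comp_hasDerivAt z (hasDerivAt_pt3 x y z)
      exact this)
    (by
      intro i j
      have hI : Integrable fun p => φ i p * (starRingEnd ℂ) (φ j p) := by
        refine hint _ ((hcont i).mul ((Complex.continuous_conj).comp (hcont j))) ?_
        exact hsupp_of _ fun p hp => by rw [hR i p hp.le]; simp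
      rw [integral_pt (fun p => φ i p * (starRingEnd ℂ) (φ j p)) hI]
      have := hon j i
      rw [Matrix.one_apply]
      rw [show (fun p => φ i p * (starRingEnd ℂ) (φ j p)) = fun p => (starRingEnd ℂ) (φ j p) * φ i p
        from funext fun p => mul_comm _ _, this]
      simp [eq_comm])
  have hI1 : Integrable fun p : E3 => (∑ i, ‖φ i p‖ ^ 2) ^ ((5 : ℝ) / 3) := by
    refine hint _ ?_ ?_
    · exact (continuous_finsetSum _ fun i _ => ((hcont i).norm.pow 2)).rpow_const
        fun p => Or.inr (by norm_num)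
    · refine hsupp_of _ fun p hp => ?_
      have : ∑ i, ‖φ i p‖ ^ 2 = 0 := Finset.sum_eq_zero fun i _ => by rw [hR i p hp.le]; simp
      rw [this, Real.zero_rpow (by norm_num)]
  have hI2 : ∀ i, Integrable fun p : E3 =>
      ∑ j : Fin 3, ‖fderiv ℝ (φ i) p (EuclideanSpace.single j (1 : ℝ))‖ ^ 2 := by
    intro i
    refine hint _ (continuous_finsetSum _ fun j _ => ((hcd i _).norm.pow 2)) ?_
    refine hsupp_of _ fun p hp => Finset.sum_eq_zero fun j _ => by rw [hfd0 i p hp]; simp
  rw [integral_pt (fun p : E3 => (∑ i, ‖φ i p‖ ^ 2) ^ ((5 : ℝ) / 3)) hI1] at h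
  have hI3 : Integrable fun p : E3 => ∑ i, (‖fderiv ℝ (φ i) p (EuclideanSpace.single 0 (1 : ℝ))‖ ^ 2
      + ‖fderiv ℝ (φ i) p (EuclideanSpace.single 1 (1 : ℝ))‖ ^ 2
      + ‖fderiv ℝ (φ i) p (EuclideanSpace.single 2 (1 : ℝ))‖ ^ 2) := by
    have := integrable_finsetSum (Finset.univ : Finset (Fin N)) fun i _ => hI2 i
    simpa [Fin.sum_univ_three] using this
  rw [integral_pt (fun p : E3 => ∑ i, (‖fderiv ℝ (φ i) p (EuclideanSpace.single 0 (1 : ℝ))‖ ^ 2
      + ‖fderiv ℝ (φ i) p (EuclideanSpace.single 1 (1 : ℝ))‖ ^ 2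
      + ‖fderiv ℝ (φ i) p (EuclideanSpace.single 2 (1 : ℝ))‖ ^ 2)) hI3] at h
  refine h.trans (le_of_eq ?_)
  rw [← integral_finsetSum (Finset.univ : Finset (Fin N)) fun i _ => hI2 i]
  simp [Fin.sum_univ_three]

end Pool.LT
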