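import Pool.Agent.Work.MP_3242df_lt.Interface

set_option autoImplicit false

open MeasureTheory Matrix Finset
open scoped BigOperators ComplexOrder

namespace Pool.LT.POLY

/-- coefficients of the antiderivative -/
noncomputable def cf (q : Polynomial ℝ) (m : ℕ) : ℝ := if m = 0 then 0 else q.coeff (m - 1) / m

lemma hasDerivAt_P (q : Polynomial ℝ) (s : ℝ) :
    HasDerivAt (fun s : ℝ => ∑ m ∈ Finset.range (q.natDegree + 1 + 1), cf q m * s ^ m)
      (q.eval s) s := by
  have h1 : ∀ m ∈ Finset.range (q.natDegree + 1 + 1),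
      HasDerivAt (fun s : ℝ => cf q m * s ^ m) (cf q m * (m * s ^ (m - 1))) s := by
    intro m _
    exact (hasDerivAt_pow m s).const_mul _
  have h2 := HasDerivAt.fun_sum h1
  refine h2.congr_deriv ?_
  rw [Finset.sum_range_succ', Polynomial.eval_eq_sum_range]
  simp only [cf, Nat.cast_zero, zero_mul, mul_zero, add_zero]
  refine Finset.sum_congr rfl fun m _ => ?_
  have h3 : ((m + 1 : ℕ) : ℝ) ≠ 0 := by positivity
  rw [if_neg (by omega), Nat.add_sub_cancel]
  field_simp

lemma sum_diag (q : Polynomial ℝ) (a : ℝ) :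
    ∑ m ∈ Finset.range (q.natDegree + 1 + 1), cf q m *
      ∑ l ∈ Finset.range m, a ^ (m - 1 - l) * a ^ l = q.eval a := by
  have h : ∀ m : ℕ, ∑ l ∈ Finset.range m, a ^ (m - 1 - l) * a ^ l = m * a ^ (m - 1) := by
    intro m
    rw [Finset.sum_congr rfl (g := fun _ => a ^ (m - 1))]
    · rw [Finset.sum_const, Finset.card_range, nsmul_eq_mul]
    · intro l hl
      have := Finset.mem_range.1 hl
      rw [← pow_add]
      congr 1
      omega
  simp only [h]
  rw [Finset.sum_range_succ', Polynomial.eval_eq_sum_range]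
  simp only [cf, Nat.cast_zero, zero_mul, mul_zero, add_zero]
  refine Finset.sum_congr rfl fun m _ => ?_
  have h3 : ((m + 1 : ℕ) : ℝ) ≠ 0 := by positivity
  rw [if_neg (by omega), Nat.add_sub_cancel]
  field_simp

lemma sum_dd (q : Polynomial ℝ) (a b : ℝ) :
    (∑ m ∈ Finset.range (q.natDegree + 1 + 1), cf q m *
      ∑ l ∈ Finset.range m, a ^ (m - 1 - l) * b ^ l) * (a - b)
      = (∑ m ∈ Finset.range (q.natDegree + 1 + 1), cf q m * a ^ m)
        - ∑ m ∈ Finset.range (q.natDegree + 1 + 1), cf q m * b ^ m := by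
  rw [Finset.sum_mul, ← Finset.sum_sub_distrib]
  refine Finset.sum_congr rfl fun m _ => ?_
  have h := geom_sum₂_mul b a m
  have h2 : ∑ l ∈ Finset.range m, a ^ (m - 1 - l) * b ^ l
      = ∑ i ∈ Finset.range m, b ^ i * a ^ (m - 1 - i) :=
    Finset.sum_congr rfl fun i _ => mul_comm _ _
  rw [h2]
  linear_combination (-(cf q m)) * h

theorem stmt_POLY : Stmt_POLY := by
  intro w hw0 hw ε hε
  have hcos : ∀ s : ℝ, |s| ≤ 2 → 0 < Real.cos (w * s) := by
    intro s hs
    have h1 : |w * s| < Real.pi / 2 := by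
      rw [abs_mul, abs_of_pos hw0]
      have h0 : 0 ≤ |s| := abs_nonneg s
      nlinarith
    rw [abs_lt] at h1
    exact Real.cos_pos_of_mem_Ioo ⟨by linarith [h1.1], h1.2⟩
  have hg : ∀ s : ℝ, |s| ≤ 2 → HasDerivAt (fun s : ℝ => 2 * w * Real.tan (w * s))
      (2 * w ^ 2 / Real.cos (w * s) ^ 2) s := by
    intro s hs
    have h1 : HasDerivAt (fun s : ℝ => w * s) w s := by
      simpa using (hasDerivAt_id s).const_mul w
    have h2 : HasDerivAt Real.tan (1 / Real.cos (w * s) ^ 2) (w * s) :=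
      Real.hasDerivAt_tan (hcos s hs).ne'
    have h3 := (h2.comp s h1).const_mul (2 * w)
    refine h3.congr_deriv ?_
    ring
  have hcont : ContinuousOn (fun s : ℝ => 2 * w ^ 2 / Real.cos (w * s) ^ 2) (Set.Icc (-2) 2) := by
    refine ContinuousOn.div continuousOn_const (by fun_prop) ?_
    intro s hs
    exact pow_ne_zero 2 (hcos s (abs_le.2 hs)).ne'
  obtain ⟨q, hq⟩ := exists_polynomial_near_of_continuousOn (-2) 2 _ hcont (ε / 2) (by positivity)
  refine ⟨q.natDegree + 1 + 1, cf q, ?_, ?_, ?_⟩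
  all_goals
    have hdiff : ∀ a b : ℝ, |a| ≤ 2 → |b| ≤ 2 →
        |((∑ m ∈ Finset.range (q.natDegree + 1 + 1), cf q m * a ^ m) - 2 * w * Real.tan (w * a))
          - ((∑ m ∈ Finset.range (q.natDegree + 1 + 1), cf q m * b ^ m)
            - 2 * w * Real.tan (w * b))| ≤ ε / 2 * |a - b| := by
      intro a b ha hb
      have h := Convex.norm_image_sub_le_of_norm_hasDerivWithin_le
        (f := fun s : ℝ => (∑ m ∈ Finset.range (q.natDegree + 1 + 1), cf q m * s ^ m)
          - 2 * w * Real.tan (w * s))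
        (f' := fun s : ℝ => q.eval s - 2 * w ^ 2 / Real.cos (w * s) ^ 2)
        (s := Set.Icc (-2 : ℝ) 2) (x := b) (y := a) (C := ε / 2)
        (fun x hx => ((hasDerivAt_P q x).sub (hg x (abs_le.2 hx))).hasDerivWithinAt)
        (fun x hx => by
          rw [Real.norm_eq_abs]
          exact (hq x hx).le)
        (convex_Icc _ _) (abs_le.1 hb) (abs_le.1 ha)
      simpa [Real.norm_eq_abs] using h
  · intro s hs
    have h := hdiff s 0 hs (by norm_num)
    have h0 : ∑ m ∈ Finset.range (q.natDegree + 1 + 1), cf q m * (0 : ℝ) ^ m = 0 := by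
      rw [Finset.sum_range_succ']
      simp [cf]
    rw [h0, mul_zero, Real.tan_zero, mul_zero, sub_zero, sub_zero, sub_zero] at h
    refine h.trans ?_
    nlinarith [abs_nonneg s]
  · intro a b ha hb hab
    have h := hdiff a b ha hb
    have hne : a - b ≠ 0 := sub_ne_zero.2 hab
    have hpos : 0 < |a - b| := abs_pos.2 hne
    have e : (∑ m ∈ Finset.range (q.natDegree + 1 + 1), cf q m *
        ∑ l ∈ Finset.range m, a ^ (m - 1 - l) * b ^ l)
        - (2 * w * Real.tan (w * a) - 2 * w * Real.tan (w * b)) / (a - b)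
        = (((∑ m ∈ Finset.range (q.natDegree + 1 + 1), cf q m * a ^ m)
            - 2 * w * Real.tan (w * a))
          - ((∑ m ∈ Finset.range (q.natDegree + 1 + 1), cf q m * b ^ m)
            - 2 * w * Real.tan (w * b))) / (a - b) := by
      have hs := sum_dd q a b
      rw [eq_div_iff hne, sub_mul, hs, div_mul_cancel₀ _ hne]
      ring
    rw [e, abs_div, div_le_iff₀ hpos]
    nlinarith
  · intro a ha
    rw [sum_diag]
    exact ((hq a (abs_le.1 ha)).le).trans (by linarith)

end Pool.LT.POLY
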