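import Pool.Agent.Work.MP_3242df_lt.Interface

/-!
STEP1 of the Lieb-Thirring project from EIG and CALC.
-/

set_option autoImplicit false

open MeasureTheory Matrix Finset
open scoped BigOperators ComplexOrder

namespace Pool.LT

namespace STEP1

variable {N : ℕ}

lemma rtr_cont {f : ℝ → Mat N} (hf : Continuous f) : Continuous fun x => rtr (f x) :=
  Complex.continuous_re.comp hf.matrix_trace

lemma JJ_cont {M X : ℝ → Mat N} (hM : Continuous M) (hX : Continuous X) :
    Continuous fun x => JJ (M x) (X x) := by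
  unfold JJ
  exact (hM.matrix_mul hX).add (hX.matrix_mul hM)

lemma GG_cont {M σ : ℝ → Mat N} (hM : Continuous M) (hσ : Continuous σ) (m : ℕ) :
    Continuous fun x => GG (M x) (σ x) m := by
  induction m with
  | zero => simpa [GG] using hσ
  | succ m ih => simpa [GG] using JJ_cont hM ih

lemma XX_cont {M σ : ℝ → Mat N} (hM : Continuous M) (hσ : Continuous σ) (d : ℕ) (c : ℕ → ℝ) :
    Continuous fun x => XX d c (M x) (σ x) := by
  unfold XX
  refine continuous_finsetSum _ fun m _ => ?_
  have h := GG_cont hM hσ m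
  refine continuous_matrix fun i j => ?_
  simp only [Matrix.smul_apply, smul_eq_mul]
  exact continuous_const.mul (h.matrix_elem i j)

lemma DD_cont {M σ : ℝ → Mat N} (hM : Continuous M) (hσ : Continuous σ) (d : ℕ) (c : ℕ → ℝ) :
    Continuous fun x => DD d c (M x) (σ x) := by
  unfold DD
  refine continuous_finsetSum _ fun m _ => continuous_const.mul
    (continuous_finsetSum _ fun l _ => rtr_cont ?_)
  exact (GG_cont hM hσ _).matrix_mul
    ((hσ.matrix_mul (GG_cont hM hσ l)).add ((GG_cont hM hσ l).matrix_mul hσ))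

lemma JJ_herm {M X : Mat N} (hM : M.IsHermitian) (hX : X.IsHermitian) : (JJ M X).IsHermitian := by
  unfold JJ Matrix.IsHermitian
  rw [conjTranspose_add, conjTranspose_mul, conjTranspose_mul, hM.eq, hX.eq, add_comm]

lemma GG_herm {M σ : Mat N} (hM : M.IsHermitian) (hσ : σ.IsHermitian) (m : ℕ) :
    (GG M σ m).IsHermitian := by
  induction m with
  | zero => simpa [GG] using hσ
  | succ m ih => simpa [GG] using JJ_herm hM ih

lemma XX_herm {M σ : Mat N} (hM : M.IsHermitian) (hσ : σ.IsHermitian) (d : ℕ) (c : ℕ → ℝ) :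
    (XX d c M σ).IsHermitian := by
  unfold XX Matrix.IsHermitian
  rw [conjTranspose_sum]
  refine Finset.sum_congr rfl fun m _ => ?_
  rw [conjTranspose_smul, (GG_herm hM hσ m).eq]
  congr 1
  simp

/-- entrywise interval integral of a continuous PSD valued function is PSD -/
lemma int_psd {σ : ℝ → Mat N} (hσ : Continuous σ) (hp : ∀ x, (σ x).PosSemidef) {a b : ℝ}
    (hab : a ≤ b) : (Matrix.of fun i j => ∫ x in a..b, σ x i j : Mat N).PosSemidef := by
  have hent : ∀ i j, Continuous fun x => σ x i j := fun i j => hσ.matrix_elem i j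
  have hint : ∀ i j, IntegrableOn (fun x => σ x i j) (Set.Ioc a b) volume := fun i j =>
    ((intervalIntegrable_iff_integrableOn_Ioc_of_le hab).mp ((hent i j).intervalIntegrable a b))
  refine Matrix.PosSemidef.of_dotProduct_mulVec_nonneg ?_ ?_
  · ext i j
    simp only [conjTranspose_apply, of_apply]
    rw [intervalIntegral.integral_of_le hab, intervalIntegral.integral_of_le hab]
    have h := integral_conj (f := fun x => σ x j i) (μ := volume.restrict (Set.Ioc a b))
    have e : (fun x => (starRingEnd ℂ) (σ x j i)) = fun x => σ x i j := by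
      funext x
      have := (hp x).1
      exact congrFun (congrFun this i) j
    rw [e] at h
    exact h.symm
  · intro v
    have e : star v ⬝ᵥ ((Matrix.of fun i j => ∫ x in a..b, σ x i j : Mat N) *ᵥ v)
        = ∫ x in Set.Ioc a b, star v ⬝ᵥ (σ x *ᵥ v) := by
      simp only [dotProduct, mulVec, of_apply]
      rw [integral_finsetSum]
      · refine Finset.sum_congr rfl fun i _ => ?_
        rw [integral_const_mul, integral_finsetSum]
        · congr 1
          refine Finset.sum_congr rfl fun j _ => ?_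
          rw [integral_mul_const, intervalIntegral.integral_of_le hab]
        · intro j _
          exact (hint i j).mul_const _
      · intro i _
        refine Integrable.const_mul ?_ _
        exact integrable_finsetSum _ fun j _ => (hint i j).mul_const _
    rw [e]
    have e2 : (fun x => star v ⬝ᵥ (σ x *ᵥ v)) = fun x => (((star v ⬝ᵥ (σ x *ᵥ v)).re : ℝ) : ℂ) := by
      funext x
      have h := (hp x).dotProduct_mulVec_nonneg v
      have h2 := (Complex.le_def.mp h).2
      apply Complex.ext
      · simp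
      · simpa using h2.symm
    rw [e2, integral_complex_ofReal]
    have : 0 ≤ ∫ x in Set.Ioc a b, (star v ⬝ᵥ (σ x *ᵥ v)).re := by
      apply integral_nonneg
      intro x
      exact (Complex.le_def.mp ((hp x).dotProduct_mulVec_nonneg v)).1
    exact_mod_cast this

end STEP1

theorem stmt_STEP1 (hE : Stmt_EIG) (hC : Stmt_CALC) : Stmt_STEP1 := by
  intro N R σ σ' t hcv hone
  have hR := hcv.hR
  have hσe : ∀ i j, Continuous fun x => σ x i j := fun i j =>
    continuous_iff_continuousAt.mpr fun x => (hcv.deriv x i j).continuousAt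
  have hσ : Continuous σ := continuous_matrix hσe
  have hσ' : Continuous σ' := continuous_matrix hcv.cont'
  obtain ⟨M, hMdef⟩ : ∃ M : ℝ → Mat N, M = fun x => Matrix.of fun i j =>
    2 * (∫ y in (-R)..x, σ y i j) - (1 : Mat N) i j := ⟨_, rfl⟩
  have hMd : ∀ x i j, HasDerivAt (fun y => M y i j) (2 * σ x i j) x := by
    intro x i j
    have h := intervalIntegral.integral_hasDerivAt_right
      ((hσe i j).intervalIntegrable (-R) x)
      ((hσe i j).stronglyMeasurableAtFilter volume (nhds x)) (hσe i j).continuousAt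
    have h2 := (h.const_mul (2 : ℂ)).sub_const ((1 : Mat N) i j)
    rw [hMdef]
    exact h2
  have hMc : Continuous M := continuous_matrix fun i j =>
    continuous_iff_continuousAt.mpr fun x => (hMd x i j).continuousAt
  have hsupp : ∀ x : ℝ, x ∉ Set.Ioc (-R) R → R ≤ |x| := by
    intro x hx
    rw [Set.mem_Ioc, not_and_or, not_lt, not_le] at hx
    rcases hx with hx | hx
    · rw [abs_of_nonpos (by linarith)]; linarith
    · rw [abs_of_nonneg (by linarith)]; linarith
  have htot : ∀ i j, ∫ x in (-R)..R, σ x i j = (1 : Mat N) i j := by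
    intro i j
    rw [← hone i j, intervalIntegral.integral_of_le (by linarith)]
    refine setIntegral_eq_integral_of_forall_compl_eq_zero fun x hx => ?_
    rw [hcv.supp x (hsupp x hx)]; rfl
  have hplus : ∀ x ∈ Set.Icc (-R) R, (1 + M x).PosSemidef := by
    intro x hx
    have h := STEP1.int_psd hσ hcv.psd hx.1
    have e : 1 + M x = (Matrix.of fun i j => ∫ y in (-R)..x, σ y i j : Mat N)
        + (Matrix.of fun i j => ∫ y in (-R)..x, σ y i j : Mat N) := by
      rw [hMdef]
      ext i j
      simp only [Matrix.add_apply, of_apply]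
      ring
    rw [e]
    exact h.add h
  have hminus : ∀ x ∈ Set.Icc (-R) R, (1 - M x).PosSemidef := by
    intro x hx
    have h := STEP1.int_psd hσ hcv.psd hx.2
    have e : 1 - M x = (Matrix.of fun i j => ∫ y in x..R, σ y i j : Mat N)
        + (Matrix.of fun i j => ∫ y in x..R, σ y i j : Mat N) := by
      rw [hMdef]
      ext i j
      have h1 := htot i j
      rw [← intervalIntegral.integral_add_adjacent_intervals
        ((hσe i j).intervalIntegrable (-R) x) ((hσe i j).intervalIntegrable x R)] at h1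
      simp only [Matrix.sub_apply, Matrix.add_apply, of_apply]
      rw [← h1]
      ring
    rw [e]
    exact h.add h
  have hherm : ∀ x ∈ Set.Icc (-R) R, (M x).IsHermitian := by
    intro x hx
    have h := (hplus x hx).1.sub (Matrix.isHermitian_one (n := Fin N) (α := ℂ))
    simpa using h
  have key : ∀ w : ℝ, 0 < w → w < Real.pi / 4 → ∀ ε : ℝ, 0 < ε →
      4 * w ^ 2 * (∫ x in (-R)..R, rtr (σ x * σ x * σ x)) - ε * (∫ x in (-R)..R, (rtr (σ x)) ^ 3)
        ≤ ∫ x in (-R)..R, t x := by
    intro w hw0 hw1 ε hε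
    obtain ⟨d, c, h⟩ := hE N w hw0 hw1 ε hε
    have hcalc := hC N R σ σ' t hcv d c M hMd
    have c1 : Continuous fun x => rtr (σ x * σ x * σ x) :=
      STEP1.rtr_cont ((hσ.matrix_mul hσ).matrix_mul hσ)
    have c2 : Continuous fun x => (rtr (σ x)) ^ 3 := (STEP1.rtr_cont hσ).pow 3
    have c3 : Continuous fun x => rtr (σ' x * XX d c (M x) (σ x)) + DD d c (M x) (σ x) :=
      (STEP1.rtr_cont (hσ'.matrix_mul (STEP1.XX_cont hMc hσ d c))).add (STEP1.DD_cont hMc hσ d c)
    have hpt : ∀ x ∈ Set.Icc (-R) R,
        4 * w ^ 2 * rtr (σ x * σ x * σ x) - ε * (rtr (σ x)) ^ 3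
          ≤ t x + (rtr (σ' x * XX d c (M x) (σ x)) + DD d c (M x) (σ x)) := by
      intro x hx
      have h1 := h (M x) (σ x) (hherm x hx) (hminus x hx) (hplus x hx) (hcv.psd x)
      have h2 := hcv.q x (XX d c (M x) (σ x)) (STEP1.XX_herm (hherm x hx) (hcv.psd x).1 d c)
      linarith
    have hmono := intervalIntegral.integral_mono_on (a := -R) (b := R) (μ := volume)
      (f := fun x => 4 * w ^ 2 * rtr (σ x * σ x * σ x) - ε * (rtr (σ x)) ^ 3)
      (g := fun x => t x + (rtr (σ' x * XX d c (M x) (σ x)) + DD d c (M x) (σ x)))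
      (by linarith)
      (((continuous_const.mul c1).sub (continuous_const.mul c2)).intervalIntegrable _ _)
      ((hcv.tcont.add c3).intervalIntegrable _ _) hpt
    have hL : ∫ x in (-R)..R, (4 * w ^ 2 * rtr (σ x * σ x * σ x) - ε * (rtr (σ x)) ^ 3)
        = 4 * w ^ 2 * (∫ x in (-R)..R, rtr (σ x * σ x * σ x))
          - ε * (∫ x in (-R)..R, (rtr (σ x)) ^ 3) := by
      rw [← intervalIntegral.integral_const_mul, ← intervalIntegral.integral_const_mul]
      exact intervalIntegral.integral_sub ((continuous_const.mul c1).intervalIntegrable _ _)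
        ((continuous_const.mul c2).intervalIntegrable _ _)
    have hRt : ∫ x in (-R)..R, (t x + (rtr (σ' x * XX d c (M x) (σ x)) + DD d c (M x) (σ x)))
        = ∫ x in (-R)..R, t x := by
      have h3 := intervalIntegral.integral_add (a := -R) (b := R) (μ := volume)
        (hcv.tcont.intervalIntegrable _ _) (c3.intervalIntegrable _ _)
      rw [hcalc, add_zero] at h3
      exact h3
    rw [hL, hRt] at hmono
    exact hmono
  have e1 : ∫ x, t x = ∫ x in (-R)..R, t x := by
    rw [intervalIntegral.integral_of_le (by linarith)]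
    refine (setIntegral_eq_integral_of_forall_compl_eq_zero fun x hx => ?_).symm
    exact hcv.tsupp x (hsupp x hx)
  have e2 : ∫ x, rtr (σ x * σ x * σ x) = ∫ x in (-R)..R, rtr (σ x * σ x * σ x) := by
    rw [intervalIntegral.integral_of_le (by linarith)]
    refine (setIntegral_eq_integral_of_forall_compl_eq_zero fun x hx => ?_).symm
    rw [hcv.supp x (hsupp x hx)]
    simp [rtr]
  rw [e1, e2]
  obtain ⟨A, hA⟩ : ∃ A : ℝ, A = ∫ x in (-R)..R, rtr (σ x * σ x * σ x) := ⟨_, rfl⟩
  obtain ⟨B, hB⟩ : ∃ B : ℝ, B = ∫ x in (-R)..R, (rtr (σ x)) ^ 3 := ⟨_, rfl⟩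
  obtain ⟨T, hT⟩ : ∃ T : ℝ, T = ∫ x in (-R)..R, t x := ⟨_, rfl⟩
  rw [← hA, ← hT]
  rw [← hA, ← hB, ← hT] at key
  have key2 : ∀ w : ℝ, 0 < w → w < Real.pi / 4 → 4 * w ^ 2 * A ≤ T := by
    intro w hw0 hw1
    have hl : Filter.Tendsto (fun ε : ℝ => 4 * w ^ 2 * A - ε * B) (nhdsWithin 0 (Set.Ioi 0))
        (nhds (4 * w ^ 2 * A - 0 * B)) := by
      apply Filter.Tendsto.mono_left _ nhdsWithin_le_nhds
      exact (continuous_const.sub (continuous_id.mul continuous_const)).tendsto 0
    have := le_of_tendsto hl (Filter.eventually_of_mem self_mem_nhdsWithin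
      fun ε (hε : ε ∈ Set.Ioi (0 : ℝ)) => key w hw0 hw1 ε hε)
    simpa using this
  have hl : Filter.Tendsto (fun w : ℝ => 4 * w ^ 2 * A) (nhdsWithin (Real.pi / 4)
      (Set.Iio (Real.pi / 4))) (nhds (4 * (Real.pi / 4) ^ 2 * A)) := by
    apply Filter.Tendsto.mono_left _ nhdsWithin_le_nhds
    exact ((continuous_const.mul (continuous_id.pow 2)).mul continuous_const).tendsto _
  have hfin := le_of_tendsto hl (Filter.eventually_of_mem
    (Ioo_mem_nhdsLT (a := 0) (b := Real.pi / 4) (by positivity))
    fun w hw => key2 w hw.1 hw.2)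
  calc Real.pi ^ 2 / 4 * A = 4 * (Real.pi / 4) ^ 2 * A := by ring
    _ ≤ T := hfin

end Pool.LT
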