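import Pool.Agent.Work.MP_3242df_lt.B_SINC
import Pool.Agent.Work.MP_3242df_lt.B_LEMH
import Pool.Agent.Work.MP_3242df_lt.B_AKER
import Pool.Agent.Work.MP_3242df_lt.B_L1
import Pool.Agent.Work.MP_3242df_lt.B_POLY
import Pool.Agent.Work.MP_3242df_lt.B_EIGD
import Pool.Agent.Work.MP_3242df_lt.B_EIGU
import Pool.Agent.Work.MP_3242df_lt.B_EIG
import Pool.Agent.Work.MP_3242df_lt.B_CALC
import Pool.Agent.Work.MP_3242df_lt.B_STEP1
import Pool.Agent.Work.MP_3242df_lt.B_STEP2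
import Pool.Agent.Work.MP_3242df_lt.OUT
import Pool.Agent.Work.MP_3242df_lt.STEP3
import Pool.Agent.Work.MP_3242df_lt.B_REG
import Pool.Agent.Work.MP_3242df_lt.B_ASM3
import Pool.Agent.Work.MP_3242df_lt.B_MAIN3

/-!
Assembly of the Lieb-Thirring project.
-/

set_option autoImplicit false

open MeasureTheory Matrix Finset
open scoped BigOperators ComplexOrder

namespace Pool.LT

theorem all_L1 : Stmt_L1 := stmt_L1 (stmt_AKER (stmt_LEMH stmt_SINC))

theorem all_EIG : Stmt_EIG := stmt_EIG all_L1 POLY.stmt_POLY EIGD.stmt_EIGD stmt_EIGU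

theorem all_STEP1 : Stmt_STEP1 := stmt_STEP1 all_EIG stmt_CALC

theorem all_STEP3 : Stmt_STEP3 := stmt_STEP3 stmt_STEP2 stmt_OUT

theorem all_ASM3 : Stmt_ASM3 := stmt_ASM3 all_STEP1 stmt_STEP2 all_STEP3 stmt_REG

theorem all_MAIN3 : Stmt_MAIN3 := stmt_MAIN3 all_ASM3

end Pool.LT
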