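import Pool.Agent.Work.MP_3242df_lt.Interface2

set_option autoImplicit false

open MeasureTheory Matrix Finset
open scoped BigOperators ComplexOrder

namespace Pool.LT

namespace ASM1

lemma sum_mul_conj {N : ℕ} (u : Fin N → ℂ) :
    (∑ k, (starRingEnd ℂ) (u k) * u k) = ((∑ k, ‖u k‖ ^ 2 : ℝ) : ℂ) := by
  push_cast
  refine Finset.sum_congr rfl fun k _ => ?_
  rw [mul_comm, Complex.mul_conj, Complex.normSq_eq_norm_sq]
  push_cast
  rfl

lemma outer_mul_outer {N : ℕ} (u : Fin N → ℂ) :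
    outer u * outer u = ((∑ k, ‖u k‖ ^ 2 : ℝ) : ℂ) • outer u := by
  ext i j
  rw [Matrix.mul_apply, Matrix.smul_apply, smul_eq_mul, ← sum_mul_conj, Finset.sum_mul]
  refine Finset.sum_congr rfl fun k _ => ?_
  simp only [outer, Matrix.of_apply]
  ring

lemma trace_outer {N : ℕ} (u : Fin N → ℂ) :
    Matrix.trace (outer u) = ((∑ k, ‖u k‖ ^ 2 : ℝ) : ℂ) := by
  rw [← sum_mul_conj, Matrix.trace]
  refine Finset.sum_congr rfl fun k _ => ?_
  simp only [outer, Matrix.of_apply, Matrix.diag_apply]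
  ring

lemma rtr_cube {N : ℕ} (u : Fin N → ℂ) :
    rtr (outer u * outer u * outer u) = (∑ k, ‖u k‖ ^ 2) ^ 3 := by
  rw [rtr, outer_mul_outer, Matrix.smul_mul, outer_mul_outer, smul_smul, Matrix.trace_smul,
    trace_outer, smul_eq_mul, ← Complex.ofReal_mul, ← Complex.ofReal_mul, Complex.ofReal_re]
  ring

end ASM1

theorem stmt_ASM1 (h1 : Stmt_STEP1) (h2 : Stmt_OUT) : Stmt_ASM1 := by
  intro N R u u' hR hd hc hs ho
  have hC := h2 N R u u' hR hd hc hs
  have h := h1 N R _ _ _ hC (fun i j => by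
    rw [← ho i j]
    rfl)
  have h3 : (fun x => rtr (outer (u x) * outer (u x) * outer (u x))) =
      fun x => (∑ i, ‖u x i‖ ^ 2) ^ 3 := by
    funext x
    exact ASM1.rtr_cube (u x)
  rw [h3] at h
  exact h

end Pool.LT
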