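import Pool.Agent.Work.MP_3242df_lt.Interface2

set_option autoImplicit false

open MeasureTheory Matrix Finset
open scoped BigOperators ComplexOrder

namespace Pool.LT

namespace GN1

/-- `r = sqrt (cosh 2x)` -/
noncomputable def rr (x : ℝ) : ℝ := Real.sqrt (Real.cosh (2 * x))

/-- `m = max (1 - e r) 0` -/
noncomputable def mm (e x : ℝ) : ℝ := max (1 - e * rr x) 0

/-- the test function -/
noncomputable def ff (e x : ℝ) : ℝ := mm e x ^ 2 / rr x

/-- its derivative -/
noncomputable def ff' (e x : ℝ) : ℝ :=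
  -(mm e x * (Real.sinh (2 * x) / rr x) * (mm e x + 2 * e * rr x)) / rr x ^ 2

lemma cosh_ge (x : ℝ) : 1 ≤ Real.cosh (2 * x) := Real.one_le_cosh _

lemma rr_sq (x : ℝ) : rr x ^ 2 = Real.cosh (2 * x) :=
  Real.sq_sqrt (le_trans zero_le_one (cosh_ge x))

lemma rr_ge (x : ℝ) : 1 ≤ rr x := Real.one_le_sqrt.2 (cosh_ge x)

lemma rr_pos (x : ℝ) : 0 < rr x := lt_of_lt_of_le zero_lt_one (rr_ge x)

lemma rr_le (x : ℝ) : rr x ≤ Real.cosh (2 * x) := by
  rw [← rr_sq]
  nlinarith [rr_ge x]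

lemma hasDerivAt_cosh2 (x : ℝ) :
    HasDerivAt (fun y => Real.cosh (2 * y)) (2 * Real.sinh (2 * x)) x := by
  have h := (Real.hasDerivAt_cosh (2 * x)).comp x ((hasDerivAt_id x).const_mul 2)
  simp only [mul_one] at h
  rw [mul_comm]
  exact h

lemma hasDerivAt_sinh2 (x : ℝ) :
    HasDerivAt (fun y => Real.sinh (2 * y)) (2 * Real.cosh (2 * x)) x := by
  have h := (Real.hasDerivAt_sinh (2 * x)).comp x ((hasDerivAt_id x).const_mul 2)
  simp only [mul_one] at h
  rw [mul_comm]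
  exact h

lemma hasDerivAt_rr (x : ℝ) : HasDerivAt rr (Real.sinh (2 * x) / rr x) x := by
  have h := (hasDerivAt_cosh2 x).sqrt (ne_of_gt (lt_of_lt_of_le zero_lt_one (cosh_ge x)))
  have h2 : 2 * Real.sinh (2 * x) / (2 * Real.sqrt (Real.cosh (2 * x))) =
      Real.sinh (2 * x) / rr x := by
    rw [mul_div_mul_left _ _ (two_ne_zero)]
    rfl
  rw [h2] at h
  exact h

/-- derivative of `max t 0 ^ 2` -/
lemma hasDerivAt_max_sq (t : ℝ) : HasDerivAt (fun s : ℝ => max s 0 ^ 2) (2 * max t 0) t := by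
  rcases lt_trichotomy t 0 with h | h | h
  · have h1 : (fun s : ℝ => max s 0 ^ 2) =ᶠ[nhds t] fun _ => (0 : ℝ) := by
      filter_upwards [Iio_mem_nhds h] with s hs
      rw [max_eq_right (le_of_lt hs)]
      norm_num
    rw [max_eq_right (le_of_lt h), mul_zero]
    exact (hasDerivAt_const t (0 : ℝ)).congr_of_eventuallyEq h1
  · subst h
    rw [max_self, mul_zero]
    rw [hasDerivAt_iff_isLittleO_nhds_zero]
    simp only [zero_add, max_self, smul_zero, sub_zero]
    have h1 : (fun h : ℝ => max h 0 ^ 2 - 0 ^ 2) =O[nhds 0] fun h : ℝ => h ^ 2 := by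
      refine Asymptotics.IsBigO.of_bound 1 (Filter.Eventually.of_forall fun h => ?_)
      rw [one_mul, Real.norm_eq_abs, Real.norm_eq_abs, zero_pow two_ne_zero, sub_zero, abs_pow,
        abs_pow]
      refine pow_le_pow_left₀ (abs_nonneg _) ?_ 2
      rcases le_total h 0 with h0 | h0
      · rw [max_eq_right h0, abs_zero]
        exact abs_nonneg _
      · rw [max_eq_left h0]
    refine h1.trans_isLittleO ?_
    exact Asymptotics.isLittleO_pow_id (by norm_num)
  · have h1 : (fun s : ℝ => max s 0 ^ 2) =ᶠ[nhds t] fun s => s ^ 2 := by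
      filter_upwards [Ioi_mem_nhds h] with s hs
      rw [max_eq_left (le_of_lt hs)]
    rw [max_eq_left (le_of_lt h)]
    have h2 := (hasDerivAt_pow 2 t).congr_of_eventuallyEq h1
    simp only [Nat.cast_ofNat, Nat.add_one_sub_one, pow_one] at h2
    exact h2

lemma hasDerivAt_ff (e x : ℝ) : HasDerivAt (ff e) (ff' e x) x := by
  have h1 : HasDerivAt (fun y => 1 - e * rr y) (-(e * (Real.sinh (2 * x) / rr x))) x := by
    have := ((hasDerivAt_rr x).const_mul e).const_sub 1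
    exact this
  have h2 := (hasDerivAt_max_sq (1 - e * rr x)).comp x h1
  have h3 := h2.div (hasDerivAt_rr x) (ne_of_gt (rr_pos x))
  have h4 : (2 * max (1 - e * rr x) 0 * -(e * (Real.sinh (2 * x) / rr x)) * rr x -
      ((fun s : ℝ => max s 0 ^ 2) ∘ fun y => 1 - e * rr y) x * (Real.sinh (2 * x) / rr x)) /
      rr x ^ 2 = ff' e x := by
    simp only [Function.comp, ff', mm]
    ring
  rw [h4] at h3
  exact h3

lemma continuous_rr : Continuous rr :=
  (Real.continuous_cosh.comp (continuous_const.mul continuous_id)).sqrt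

lemma continuous_mm (e : ℝ) : Continuous (mm e) :=
  (continuous_const.sub (continuous_const.mul continuous_rr)).max continuous_const

lemma continuous_ff' (e : ℝ) : Continuous (ff' e) := by
  unfold ff'
  refine Continuous.div ?_ (continuous_rr.pow 2) fun x => ne_of_gt (pow_pos (rr_pos x) 2)
  refine Continuous.neg ?_
  refine ((continuous_mm e).mul ?_).mul ?_
  · exact (Real.continuous_sinh.comp (continuous_const.mul continuous_id)).div continuous_rr
      fun x => ne_of_gt (rr_pos x)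
  · exact (continuous_mm e).add (continuous_const.mul continuous_rr)

lemma continuous_ff (e : ℝ) : Continuous (ff e) :=
  ((continuous_mm e).pow 2).div continuous_rr fun x => ne_of_gt (rr_pos x)

lemma mm_nonneg (e x : ℝ) : 0 ≤ mm e x := le_max_right _ _

lemma mm_le (e x : ℝ) (he : 0 ≤ e) : mm e x ≤ 1 := by
  refine max_le ?_ zero_le_one
  have := mul_nonneg he (le_of_lt (rr_pos x))
  linarith

lemma mm_mul (e x : ℝ) : mm e x * (mm e x + 2 * e * rr x) = mm e x * (1 + e * rr x) := by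
  rcases le_total (1 - e * rr x) 0 with h | h
  · have : mm e x = 0 := max_eq_right h
    rw [this]; ring
  · have : mm e x = 1 - e * rr x := max_eq_left h
    rw [this]; ring

lemma mm_mul_le (e x : ℝ) (he : 0 ≤ e) : mm e x * (1 + e * rr x) ≤ 1 := by
  rcases le_total (1 - e * rr x) 0 with h | h
  · have : mm e x = 0 := max_eq_right h
    rw [this]; norm_num
  · have : mm e x = 1 - e * rr x := max_eq_left h
    rw [this]; nlinarith [sq_nonneg (e * rr x)]

lemma mm_mul_nonneg (e x : ℝ) (he : 0 ≤ e) : 0 ≤ mm e x * (1 + e * rr x) :=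
  mul_nonneg (mm_nonneg e x) (by have := mul_nonneg he (le_of_lt (rr_pos x)); linarith)

/-- `f^2 <= 1/c` -/
lemma ff_sq_le (e x : ℝ) (he : 0 ≤ e) : ff e x ^ 2 ≤ 1 / Real.cosh (2 * x) := by
  rw [ff, div_pow, rr_sq, ← pow_mul]
  refine div_le_div_of_nonneg_right ?_ (le_trans zero_le_one (cosh_ge x))
  exact pow_le_one₀ (mm_nonneg e x) (mm_le e x he)

/-- `f'^2 <= 1/c - 1/c^3` -/
lemma ff'_sq_le (e x : ℝ) (he : 0 ≤ e) :
    ff' e x ^ 2 ≤ 1 / Real.cosh (2 * x) - 1 / Real.cosh (2 * x) ^ 3 := by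
  have hc : 0 < Real.cosh (2 * x) := lt_of_lt_of_le zero_lt_one (cosh_ge x)
  have h1 : ff' e x = -(mm e x * (1 + e * rr x)) * (Real.sinh (2 * x) / rr x ^ 3) := by
    rw [← mm_mul]
    have := ne_of_gt (rr_pos x)
    unfold ff'
    field_simp
  have h2 : (Real.sinh (2 * x) / rr x ^ 3) ^ 2 = 1 / Real.cosh (2 * x) - 1 / Real.cosh (2 * x) ^ 3 := by
    rw [div_pow, ← pow_mul, show 3 * 2 = 2 * 3 from rfl, pow_mul, rr_sq, Real.sinh_sq]
    field_simp
  rw [h1, mul_pow, h2, neg_sq]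
  have h3 : 0 ≤ 1 / Real.cosh (2 * x) - 1 / Real.cosh (2 * x) ^ 3 := by
    rw [← h2]; exact sq_nonneg _
  have h4 : (mm e x * (1 + e * rr x)) ^ 2 ≤ 1 :=
    pow_le_one₀ (mm_mul_nonneg e x he) (mm_mul_le e x he)
  calc (mm e x * (1 + e * rr x)) ^ 2 * (1 / Real.cosh (2 * x) - 1 / Real.cosh (2 * x) ^ 3)
      ≤ 1 * (1 / Real.cosh (2 * x) - 1 / Real.cosh (2 * x) ^ 3) :=
        mul_le_mul_of_nonneg_right h4 h3
    _ = _ := one_mul _

lemma mm_pow_ge (e x : ℝ) (he : 0 ≤ e) : 1 - 12 * (e * rr x) ≤ mm e x ^ 12 := by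
  rcases le_total (1 - e * rr x) 0 with h | h
  · have h1 : 0 ≤ mm e x ^ 12 := pow_nonneg (mm_nonneg e x) 12
    linarith
  · have h1 : mm e x = 1 + (-(e * rr x)) := by
      have : mm e x = 1 - e * rr x := max_eq_left h
      rw [this]; ring
    rw [h1]
    have h2 := one_add_mul_le_pow (a := -(e * rr x)) (by linarith) 12
    push_cast at h2
    linarith

/-- `f^6 >= 1/c^3 - 12 e/c` -/
lemma ff_six_ge (e x : ℝ) (he : 0 ≤ e) :
    1 / Real.cosh (2 * x) ^ 3 - 12 * e * (1 / Real.cosh (2 * x)) ≤ ff e x ^ 6 := by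
  have hc : 0 < Real.cosh (2 * x) := lt_of_lt_of_le zero_lt_one (cosh_ge x)
  have h1 : ff e x ^ 6 = mm e x ^ 12 / Real.cosh (2 * x) ^ 3 := by
    rw [ff, div_pow, ← pow_mul, show (6 : ℕ) = 2 * 3 from rfl, pow_mul (rr x), rr_sq]
  rw [h1]
  have h2 : (1 - 12 * (e * rr x)) / Real.cosh (2 * x) ^ 3 ≤ mm e x ^ 12 / Real.cosh (2 * x) ^ 3 :=
    div_le_div_of_nonneg_right (mm_pow_ge e x he) (by positivity)
  refine le_trans ?_ h2
  have h3 : rr x / Real.cosh (2 * x) ^ 3 ≤ 1 / Real.cosh (2 * x) := by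
    rw [div_le_div_iff₀ (by positivity) hc]
    have h4 : rr x ≤ Real.cosh (2 * x) := rr_le x
    have h5 := cosh_ge x
    have h6 : Real.cosh (2 * x) ≤ Real.cosh (2 * x) ^ 2 := by nlinarith
    nlinarith
  have h7 : (1 - 12 * (e * rr x)) / Real.cosh (2 * x) ^ 3 =
      1 / Real.cosh (2 * x) ^ 3 - 12 * e * (rr x / Real.cosh (2 * x) ^ 3) := by
    ring
  rw [h7]
  have h8 : 12 * e * (rr x / Real.cosh (2 * x) ^ 3) ≤ 12 * e * (1 / Real.cosh (2 * x)) :=
    mul_le_mul_of_nonneg_left h3 (by positivity)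
  linarith

/-- support -/
lemma ff_eq_zero (e x : ℝ) (he : 0 < e) (hx : 1 / (2 * e ^ 2) ≤ |x|) : ff e x = 0 := by
  have h1 : 1 / e ^ 2 ≤ Real.cosh (2 * x) := by
    have h2 : Real.cosh (2 * x) = Real.cosh (2 * |x|) := by
      rw [← Real.cosh_abs (2 * x), abs_mul, abs_two]
    have h3 : 2 * |x| ≤ Real.cosh (2 * |x|) := by
      have h4 := Real.cosh_sq (2 * |x|)
      have h5 : 2 * |x| ≤ Real.sinh (2 * |x|) := Real.self_le_sinh_iff.2 (by positivity)
      have h6 : Real.sinh (2 * |x|) ≤ Real.cosh (2 * |x|) := le_of_lt (Real.sinh_lt_cosh _)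
      linarith
    rw [h2]
    refine le_trans ?_ h3
    have h7 : 1 / e ^ 2 = 2 * (1 / (2 * e ^ 2)) := by
      field_simp
    rw [h7]
    linarith
  have h8 : 1 / e ≤ rr x := by
    rw [rr]
    refine Real.le_sqrt_of_sq_le ?_
    rw [div_pow, one_pow]
    exact h1
  have h9 : 1 ≤ e * rr x := by
    rw [div_le_iff₀ he] at h8
    linarith
  have h10 : mm e x = 0 := max_eq_right (by linarith)
  rw [ff, h10]
  simp

lemma ff'_eq_zero (e x : ℝ) (he : 0 < e) (hx : 1 / (2 * e ^ 2) ≤ |x|) : ff' e x = 0 := by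
  have h := ff_eq_zero e x he hx
  have h1 : mm e x = 0 := by
    rw [ff, div_eq_zero_iff] at h
    rcases h with h | h
    · exact pow_eq_zero_iff two_ne_zero |>.1 h
    · exact absurd h (ne_of_gt (rr_pos x))
  rw [ff', h1]
  simp

/-- integral over the line = interval integral -/
lemma integral_eq (g : ℝ → ℝ) (L : ℝ) (h : ∀ x, L ≤ |x| → g x = 0) :
    ∫ x, g x = ∫ x in (-L)..L, g x := by
  rw [intervalIntegral.integral_eq_integral_of_support_subset]
  intro x hx
  have h1 : ¬ L ≤ |x| := fun hc => hx (h x hc)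
  rw [not_le, abs_lt] at h1
  exact ⟨h1.1, le_of_lt h1.2⟩

lemma hasDerivAt_F1 (x : ℝ) :
    HasDerivAt (fun y => 1 / 2 * Real.arctan (Real.sinh (2 * y))) (1 / Real.cosh (2 * x)) x := by
  have h := ((hasDerivAt_sinh2 x).arctan).const_mul (1 / 2 : ℝ)
  have hc : 0 < Real.cosh (2 * x) := lt_of_lt_of_le zero_lt_one (cosh_ge x)
  have h2 : 1 / 2 * (1 / (1 + Real.sinh (2 * x) ^ 2) * (2 * Real.cosh (2 * x))) =
      1 / Real.cosh (2 * x) := by
    rw [add_comm, ← Real.cosh_sq]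
    field_simp
  rw [h2] at h
  exact h

lemma hasDerivAt_F3 (x : ℝ) :
    HasDerivAt (fun y => 1 / 4 * (Real.sinh (2 * y) / Real.cosh (2 * y) ^ 2 +
      Real.arctan (Real.sinh (2 * y)))) (1 / Real.cosh (2 * x) ^ 3) x := by
  have hc : 0 < Real.cosh (2 * x) := lt_of_lt_of_le zero_lt_one (cosh_ge x)
  have h := (((hasDerivAt_sinh2 x).div ((hasDerivAt_cosh2 x).pow 2)
    (ne_of_gt (pow_pos hc 2))).add ((hasDerivAt_sinh2 x).arctan)).const_mul (1 / 4 : ℝ)
  have h2 : 1 / 4 * ((2 * Real.cosh (2 * x) * Real.cosh (2 * x) ^ 2 -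
      Real.sinh (2 * x) * (((2 : ℕ) : ℝ) * Real.cosh (2 * x) ^ (2 - 1) *
        (2 * Real.sinh (2 * x)))) /
        (Real.cosh (2 * x) ^ 2) ^ 2 +
      1 / (1 + Real.sinh (2 * x) ^ 2) * (2 * Real.cosh (2 * x))) =
      1 / Real.cosh (2 * x) ^ 3 := by
    have h3 : Real.sinh (2 * x) ^ 2 = Real.cosh (2 * x) ^ 2 - 1 := Real.sinh_sq _
    have h4 : 1 + Real.sinh (2 * x) ^ 2 = Real.cosh (2 * x) ^ 2 := by rw [h3]; ring
    rw [h4]
    have h5 : Real.sinh (2 * x) * (((2 : ℕ) : ℝ) * Real.cosh (2 * x) ^ (2 - 1) *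
        (2 * Real.sinh (2 * x))) = 4 * Real.cosh (2 * x) * (Real.cosh (2 * x) ^ 2 - 1) := by
      rw [← h3]
      push_cast
      simp only [pow_one]
      ring
    rw [h5]
    field_simp
    ring
  have h6 : HasDerivAt (fun y => 1 / 4 * (Real.sinh (2 * y) / Real.cosh (2 * y) ^ 2 +
      Real.arctan (Real.sinh (2 * y)))) (1 / 4 * ((2 * Real.cosh (2 * x) * Real.cosh (2 * x) ^ 2 -
      Real.sinh (2 * x) * (((2 : ℕ) : ℝ) * Real.cosh (2 * x) ^ (2 - 1) *
        (2 * Real.sinh (2 * x)))) /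
        (Real.cosh (2 * x) ^ 2) ^ 2 +
      1 / (1 + Real.sinh (2 * x) ^ 2) * (2 * Real.cosh (2 * x)))) x := h
  rw [h2] at h6
  exact h6

lemma cont1 : Continuous fun x : ℝ => 1 / Real.cosh (2 * x) :=
  continuous_const.div (Real.continuous_cosh.comp (continuous_const.mul continuous_id))
    fun x => ne_of_gt (lt_of_lt_of_le zero_lt_one (cosh_ge x))

lemma cont3 : Continuous fun x : ℝ => 1 / Real.cosh (2 * x) ^ 3 :=
  continuous_const.div ((Real.continuous_cosh.comp (continuous_const.mul continuous_id)).pow 3)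
    fun x => ne_of_gt (pow_pos (lt_of_lt_of_le zero_lt_one (cosh_ge x)) 3)

lemma int1 (L : ℝ) : ∫ x in (-L)..L, 1 / Real.cosh (2 * x) = Real.arctan (Real.sinh (2 * L)) := by
  rw [intervalIntegral.integral_eq_sub_of_hasDerivAt (fun x _ => hasDerivAt_F1 x)
    (cont1.intervalIntegrable _ _)]
  rw [mul_neg, Real.sinh_neg, Real.arctan_neg]
  ring

lemma int3 (L : ℝ) : ∫ x in (-L)..L, 1 / Real.cosh (2 * x) ^ 3 =
    1 / 2 * (Real.sinh (2 * L) / Real.cosh (2 * L) ^ 2 + Real.arctan (Real.sinh (2 * L))) := by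
  rw [intervalIntegral.integral_eq_sub_of_hasDerivAt (fun x _ => hasDerivAt_F3 x)
    (cont3.intervalIntegrable _ _)]
  rw [mul_neg, Real.sinh_neg, Real.cosh_neg, Real.arctan_neg]
  ring

end GN1

theorem stmt_GN1 : Stmt_GN1 := by
  intro K hK
  have hpi := Real.pi_pos
  have hK0 : 0 < K := lt_trans (by positivity) hK
  -- choice of `e`
  obtain ⟨e, he0, he1, he2⟩ : ∃ e : ℝ, 0 < e ∧ 24 * e < 1 ∧ Real.pi ^ 2 / 4 ≤ K * (1 - 24 * e) := by
    refine ⟨(1 - Real.pi ^ 2 / (4 * K)) / 48, ?_, ?_, ?_⟩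
    · have : Real.pi ^ 2 / (4 * K) < 1 := by
        rw [div_lt_one (by positivity)]
        linarith
      linarith
    · have : 0 < Real.pi ^ 2 / (4 * K) := by positivity
      linarith
    · have h1 : K * (Real.pi ^ 2 / (4 * K)) = Real.pi ^ 2 / 4 := by
        field_simp
      have h2 : K * (1 - 24 * ((1 - Real.pi ^ 2 / (4 * K)) / 48)) =
          K / 2 + K * (Real.pi ^ 2 / (4 * K)) / 2 := by ring
      rw [h2, h1]
      linarith
  set L : ℝ := 1 / (2 * e ^ 2) with hL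
  have hL0 : 0 < L := by rw [hL]; positivity
  have hLL : -L ≤ L := by linarith
  set A : ℝ := Real.arctan (Real.sinh (2 * L)) with hA
  have hs0 : 0 < Real.sinh (2 * L) := Real.sinh_pos_iff.2 (by positivity)
  have hA0 : 0 < A := Real.arctan_pos.2 hs0
  have hA1 : A < Real.pi / 2 := Real.arctan_lt_pi_div_two _
  have hsc : 0 ≤ Real.sinh (2 * L) / Real.cosh (2 * L) ^ 2 :=
    div_nonneg (le_of_lt hs0) (sq_nonneg _)
  have I1 : ∫ x, GN1.ff' e x ^ 2 ≤ A / 2 := by
    rw [GN1.integral_eq _ L (fun x hx => by rw [GN1.ff'_eq_zero e x he0 hx]; norm_num)]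
    calc ∫ x in (-L)..L, GN1.ff' e x ^ 2
        ≤ ∫ x in (-L)..L, (1 / Real.cosh (2 * x) - 1 / Real.cosh (2 * x) ^ 3) := by
          refine intervalIntegral.integral_mono_on hLL
            (((GN1.continuous_ff' e).pow 2).intervalIntegrable _ _)
            ((GN1.cont1.sub GN1.cont3).intervalIntegrable _ _)
            fun x _ => GN1.ff'_sq_le e x (le_of_lt he0)
      _ = A - 1 / 2 * (Real.sinh (2 * L) / Real.cosh (2 * L) ^ 2 + A) := by
          rw [intervalIntegral.integral_sub (GN1.cont1.intervalIntegrable _ _)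
            (GN1.cont3.intervalIntegrable _ _), GN1.int1, GN1.int3]
      _ ≤ A / 2 := by linarith
  have I2 : ∫ x, GN1.ff e x ^ 2 ≤ A := by
    rw [GN1.integral_eq _ L (fun x hx => by rw [GN1.ff_eq_zero e x he0 hx]; norm_num), hA,
      ← GN1.int1]
    exact intervalIntegral.integral_mono_on hLL
      (((GN1.continuous_ff e).pow 2).intervalIntegrable _ _)
      (GN1.cont1.intervalIntegrable _ _)
      fun x _ => GN1.ff_sq_le e x (le_of_lt he0)
  have I6 : A / 2 - 12 * e * A ≤ ∫ x, GN1.ff e x ^ 6 := by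
    rw [GN1.integral_eq _ L (fun x hx => by rw [GN1.ff_eq_zero e x he0 hx]; norm_num)]
    calc A / 2 - 12 * e * A
        ≤ 1 / 2 * (Real.sinh (2 * L) / Real.cosh (2 * L) ^ 2 + A) - 12 * e * A := by linarith
      _ = ∫ x in (-L)..L, (1 / Real.cosh (2 * x) ^ 3 - 12 * e * (1 / Real.cosh (2 * x))) := by
          have hc1 : IntervalIntegrable (fun x => 12 * e * (1 / Real.cosh (2 * x))) volume (-L) L :=
            (continuous_const.mul GN1.cont1).intervalIntegrable _ _
          rw [intervalIntegral.integral_sub (GN1.cont3.intervalIntegrable _ _) hc1,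
            intervalIntegral.integral_const_mul, GN1.int1, GN1.int3]
      _ ≤ ∫ x in (-L)..L, GN1.ff e x ^ 6 := by
          refine intervalIntegral.integral_mono_on hLL
            ((GN1.cont3.sub (continuous_const.mul GN1.cont1)).intervalIntegrable _ _)
            (((GN1.continuous_ff e).pow 6).intervalIntegrable _ _)
            fun x _ => GN1.ff_six_ge e x (le_of_lt he0)
  refine ⟨GN1.ff e, GN1.ff' e, GN1.hasDerivAt_ff e, GN1.continuous_ff' e, ?_, ?_, ?_⟩
  · refine HasCompactSupport.intro (isCompact_Icc (a := -L) (b := L)) fun x hx => ?_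
    refine GN1.ff_eq_zero e x he0 ?_
    by_contra hcon
    rw [not_le, abs_lt] at hcon
    exact hx ⟨le_of_lt hcon.1, le_of_lt hcon.2⟩
  · refine lt_of_lt_of_le ?_ I6
    have : A / 2 - 12 * e * A = A / 2 * (1 - 24 * e) := by ring
    rw [this]
    exact mul_pos (by linarith) (by linarith)
  · have J0 : 0 ≤ ∫ x, GN1.ff' e x ^ 2 := integral_nonneg fun x => sq_nonneg _
    have J1 : 0 ≤ ∫ x, GN1.ff e x ^ 2 := integral_nonneg fun x => sq_nonneg _
    have J2 : (∫ x, GN1.ff e x ^ 2) ^ 2 ≤ A ^ 2 := pow_le_pow_left₀ J1 I2 2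
    calc (∫ x, GN1.ff' e x ^ 2) * (∫ x, GN1.ff e x ^ 2) ^ 2
        ≤ A / 2 * A ^ 2 := mul_le_mul I1 J2 (sq_nonneg _) (by linarith)
      _ < A / 2 * (Real.pi ^ 2 / 4) := by
          refine mul_lt_mul_of_pos_left ?_ (by linarith)
          nlinarith
      _ ≤ A / 2 * (K * (1 - 24 * e)) := mul_le_mul_of_nonneg_left he2 (by linarith)
      _ = K * (A / 2 - 12 * e * A) := by ring
      _ ≤ K * ∫ x, GN1.ff e x ^ 6 := mul_le_mul_of_nonneg_left I6 (le_of_lt hK0)

end Pool.LT
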