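import Pool.Agent.Work.MP_3242df_lt.Interface2

/-!
# MAIN2: from `R x R` to `EuclideanSpace ℝ (Fin 2)`  (helper52)
-/

set_option autoImplicit false

open MeasureTheory Matrix Finset
open scoped BigOperators ComplexOrder Topology

namespace Pool.LT.MAIN2

/-- the plane -/
noncomputable def P (x y : ℝ) : EuclideanSpace ℝ (Fin 2) :=
  x • EuclideanSpace.single 0 (1 : ℝ) + y • EuclideanSpace.single 1 (1 : ℝ)

noncomputable def e : ℝ × ℝ ≃ᵐ EuclideanSpace ℝ (Fin 2) :=
  (MeasurableEquiv.finTwoArrow (α := ℝ)).symm.trans (MeasurableEquiv.toLp 2 (Fin 2 → ℝ))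

theorem e_apply (p : ℝ × ℝ) : e p = P p.1 p.2 := by
  ext i
  fin_cases i <;> simp [e, P, MeasurableEquiv.finTwoArrow]

theorem e_mp : MeasurePreserving (e : ℝ × ℝ → EuclideanSpace ℝ (Fin 2)) volume volume := by
  have h1 : MeasurePreserving (MeasurableEquiv.finTwoArrow (α := ℝ)).symm volume volume :=
    (volume_preserving_finTwoArrow ℝ).symm _
  have h2 : MeasurePreserving (MeasurableEquiv.toLp 2 (Fin 2 → ℝ)) volume volume :=
    PiLp.volume_preserving_toLp (Fin 2)
  exact h2.comp h1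

theorem int2 {E : Type*} [NormedAddCommGroup E] [NormedSpace ℝ E] [CompleteSpace E]
    {f : EuclideanSpace ℝ (Fin 2) → E} (hc : Continuous f) (hs : HasCompactSupport f) :
    ∫ x, f x = ∫ x, ∫ y, f (P x y) := by
  have hi : Integrable f := hc.integrable_of_hasCompactSupport hs
  have h1 : ∫ p, f (e p) = ∫ x, f x := e_mp.integral_comp e.measurableEmbedding f
  have h2 : Integrable (fun p : ℝ × ℝ => f (e p)) :=
    (e_mp.integrable_comp_emb e.measurableEmbedding).2 hi
  rw [← h1]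
  have h3 : (volume : Measure (ℝ × ℝ)) = (volume : Measure ℝ).prod volume := rfl
  rw [h3] at h2 ⊢
  rw [integral_prod _ h2]
  simp only [e_apply]

theorem norm_P (x y : ℝ) : |x| ≤ ‖P x y‖ ∧ |y| ≤ ‖P x y‖ := by
  have h0 : (P x y) 0 = x := by simp [P]
  have h1 : (P x y) 1 = y := by simp [P]
  constructor
  · have := PiLp.norm_apply_le (P x y) 0
    rwa [h0, Real.norm_eq_abs] at this
  · have := PiLp.norm_apply_le (P x y) 1
    rwa [h1, Real.norm_eq_abs] at this

theorem hd0 (x y : ℝ) : HasDerivAt (fun s => P s y) (EuclideanSpace.single 0 (1 : ℝ)) x := by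
  have := ((hasDerivAt_id x).smul_const (EuclideanSpace.single (0 : Fin 2) (1 : ℝ))).add_const
    (y • EuclideanSpace.single (1 : Fin 2) (1 : ℝ))
  simpa [P] using this

theorem hd1 (x y : ℝ) : HasDerivAt (fun s => P x s) (EuclideanSpace.single 1 (1 : ℝ)) y := by
  have := ((hasDerivAt_id y).smul_const (EuclideanSpace.single (1 : Fin 2) (1 : ℝ))).const_add
    (x • EuclideanSpace.single (0 : Fin 2) (1 : ℝ))
  simpa [P] using this

theorem cP : Continuous (fun p : ℝ × ℝ => P p.1 p.2) := by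
  unfold P
  fun_prop

end Pool.LT.MAIN2

namespace Pool.LT

open MAIN2

theorem stmt_MAIN2 (h : Stmt_ASM2) : Stmt_MAIN2 := by
  intro N φ hφ ho
  choose R hRpos hR using fun i => (hφ i).2.exists_pos_le_norm
  obtain ⟨R0, hR0, hR0'⟩ : ∃ R0 : ℝ, 0 < R0 ∧ ∀ i x, R0 ≤ ‖x‖ → φ i x = 0 := by
    refine ⟨1 + ∑ i, R i, ?_, fun i x hx => hR i x ?_⟩
    · have : 0 ≤ ∑ i, R i := Finset.sum_nonneg fun i _ => (hRpos i).le
      linarith
    · have : R i ≤ ∑ i, R i :=
        Finset.single_le_sum (fun j _ => (hRpos j).le) (Finset.mem_univ i)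
      linarith
  have hcφ : ∀ i, Continuous (φ i) := fun i => (hφ i).1.continuous
  have hcd : ∀ i, Continuous (fderiv ℝ (φ i)) := fun i => (hφ i).1.continuous_fderiv (by norm_num)
  have hdiff : ∀ i x, HasFDerivAt (φ i) (fderiv ℝ (φ i) x) x := fun i x =>
    (((hφ i).1.differentiable (by norm_num)) x).hasFDerivAt
  have key := h N R0 (fun x y i => φ i (P x y))
    (fun x y i => fderiv ℝ (φ i) (P x y) (EuclideanSpace.single 0 (1 : ℝ)))
    (fun x y i => fderiv ℝ (φ i) (P x y) (EuclideanSpace.single 1 (1 : ℝ))) hR0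
    (continuous_pi fun i => (hcφ i).comp cP)
    (continuous_pi fun i => ((hcd i).comp cP).clm_apply continuous_const)
    (continuous_pi fun i => ((hcd i).comp cP).clm_apply continuous_const)
    (fun x y hxy => by
      funext i
      refine hR0' i _ ?_
      rcases hxy with hx | hx
      · exact hx.trans (norm_P x y).1
      · exact hx.trans (norm_P x y).2)
    (fun x y i => (hdiff i (P x y)).comp_hasDerivAt x (hd0 x y))
    (fun x y i => (hdiff i (P x y)).comp_hasDerivAt y (hd1 x y))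
    (fun i j => by
      have h1 := ho j i
      rw [int2 (f := fun x => star (φ j x) * φ i x)
        (((hcφ j).star).mul (hcφ i)) ((hφ i).2.mul_left)] at h1
      rw [Matrix.one_apply]
      have e1 : (if i = j then (1 : ℂ) else 0) = if j = i then 1 else 0 := by
        by_cases hij : i = j
        · simp [hij]
        · simp [hij, Ne.symm hij]
      rw [e1, ← h1]
      refine integral_congr_ae (Filter.Eventually.of_forall fun x => ?_)
      refine integral_congr_ae (Filter.Eventually.of_forall fun y => ?_)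
      simp only
      rw [mul_comm]; rfl)
  have hsupp : ∀ i, HasCompactSupport (fun x => ‖φ i x‖ ^ 2) := fun i =>
    (hφ i).2.comp_left (g := fun z => ‖z‖ ^ 2) (by simp)
  have hdsupp : ∀ i (j : Fin 2), HasCompactSupport
      (fun x => ‖fderiv ℝ (φ i) x (EuclideanSpace.single j (1 : ℝ))‖ ^ 2) := fun i j =>
    ((hφ i).2.fderiv (𝕜 := ℝ)).comp_left
      (g := fun L : EuclideanSpace ℝ (Fin 2) →L[ℝ] ℂ => ‖L (EuclideanSpace.single j (1 : ℝ))‖ ^ 2) (by simp)
  have hcdj : ∀ i (j : Fin 2), Continuous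
      (fun x => ‖fderiv ℝ (φ i) x (EuclideanSpace.single j (1 : ℝ))‖ ^ 2) := fun i j =>
    (((hcd i).clm_apply continuous_const).norm).pow 2
  have l1 : ∫ x, (∑ i, ‖φ i x‖ ^ 2) ^ (1 + 2 / ((2 : ℕ) : ℝ))
      = ∫ x, ∫ y, (∑ i, ‖φ i (P x y)‖ ^ 2) ^ 2 := by
    have e2 : (fun x => (∑ i, ‖φ i x‖ ^ 2) ^ (1 + 2 / ((2 : ℕ) : ℝ)))
        = fun x => (∑ i, ‖φ i x‖ ^ 2) ^ 2 := by
      funext x
      have : (1 + 2 / ((2 : ℕ) : ℝ)) = ((2 : ℕ) : ℝ) := by norm_num
      rw [this, Real.rpow_natCast]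
    rw [e2]
    refine int2 (f := fun x => (∑ i, ‖φ i x‖ ^ 2) ^ 2) (by fun_prop) ?_
    refine HasCompactSupport.intro (K := Metric.closedBall 0 R0) (isCompact_closedBall _ _) fun x hx => ?_
    have : R0 ≤ ‖x‖ := by
      simp only [Metric.mem_closedBall, dist_zero_right, not_le] at hx
      exact hx.le
    simp [hR0' _ x this]
  have l2 : ∑ i, ∫ x, ∑ j : Fin 2, ‖fderiv ℝ (φ i) x (EuclideanSpace.single j (1 : ℝ))‖ ^ 2
      = ∫ x, ∫ y, ∑ i, (‖fderiv ℝ (φ i) (P x y) (EuclideanSpace.single 0 (1 : ℝ))‖ ^ 2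
        + ‖fderiv ℝ (φ i) (P x y) (EuclideanSpace.single 1 (1 : ℝ))‖ ^ 2) := by
    have hsum : ∀ i, HasCompactSupport (fun x => ∑ j : Fin 2,
        ‖fderiv ℝ (φ i) x (EuclideanSpace.single j (1 : ℝ))‖ ^ 2) := fun i => by
      simp only [Fin.sum_univ_two]
      exact (hdsupp i 0).add (hdsupp i 1)
    rw [← integral_finsetSum]
    · rw [int2 (f := fun x => ∑ i, ∑ j : Fin 2,
        ‖fderiv ℝ (φ i) x (EuclideanSpace.single j (1 : ℝ))‖ ^ 2)]
      · simp only [Fin.sum_univ_two]
      · exact continuous_finsetSum _ fun i _ => continuous_finsetSum _ fun j _ => hcdj i j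
      · refine HasCompactSupport.intro (K := ⋃ i, tsupport (fun x => ∑ j : Fin 2,
          ‖fderiv ℝ (φ i) x (EuclideanSpace.single j (1 : ℝ))‖ ^ 2)) (isCompact_iUnion fun i => hsum i)
          fun x hx => ?_
        refine Finset.sum_eq_zero fun i _ => ?_
        simp only [Set.mem_iUnion, not_exists] at hx
        exact image_eq_zero_of_notMem_tsupport (f := fun x => ∑ j : Fin 2,
          ‖fderiv ℝ (φ i) x (EuclideanSpace.single j (1 : ℝ))‖ ^ 2) (hx i)
    · intro i _
      exact (continuous_finsetSum _ fun j _ => hcdj i j).integrable_of_hasCompactSupport (hsum i)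
  rw [l1, l2]
  exact key

end Pool.LT
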