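import Mathlib

/-!
Definitions for the Lieb-Thirring project (MP_3242df_mp).
Paper proof: notes 2550 (helper46) and 2557 (helper88).
-/

set_option autoImplicit false

open MeasureTheory Matrix Finset
open scoped BigOperators ComplexOrder

namespace Pool.LT

/-- `N x N` complex matrices. -/
abbrev Mat (N : ℕ) := Matrix (Fin N) (Fin N) ℂ

/-- real part of the trace -/
noncomputable def rtr {N : ℕ} (A : Mat N) : ℝ := (Matrix.trace A).re

/-- the outer product `u u^*`, entries `u i * conj (u j)` -/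
noncomputable def outer {N : ℕ} (u : Fin N → ℂ) : Mat N :=
  Matrix.of fun i j => u i * (starRingEnd ℂ) (u j)

/-- `J_M X = M X + X M` -/
noncomputable def JJ {N : ℕ} (M X : Mat N) : Mat N := M * X + X * M

/-- `G_m = J_M^m sigma` -/
noncomputable def GG {N : ℕ} (M σ : Mat N) : ℕ → Mat N
  | 0 => σ
  | (m + 1) => JJ M (GG M σ m)

/-- `X = P(J_M) sigma = sum_{m < d} c_m G_m` (real coefficients `c`) -/
noncomputable def XX {N : ℕ} (d : ℕ) (c : ℕ → ℝ) (M σ : Mat N) : Mat N :=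
  ∑ m ∈ Finset.range d, ((c m : ℝ) : ℂ) • GG M σ m

/-- `sum_{m < d} c_m sum_{l < m} Re Tr (G_{m-1-l} (sigma G_l + G_l sigma))`; this is the derivative of
`1/2 Tr (sigma X)` minus `Tr (sigma' X)` along `M' = 2 sigma`. -/
noncomputable def DD {N : ℕ} (d : ℕ) (c : ℕ → ℝ) (M σ : Mat N) : ℝ :=
  ∑ m ∈ Finset.range d, c m * ∑ l ∈ Finset.range m,
    rtr (GG M σ (m - 1 - l) * (σ * GG M σ l + GG M σ l * σ))

/-- property (Q) -/
def QProp {N : ℕ} (t : ℝ) (σ' σ : Mat N) : Prop :=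
  ∀ X : Mat N, X.IsHermitian → 0 ≤ t + rtr (σ' * X) + rtr (σ * (X * X))

/-- a `C^1` compactly supported curve of PSD matrices with kinetic energy density `t` -/
structure Curve (N : ℕ) (R : ℝ) (σ σ' : ℝ → Mat N) (t : ℝ → ℝ) : Prop where
  hR : 0 < R
  deriv : ∀ x i j, HasDerivAt (fun y => σ y i j) (σ' x i j) x
  cont' : ∀ i j, Continuous (fun x => σ' x i j)
  supp : ∀ x, R ≤ |x| → σ x = 0
  psd : ∀ x, (σ x).PosSemidef
  tcont : Continuous t
  tsupp : ∀ x, R ≤ |x| → t x = 0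
  q : ∀ x, QProp (t x) (σ' x) (σ x)

/-- a real kernel `k` is positive semidefinite on the set `s` -/
def PSDKer (s : Set ℝ) (k : ℝ → ℝ → ℝ) : Prop :=
  ∀ (n : ℕ) (x : Fin n → ℝ), (∀ i, x i ∈ s) →
    (Matrix.of fun i j => ((k (x i) (x j) : ℝ) : ℂ) : Matrix (Fin n) (Fin n) ℂ).PosSemidef

/-- `A_z(x,y)` of note 2557, with `b = 1 + a`, `c = 1 - a` -/
noncomputable def Afun (a z x y : ℝ) : ℝ :=
  -(1 / 2) * (Real.cos ((1 + a) * x + (1 - a) * y) - Real.cos ((1 + a) * x + (1 - a) * z)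
      - Real.cos ((1 + a) * z + (1 - a) * y) + Real.cos (2 * z)
    + (Real.cos ((1 - a) * x + (1 + a) * y) - Real.cos ((1 - a) * x + (1 + a) * z)
      - Real.cos ((1 - a) * z + (1 + a) * y) + Real.cos (2 * z)))

end Pool.LT
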