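import Pool.Agent.Work.MP_3242df_lt.Interface

/-!
Interface, second part: `d = 1` and `d = 2`.
-/

set_option autoImplicit false

open MeasureTheory Matrix Finset
open scoped BigOperators ComplexOrder

namespace Pool.LT

/-- GN1: minimising sequence for the one-particle constant in `d = 1` on `ℝ`
(cut-offs of `(cosh 2x)^(-1/2)`). -/
def Stmt_GN1 : Prop := ∀ K : ℝ, Real.pi ^ 2 / 4 < K → ∃ (f f' : ℝ → ℝ),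
  (∀ x, HasDerivAt f (f' x) x) ∧ Continuous f' ∧ HasCompactSupport f ∧
  0 < (∫ x, f x ^ 6) ∧
  (∫ x, f' x ^ 2) * (∫ x, f x ^ 2) ^ 2 < K * ∫ x, f x ^ 6

/-- D1a: lower bound in the frozen format, `d = 1`. -/
def Stmt_D1a : Prop := ∀ (N : ℕ) (φ : Fin N → EuclideanSpace ℝ (Fin 1) → ℂ),
  (∀ i, ContDiff ℝ 1 (φ i) ∧ HasCompactSupport (φ i)) →
  (∀ i j, ∫ x, star (φ i x) * φ j x = if i = j then (1 : ℂ) else 0) →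
  Real.pi ^ 2 / 4 * ∫ x, (∑ i, ‖φ i x‖ ^ 2) ^ (1 + 2 / ((1 : ℕ) : ℝ))
    ≤ ∑ i, ∫ x, ∑ j : Fin 1, ‖fderiv ℝ (φ i) x (EuclideanSpace.single j (1 : ℝ))‖ ^ 2

/-- D1b: one normalised function, `d = 1`. -/
def Stmt_D1b : Prop := ∀ K : ℝ, Real.pi ^ 2 / 4 < K → ∃ u : EuclideanSpace ℝ (Fin 1) → ℂ,
  ContDiff ℝ 1 u ∧ HasCompactSupport u ∧ (∫ x, ‖u x‖ ^ 2) = 1 ∧
  0 < (∫ x, ‖u x‖ ^ (6 : ℕ)) ∧
  (∫ x, ∑ i : Fin 1, ‖fderiv ℝ u x (EuclideanSpace.single i (1 : ℝ))‖ ^ 2)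
    < K * ∫ x, ‖u x‖ ^ (6 : ℕ)

/-- D1full: the frozen statement S15797 at `d = 1`, together with the value `pi^2/4`. -/
def Stmt_D1full : Prop := ∀ d : ℕ, d = 1 →
  sInf {K : ℝ | ∃ N : ℕ, ∃ u : Fin N → EuclideanSpace ℝ (Fin d) → ℂ,
      0 < N ∧
      (∀ n, ContDiff ℝ 1 (u n) ∧ HasCompactSupport (u n)) ∧
      (∀ n m, ∫ x, star (u n x) * u m x = if n = m then (1 : ℂ) else 0) ∧
      K = (∑ n, ∫ x, ∑ i : Fin d, ‖fderiv ℝ (u n) x (EuclideanSpace.single i (1 : ℝ))‖ ^ 2)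
          / ∫ x, (∑ n, ‖u n x‖ ^ 2) ^ (1 + 2 / (d : ℝ))}
    = min
        (sInf {K : ℝ | ∃ u : EuclideanSpace ℝ (Fin d) → ℂ,
            ContDiff ℝ 1 u ∧ HasCompactSupport u ∧ u ≠ 0 ∧
            K = (∫ x, ∑ i : Fin d, ‖fderiv ℝ u x (EuclideanSpace.single i (1 : ℝ))‖ ^ 2)
                * (∫ x, ‖u x‖ ^ 2) ^ (2 / (d : ℝ))
                / ∫ x, ‖u x‖ ^ (2 + 4 / (d : ℝ))})
        ((d : ℝ) / ((d : ℝ) + 2) * (2 * Real.pi) ^ 2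
          / ((MeasureTheory.volume (Metric.ball (0 : EuclideanSpace ℝ (Fin d)) 1)).toReal)
              ^ (2 / (d : ℝ)))
  ∧ sInf {K : ℝ | ∃ N : ℕ, ∃ u : Fin N → EuclideanSpace ℝ (Fin d) → ℂ,
      0 < N ∧
      (∀ n, ContDiff ℝ 1 (u n) ∧ HasCompactSupport (u n)) ∧
      (∀ n m, ∫ x, star (u n x) * u m x = if n = m then (1 : ℂ) else 0) ∧
      K = (∑ n, ∫ x, ∑ i : Fin d, ‖fderiv ℝ (u n) x (EuclideanSpace.single i (1 : ℝ))‖ ^ 2)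
          / ∫ x, (∑ n, ‖u n x‖ ^ 2) ^ (1 + 2 / (d : ℝ))} = Real.pi ^ 2 / 4

/-- ASM2: assembly of two steps on `R x R` (iterated integrals), `d = 2`. -/
def Stmt_ASM2 : Prop := ∀ (N : ℕ) (R : ℝ) (u u1 u2 : ℝ → ℝ → Fin N → ℂ), 0 < R →
  Continuous (fun p : ℝ × ℝ => u p.1 p.2) →
  Continuous (fun p : ℝ × ℝ => u1 p.1 p.2) →
  Continuous (fun p : ℝ × ℝ => u2 p.1 p.2) →
  (∀ x y, R ≤ |x| ∨ R ≤ |y| → u x y = 0) →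
  (∀ x y i, HasDerivAt (fun s => u s y i) (u1 x y i) x) →
  (∀ x y i, HasDerivAt (fun s => u x s i) (u2 x y i) y) →
  (∀ i j, ∫ x, ∫ y, u x y i * (starRingEnd ℂ) (u x y j) = (1 : Mat N) i j) →
  Real.sqrt 3 * Real.pi * (∫ x, ∫ y, (∑ i, ‖u x y i‖ ^ 2) ^ 2)
    ≤ ∫ x, ∫ y, ∑ i, (‖u1 x y i‖ ^ 2 + ‖u2 x y i‖ ^ 2)

/-- MAIN2: `K_2 >= sqrt 3 * pi = (3/4)^(1/2) K_2^cl`. -/
def Stmt_MAIN2 : Prop := ∀ (N : ℕ) (φ : Fin N → EuclideanSpace ℝ (Fin 2) → ℂ),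
  (∀ i, ContDiff ℝ 1 (φ i) ∧ HasCompactSupport (φ i)) →
  (∀ i j, ∫ x, star (φ i x) * φ j x = if i = j then (1 : ℂ) else 0) →
  Real.sqrt 3 * Real.pi * ∫ x, (∑ i, ‖φ i x‖ ^ 2) ^ (1 + 2 / ((2 : ℕ) : ℝ))
    ≤ ∑ i, ∫ x, ∑ j : Fin 2, ‖fderiv ℝ (φ i) x (EuclideanSpace.single j (1 : ℝ))‖ ^ 2

end Pool.LT
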