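import Pool.Agent.Work.MP_3242df_lt.All
import Pool.Agent.Work.MP_3242df_lt.B_GN1

/-!
# Operator valued inequality on the line, Hilbert space form
-/

set_option autoImplicit false

open MeasureTheory Matrix Finset
open scoped BigOperators ComplexOrder

namespace Pool.LT

namespace OpVal

universe uu

variable {H : Type uu} [NormedAddCommGroup H] [InnerProductSpace ℂ H]

/-- transposed Gram matrix, entries `u i conj (u j)` -/
noncomputable def sg {N : ℕ} (u : Fin N → H) : Mat N := Matrix.of fun i j => inner ℂ (u j) (u i)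

/-- its derivative -/
noncomputable def sg' {N : ℕ} (u u' : Fin N → H) : Mat N :=
  Matrix.of fun i j => inner ℂ (u j) (u' i) + inner ℂ (u' j) (u i)

theorem sg_eq {N : ℕ} (u : Fin N → H) : sg u = (Matrix.gram ℂ u)ᵀ := by
  ext i j
  rfl

theorem sg_psd {N : ℕ} (u : Fin N → H) : (sg u).PosSemidef := by
  rw [sg_eq]
  exact (Matrix.posSemidef_gram ℂ u).transpose

theorem qid {N : ℕ} (u u' : Fin N → H) (X : Mat N) (hX : X.IsHermitian) :
    (∑ i, ‖u' i‖ ^ 2) + rtr (sg' u u' * X) + rtr (sg u * (X * X))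
      = ∑ i, ‖u' i + ∑ j, X i j • u j‖ ^ 2 := by
  have hXc : ∀ i j, (starRingEnd ℂ) (X i j) = X j i := fun i j => by
    have := congrFun (congrFun hX j) i
    rw [Matrix.conjTranspose_apply] at this
    exact this
  have e0 : ∀ i, ‖u' i + ∑ j, X i j • u j‖ ^ 2
      = ‖u' i‖ ^ 2 + 2 * (inner ℂ (u' i) (∑ j, X i j • u j)).re + ‖∑ j, X i j • u j‖ ^ 2 := by
    intro i
    rw [norm_add_sq (𝕜 := ℂ) (u' i) (∑ j, X i j • u j)]
    rfl
  have e1 : ∀ i, inner ℂ (u' i) (∑ j, X i j • u j) = ∑ j, X i j * inner ℂ (u' i) (u j) := by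
    intro i
    rw [inner_sum]
    exact Finset.sum_congr rfl fun j _ => inner_smul_right _ _ _
  have e2 : ∀ i, ‖∑ j, X i j • u j‖ ^ 2
      = (∑ j, ∑ k, (starRingEnd ℂ) (X i j) * (X i k * inner ℂ (u j) (u k))).re := by
    intro i
    rw [← inner_self_eq_norm_sq (𝕜 := ℂ)]
    simp only [RCLike.re_to_complex]
    rw [sum_inner]
    congr 1
    refine Finset.sum_congr rfl fun j _ => ?_
    rw [inner_smul_left, inner_sum, Finset.mul_sum]
    refine Finset.sum_congr rfl fun k _ => ?_
    rw [inner_smul_right]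
  have h1 : rtr (sg' u u' * X) = ∑ i, 2 * (∑ j, X i j * inner ℂ (u' i) (u j)).re := by
    unfold rtr sg'
    rw [Matrix.trace]
    simp only [Matrix.diag_apply, Matrix.mul_apply, Matrix.of_apply]
    have a1 : (∑ x, ∑ j, (inner ℂ (u j) (u' x) + inner ℂ (u' j) (u x)) * X j x)
        = (∑ x, ∑ j, inner ℂ (u j) (u' x) * X j x) + ∑ x, ∑ j, inner ℂ (u' j) (u x) * X j x := by
      simp only [add_mul, Finset.sum_add_distrib]
    have a2 : (∑ x, ∑ j, inner ℂ (u j) (u' x) * X j x).re
        = ∑ i, (∑ j, X i j * inner ℂ (u' i) (u j)).re := by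
      rw [Complex.re_sum]
      refine Finset.sum_congr rfl fun i _ => ?_
      rw [← Complex.conj_re, map_sum]
      congr 1
      refine Finset.sum_congr rfl fun j _ => ?_
      rw [map_mul, hXc, inner_conj_symm]
      ring
    have a3 : (∑ x, ∑ j, inner ℂ (u' j) (u x) * X j x).re
        = ∑ i, (∑ j, X i j * inner ℂ (u' i) (u j)).re := by
      rw [Finset.sum_comm, Complex.re_sum]
      refine Finset.sum_congr rfl fun i _ => ?_
      congr 1
      exact Finset.sum_congr rfl fun j _ => mul_comm _ _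
    rw [a1, Complex.add_re, a2, a3, ← Finset.mul_sum]
    ring
  have h2 : rtr (sg u * (X * X))
      = ∑ i, (∑ j, ∑ k, (starRingEnd ℂ) (X i j) * (X i k * inner ℂ (u j) (u k))).re := by
    unfold rtr sg
    rw [Matrix.trace]
    simp only [Matrix.diag_apply, Matrix.mul_apply, Matrix.of_apply]
    rw [← Complex.re_sum]
    congr 1
    calc ∑ x, ∑ j, inner ℂ (u j) (u x) * ∑ i, X j i * X i x
        = ∑ x, ∑ j, ∑ i, inner ℂ (u j) (u x) * (X j i * X i x) := by
          simp_rw [Finset.mul_sum]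
      _ = ∑ x, ∑ i, ∑ j, inner ℂ (u j) (u x) * (X j i * X i x) :=
          Finset.sum_congr rfl fun x _ => Finset.sum_comm
      _ = ∑ i, ∑ x, ∑ j, inner ℂ (u j) (u x) * (X j i * X i x) := Finset.sum_comm
      _ = ∑ i, ∑ j, ∑ x, inner ℂ (u j) (u x) * (X j i * X i x) :=
          Finset.sum_congr rfl fun x _ => Finset.sum_comm
      _ = _ := by
          refine Finset.sum_congr rfl fun i _ => Finset.sum_congr rfl fun j _ =>
            Finset.sum_congr rfl fun k _ => ?_
          rw [hXc]
          ring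
  rw [h1, h2, ← Finset.sum_add_distrib, ← Finset.sum_add_distrib]
  refine Finset.sum_congr rfl fun i _ => ?_
  rw [e0, e1, e2]

theorem trace_gram {N : ℕ} (u : Fin N → H) :
    rtr (sg u * sg u * sg u) = (Matrix.trace ((Matrix.gram ℂ u) ^ 3)).re := by
  unfold rtr
  rw [sg_eq, ← Matrix.transpose_mul, ← Matrix.transpose_mul, Matrix.trace_transpose]
  congr 2
  rw [pow_succ, pow_two, Matrix.mul_assoc]

theorem main {N : ℕ} (u : Fin N → ℝ → H)
    (hu : ∀ i, ContDiff ℝ 1 (u i) ∧ HasCompactSupport (u i))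
    (ho : ∀ i j, ∫ x, inner ℂ (u i x) (u j x) = if i = j then (1 : ℂ) else 0) :
    Real.pi ^ 2 / 4 * ∫ x, (Matrix.trace ((Matrix.gram ℂ fun i => u i x) ^ 3)).re
      ≤ ∑ i, ∫ x, ‖deriv (u i) x‖ ^ 2 := by
  have hd : ∀ i x, HasDerivAt (u i) (deriv (u i) x) x := fun i x =>
    ((hu i).1.differentiable (by norm_num) x).hasDerivAt
  have hc : ∀ i, Continuous (u i) := fun i => (hu i).1.continuous
  have hc' : ∀ i, Continuous (deriv (u i)) := fun i => (hu i).1.continuous_deriv (by norm_num)
  have hs' : ∀ i, HasCompactSupport (deriv (u i)) := fun i => (hu i).2.deriv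
  -- a common radius
  obtain ⟨R, hR0, hR⟩ : ∃ R : ℝ, 0 < R ∧ ∀ i x, R ≤ |x| → u i x = 0 ∧ deriv (u i) x = 0 := by
    have h1 : ∀ i, ∃ r : ℝ, ∀ x, r ≤ |x| → u i x = 0 ∧ deriv (u i) x = 0 := by
      intro i
      obtain ⟨r, hr⟩ := (hu i).2.isCompact.isBounded.subset_closedBall (0 : ℝ)
      obtain ⟨r', hr'⟩ := (hs' i).isCompact.isBounded.subset_closedBall (0 : ℝ)
      refine ⟨max r r' + 1, fun x hx => ⟨?_, ?_⟩⟩
      · by_contra hne
        have := hr (subset_tsupport _ hne)
        rw [mem_closedBall_zero_iff, Real.norm_eq_abs] at this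
        linarith [le_max_left r r']
      · by_contra hne
        have := hr' (subset_tsupport _ hne)
        rw [mem_closedBall_zero_iff, Real.norm_eq_abs] at this
        linarith [le_max_right r r']
    choose r hr using h1
    refine ⟨(∑ i, |r i|) + 1, by positivity, fun i x hx => hr i x ?_⟩
    have : |r i| ≤ ∑ i, |r i| := Finset.single_le_sum (fun i _ => abs_nonneg (r i))
      (Finset.mem_univ i)
    linarith [le_abs_self (r i)]
  have hC : Curve N R (fun x => sg fun i => u i x)
      (fun x => sg' (fun i => u i x) fun i => deriv (u i) x)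
      (fun x => ∑ i, ‖deriv (u i) x‖ ^ 2) := by
    refine ⟨hR0, ?_, ?_, ?_, ?_, ?_, ?_, ?_⟩
    · intro x i j
      exact (hd j x).inner ℂ (hd i x)
    · intro i j
      simp only [sg', Matrix.of_apply]
      exact ((hc j).inner (hc' i)).add ((hc' j).inner (hc i))
    · intro x hx
      ext i j
      simp only [sg, Matrix.of_apply, Matrix.zero_apply]
      rw [(hR i x hx).1, inner_zero_right]
    · intro x
      exact sg_psd _
    · exact continuous_finsetSum _ fun i _ => ((hc' i).norm.pow 2)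
    · intro x hx
      refine Finset.sum_eq_zero fun i _ => ?_
      rw [(hR i x hx).2]; simp
    · intro x X hX
      rw [qid _ _ X hX]
      exact Finset.sum_nonneg fun i _ => sq_nonneg _
  have h := all_STEP1 N R _ _ _ hC (fun i j => by
    have := ho j i
    simp only [sg, Matrix.of_apply, Matrix.one_apply]
    rw [this]
    by_cases h : i = j
    · simp [h]
    · simp [h, Ne.symm h])
  have e : (fun x => rtr ((sg fun i => u i x) * (sg fun i => u i x) * (sg fun i => u i x)))
      = fun x => (Matrix.trace ((Matrix.gram ℂ fun i => u i x) ^ 3)).re := by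
    funext x
    exact trace_gram _
  rw [e] at h
  refine h.trans (le_of_eq ?_)
  rw [integral_finsetSum]
  intro i _
  refine Continuous.integrable_of_hasCompactSupport ((hc' i).norm.pow 2) ?_
  exact (hs' i).comp_left (g := fun v : H => ‖v‖ ^ 2) (by simp)

/-- optimality of the constant -/
theorem opt (K : ℝ) (hK : Real.pi ^ 2 / 4 < K) : ∃ u : ℝ → ℂ, ContDiff ℝ 1 u ∧
    HasCompactSupport u ∧ (∫ x, ‖u x‖ ^ 2) = 1 ∧
    (∫ x, ‖deriv u x‖ ^ 2) < K * ∫ x, ‖u x‖ ^ 6 := by
  obtain ⟨f, f', hd, hc', hs, h6, hlt⟩ := stmt_GN1 K hK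
  have hcf : Continuous f := continuous_iff_continuousAt.2 fun x => (hd x).continuousAt
  have hf : ContDiff ℝ 1 f := by
    rw [contDiff_one_iff_deriv]
    refine ⟨fun x => (hd x).differentiableAt, ?_⟩
    have : deriv f = f' := funext fun x => (hd x).deriv
    rw [this]
    exact hc'
  set m : ℝ := ∫ x, f x ^ 2 with hm
  have hmpos : 0 < m := by
    rcases (integral_nonneg (μ := volume) (f := fun x => f x ^ 2) fun x => sq_nonneg _).lt_or_eq
      with h | h
    · exact h
    · exfalso
      have h0 : (∫ x, f x ^ 2) = 0 := h.symm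
      have hint : Integrable (fun x => f x ^ 2) :=
        Continuous.integrable_of_hasCompactSupport (hcf.pow 2)
          (hs.comp_left (g := fun v : ℝ => v ^ 2) (by simp))
      have := (integral_eq_zero_iff_of_nonneg (fun x => sq_nonneg (f x)) hint).1 h0
      have h6' : (∫ x, f x ^ 6) = 0 := by
        refine integral_eq_zero_of_ae ?_
        filter_upwards [this] with x hx
        have hx' : f x ^ 2 = 0 := hx
        have : f x = 0 := by simpa using hx'
        simp [this]
      linarith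
  set c : ℝ := (Real.sqrt m)⁻¹ with hcdef
  have hc2 : c ^ 2 = m⁻¹ := by
    rw [hcdef, inv_pow, Real.sq_sqrt hmpos.le]
  refine ⟨fun x => ((c * f x : ℝ) : ℂ), ?_, ?_, ?_, ?_⟩
  · exact Complex.ofRealCLM.contDiff.comp (contDiff_const.mul hf)
  · exact hs.comp_left (g := fun v : ℝ => ((c * v : ℝ) : ℂ)) (by simp)
  · have : (fun x => ‖((c * f x : ℝ) : ℂ)‖ ^ 2) = fun x => c ^ 2 * f x ^ 2 := by
      funext x
      rw [Complex.norm_real, Real.norm_eq_abs, sq_abs]
      ring
    rw [this, integral_const_mul, ← hm, hc2, inv_mul_cancel₀ hmpos.ne']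
  · have hder : ∀ x, deriv (fun x => ((c * f x : ℝ) : ℂ)) x = ((c * f' x : ℝ) : ℂ) := fun x =>
      ((hd x).const_mul c).ofReal_comp.deriv
    have e1 : (fun x => ‖deriv (fun x => ((c * f x : ℝ) : ℂ)) x‖ ^ 2)
        = fun x => c ^ 2 * f' x ^ 2 := by
      funext x
      rw [hder, Complex.norm_real, Real.norm_eq_abs, sq_abs]
      ring
    have e2 : (fun x => ‖((c * f x : ℝ) : ℂ)‖ ^ 6) = fun x => (c ^ 2) ^ 3 * f x ^ 6 := by
      funext x
      rw [Complex.norm_real, Real.norm_eq_abs]
      have : |c * f x| ^ 6 = (c * f x) ^ 6 := by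
        rw [← abs_pow, abs_of_nonneg (by positivity)]
      rw [this]
      ring
    rw [e1, e2, integral_const_mul, integral_const_mul, hc2]
    have h1 : (∫ x, f' x ^ 2) < K * (∫ x, f x ^ 6) / m ^ 2 := by
      rw [lt_div_iff₀ (by positivity)]
      exact hlt
    calc m⁻¹ * (∫ x, f' x ^ 2) < m⁻¹ * (K * (∫ x, f x ^ 6) / m ^ 2) :=
          mul_lt_mul_of_pos_left h1 (by positivity)
      _ = K * (m⁻¹ ^ 3 * ∫ x, f x ^ 6) := by
          field_simp

end OpVal

end Pool.LT
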