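import Pool.Agent.Work.MP_3242df_lt.OUT

/-!
# Lieb-Thirring project: block STEP3, part a (one variable integrals)
-/

set_option autoImplicit false

open MeasureTheory Matrix Finset
open scoped BigOperators ComplexOrder

namespace Pool.LT

theorem rpow_three_halves (y : ℝ) : y ^ ((3 : ℝ) / 2) = y * √y := by
  rcases lt_trichotomy y 0 with h | h | h
  · rw [Real.rpow_def_of_neg h, Real.sqrt_eq_zero_of_nonpos h.le, mul_zero]
    have : Real.cos ((3 : ℝ) / 2 * Real.pi) = 0 := by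
      have e : (3 : ℝ) / 2 * Real.pi = Real.pi / 2 + Real.pi := by ring
      rw [e, Real.cos_add_pi, Real.cos_pi_div_two, neg_zero]
    rw [this, mul_zero]
  · subst h
    rw [Real.zero_rpow (by norm_num), zero_mul]
  · have e : (3 : ℝ) / 2 = 1 + 1 / 2 := by norm_num
    rw [e, Real.rpow_add h, Real.rpow_one, ← Real.sqrt_eq_rpow]

theorem hasDerivAt_mul_sqrt (y : ℝ) : HasDerivAt (fun z : ℝ => z * √z) (3 / 2 * √y) y := by
  have h := Real.hasDerivAt_rpow_const (x := y) (p := (3 : ℝ) / 2) (Or.inr (by norm_num))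
  have e : (fun z : ℝ => z ^ ((3 : ℝ) / 2)) = fun z : ℝ => z * √z := by
    funext z; exact rpow_three_halves z
  rw [e] at h
  have e2 : y ^ ((3 : ℝ) / 2 - 1) = √y := by
    rw [Real.sqrt_eq_rpow]; norm_num
  rw [e2] at h
  exact h

theorem sqrt_support_subset {a m : ℝ} (hm : 0 ≤ m) (h : a ≤ m ^ 2) :
    Function.support (fun r : ℝ => √(a - r ^ 2)) ⊆ Set.Ioc (-m) m := by
  intro r hr
  rw [Function.mem_support] at hr
  have h1 : 0 < a - r ^ 2 := by
    by_contra hcon
    exact hr (Real.sqrt_eq_zero_of_nonpos (not_lt.1 hcon))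
  have h2 : |r| < m := by
    rw [← abs_of_nonneg hm]
    exact sq_lt_sq.1 (by linarith)
  obtain ⟨h3, h4⟩ := abs_lt.1 h2
  exact ⟨h3, h4.le⟩

/-- the semicircle integral -/
theorem semicircle {a L : ℝ} (ha : 0 ≤ a) (hL : 0 ≤ L) (h : a ≤ L ^ 2) :
    ∫ r in (-L)..L, √(a - r ^ 2) = Real.pi * a / 2 := by
  rw [intervalIntegral.integral_eq_integral_of_support_subset (sqrt_support_subset hL h)]
  have h1 : a ≤ √a ^ 2 := by rw [Real.sq_sqrt ha]
  rw [← intervalIntegral.integral_eq_integral_of_support_subset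
    (sqrt_support_subset (Real.sqrt_nonneg a) h1)]
  rcases eq_or_lt_of_le ha with h0 | h0
  · subst h0
    simp
  · have hs : 0 < √a := Real.sqrt_pos.2 h0
    have h2 := intervalIntegral.integral_comp_mul_left (a := -1) (b := 1)
      (fun r : ℝ => √(a - r ^ 2)) hs.ne'
    have h3 : ∀ x : ℝ, √(a - (√a * x) ^ 2) = √a * √(1 - x ^ 2) := by
      intro x
      rw [mul_pow, Real.sq_sqrt ha, ← Real.sqrt_mul ha]
      congr 1
      ring
    simp only [h3] at h2
    rw [intervalIntegral.integral_const_mul, integral_sqrt_one_sub_sq] at h2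
    simp only [mul_neg, mul_one, smul_eq_mul] at h2
    have h4 : ∫ r in (-√a)..√a, √(a - r ^ 2) = √a * (√a * (Real.pi / 2)) := by
      rw [h2]
      field_simp
    rw [h4, ← mul_assoc, Real.mul_self_sqrt ha]
    ring

theorem semicircle_rel {a L : ℝ} (h : a ≤ L ^ 2) :
    ∫ r in (-L)..L, ((a - r ^ 2) * √(a - r ^ 2) - 3 * (r ^ 2 * √(a - r ^ 2))) = 0 := by
  have hd : ∀ r : ℝ, HasDerivAt (fun r : ℝ => r * ((a - r ^ 2) * √(a - r ^ 2)))
      ((a - r ^ 2) * √(a - r ^ 2) - 3 * (r ^ 2 * √(a - r ^ 2))) r := by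
    intro r
    have h1 : HasDerivAt (fun r : ℝ => a - r ^ 2) (-(2 * r)) r := by
      have := ((hasDerivAt_pow 2 r).const_sub a)
      simpa using this
    have h2 := (hasDerivAt_mul_sqrt (a - r ^ 2)).comp r h1
    have h3 := (hasDerivAt_id r).mul h2
    refine (h3.congr_deriv ?_)
    simp only [id, Function.comp]
    ring
  have hcont : Continuous fun r : ℝ =>
      (a - r ^ 2) * √(a - r ^ 2) - 3 * (r ^ 2 * √(a - r ^ 2)) := by fun_prop
  rw [intervalIntegral.integral_eq_sub_of_hasDerivAt (fun r _ => hd r)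
    (hcont.intervalIntegrable _ _)]
  have h1 : √(a - L ^ 2) = 0 := Real.sqrt_eq_zero_of_nonpos (by linarith)
  have h2 : √(a - (-L) ^ 2) = 0 := by rw [neg_sq]; exact h1
  rw [h1, h2]
  ring

theorem semicircle2 {a L : ℝ} (ha : 0 ≤ a) (hL : 0 ≤ L) (h : a ≤ L ^ 2) :
    ∫ r in (-L)..L, r ^ 2 * √(a - r ^ 2) = Real.pi * a ^ 2 / 8 := by
  have h1 := semicircle_rel h
  have e : ∀ r : ℝ, (a - r ^ 2) * √(a - r ^ 2) - 3 * (r ^ 2 * √(a - r ^ 2))
      = a * √(a - r ^ 2) - 4 * (r ^ 2 * √(a - r ^ 2)) := fun r => by ring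
  simp only [e] at h1
  have c1 : Continuous fun r : ℝ => a * √(a - r ^ 2) := by fun_prop
  have c2 : Continuous fun r : ℝ => 4 * (r ^ 2 * √(a - r ^ 2)) := by fun_prop
  rw [intervalIntegral.integral_sub (c1.intervalIntegrable _ _) (c2.intervalIntegrable _ _),
    intervalIntegral.integral_const_mul, intervalIntegral.integral_const_mul,
    semicircle ha hL h] at h1
  linarith

theorem semicircle3 {a L : ℝ} (ha : 0 ≤ a) (hL : 0 ≤ L) (h : a ≤ L ^ 2) :
    ∫ r in (-L)..L, (a - r ^ 2) * √(a - r ^ 2) = 3 * (Real.pi * a ^ 2 / 8) := by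
  have h1 := semicircle_rel h
  have c1 : Continuous fun r : ℝ => (a - r ^ 2) * √(a - r ^ 2) := by fun_prop
  have c2 : Continuous fun r : ℝ => 3 * (r ^ 2 * √(a - r ^ 2)) := by fun_prop
  rw [intervalIntegral.integral_sub (c1.intervalIntegrable _ _) (c2.intervalIntegrable _ _),
    intervalIntegral.integral_const_mul, semicircle2 ha hL h] at h1
  linarith

/-- the weights -/
noncomputable def Gw (b s r : ℝ) : ℝ := 2 / (b * s) * √(b * s / Real.pi - r ^ 2)

theorem Gw_nonneg {b s : ℝ} (hb : 0 < b) (hs : 0 ≤ s) (r : ℝ) : 0 ≤ Gw b s r := by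
  unfold Gw
  positivity

theorem Gw_cont (b s : ℝ) : Continuous (Gw b s) := by
  unfold Gw
  fun_prop

theorem Gw_zero (b r : ℝ) : Gw b 0 r = 0 := by
  unfold Gw
  simp

theorem Gw_int {b s L : ℝ} (hb : 0 < b) (hs : 0 < s) (hL : 0 ≤ L) (h : b * s / Real.pi ≤ L ^ 2) :
    ∫ r in (-L)..L, Gw b s r = 1 := by
  unfold Gw
  rw [intervalIntegral.integral_const_mul, semicircle (by positivity) hL h]
  have := Real.pi_pos
  field_simp

theorem Gw_int_le {b s L : ℝ} (hb : 0 < b) (hs : 0 ≤ s) (hL : 0 ≤ L)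
    (h : b * s / Real.pi ≤ L ^ 2) :
    ∫ r in (-L)..L, Gw b s r ≤ 1 := by
  rcases eq_or_lt_of_le hs with h0 | h0
  · subst h0
    simp [Gw_zero]
  · exact (Gw_int hb h0 hL h).le

theorem Gw_moment {b s L : ℝ} (hb : 0 < b) (hs : 0 ≤ s) (hL : 0 ≤ L)
    (h : b * s / Real.pi ≤ L ^ 2) :
    b ^ 2 / 12 * (∫ r in (-L)..L, (Gw b s r * s) ^ 3) + (∫ r in (-L)..L, r ^ 2 * Gw b s r) * s
      = b / (2 * Real.pi) * s ^ 2 := by
  rcases eq_or_lt_of_le hs with h0 | h0
  · subst h0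
    simp [Gw_zero]
  · have hpi := Real.pi_pos
    have ha : 0 ≤ b * s / Real.pi := by positivity
    have e1 : ∀ r : ℝ, (Gw b s r * s) ^ 3
        = 8 / b ^ 3 * ((b * s / Real.pi - r ^ 2) * √(b * s / Real.pi - r ^ 2)) := by
      intro r
      have e : Gw b s r * s = 2 / b * √(b * s / Real.pi - r ^ 2) := by
        unfold Gw
        field_simp
      rw [e, mul_pow]
      have e' : √(b * s / Real.pi - r ^ 2) ^ 3
          = (b * s / Real.pi - r ^ 2) * √(b * s / Real.pi - r ^ 2) := by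
        rcases le_total 0 (b * s / Real.pi - r ^ 2) with h1 | h1
        · rw [pow_succ, Real.sq_sqrt h1]
        · rw [Real.sqrt_eq_zero_of_nonpos h1]; simp
      rw [e']
      ring
    have e2 : ∀ r : ℝ, r ^ 2 * Gw b s r
        = 2 / (b * s) * (r ^ 2 * √(b * s / Real.pi - r ^ 2)) := by
      intro r
      unfold Gw
      ring
    simp only [e1, e2]
    rw [intervalIntegral.integral_const_mul, intervalIntegral.integral_const_mul,
      semicircle2 ha hL h, semicircle3 ha hL h]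
    field_simp
    ring

/-- `∫ (m² - r²)_+² ≤ 16/15 m⁵` -/
theorem quartic_int {m L : ℝ} (hm : 0 ≤ m) (hL : 0 ≤ L) :
    ∫ r in (-L)..L, (max (m ^ 2 - r ^ 2) 0) ^ 2 ≤ 16 / 15 * m ^ 5 := by
  have hc : Continuous fun r : ℝ => (max (m ^ 2 - r ^ 2) 0) ^ 2 := by fun_prop
  have hsupp : ∀ L' : ℝ, m ≤ L' →
      Function.support (fun r : ℝ => (max (m ^ 2 - r ^ 2) 0) ^ 2) ⊆ Set.Ioc (-L') L' := by
    intro L' hL' r hr
    rw [Function.mem_support] at hr
    have h1 : 0 < m ^ 2 - r ^ 2 := by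
      by_contra hcon
      apply hr
      rw [max_eq_right (not_lt.1 hcon)]; simp
    have h2 : |r| < m := by
      rw [← abs_of_nonneg hm]
      exact sq_lt_sq.1 (by linarith)
    obtain ⟨h3, h4⟩ := abs_lt.1 h2
    exact ⟨by linarith, by linarith⟩
  have h1 : ∫ r in (-L)..L, (max (m ^ 2 - r ^ 2) 0) ^ 2
      ≤ ∫ r in (-(max L m))..(max L m), (max (m ^ 2 - r ^ 2) 0) ^ 2 := by
    refine intervalIntegral.integral_mono_interval (neg_le_neg (le_max_left L m)) (by linarith)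
      (le_max_left L m) ?_ (hc.intervalIntegrable _ _)
    exact Filter.Eventually.of_forall fun r => sq_nonneg _
  refine h1.trans (le_of_eq ?_)
  rw [intervalIntegral.integral_eq_integral_of_support_subset (hsupp _ (le_max_right L m)),
    ← intervalIntegral.integral_eq_integral_of_support_subset (hsupp m le_rfl)]
  have h2 : ∫ r in (-m)..m, (max (m ^ 2 - r ^ 2) 0) ^ 2
      = ∫ r in (-m)..m, (m ^ 4 - 2 * m ^ 2 * r ^ 2 + r ^ 4) := by
    refine intervalIntegral.integral_congr ?_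
    intro r hr
    rw [Set.uIcc_of_le (by linarith)] at hr
    have : 0 ≤ m ^ 2 - r ^ 2 := by nlinarith [hr.1, hr.2]
    simp only
    rw [max_eq_left this]
    ring
  rw [h2]
  have hd : ∀ r : ℝ, HasDerivAt (fun r : ℝ => m ^ 4 * r - 2 * m ^ 2 * (r ^ 3 / 3) + r ^ 5 / 5)
      (m ^ 4 - 2 * m ^ 2 * r ^ 2 + r ^ 4) r := by
    intro r
    have := (((hasDerivAt_id r).const_mul (m ^ 4)).sub
      (((hasDerivAt_pow 3 r).div_const 3).const_mul (2 * m ^ 2))).add
      ((hasDerivAt_pow 5 r).div_const 5)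
    refine this.congr_deriv ?_
    simp
  have hcont : Continuous fun r : ℝ => m ^ 4 - 2 * m ^ 2 * r ^ 2 + r ^ 4 := by fun_prop
  rw [intervalIntegral.integral_eq_sub_of_hasDerivAt (fun r _ => hd r)
    (hcont.intervalIntegrable _ _)]
  ring

theorem young_pt {b y r η : ℝ} (hb : 0 < b) (hy : 0 ≤ y) :
    η * y - (max (η - r ^ 2) 0) ^ 2 / (4 * b) ≤ b * y ^ 2 + r ^ 2 * y := by
  rcases le_total 0 (η - r ^ 2) with h | h
  · rw [max_eq_left h]
    have : 0 ≤ (2 * b * y - (η - r ^ 2)) ^ 2 / (4 * b) := by positivity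
    have e : (2 * b * y - (η - r ^ 2)) ^ 2 / (4 * b)
        = b * y ^ 2 - (η - r ^ 2) * y + (η - r ^ 2) ^ 2 / (4 * b) := by
      field_simp
      ring
    rw [e] at this
    linarith
  · rw [max_eq_right h]
    have : 0 ≤ (r ^ 2 - η) * y := mul_nonneg (by linarith) hy
    have h2 : 0 ≤ b * y ^ 2 := by positivity
    simp only [ne_eq, OfNat.ofNat_ne_zero, not_false_eq_true, zero_pow, zero_div]
    nlinarith

/-- the pointwise lower bound after integration over `r` -/
theorem pointwise_W {N : ℕ} {b L : ℝ} (hb : 0 < b) (hL : 0 ≤ L) (s n : Fin N → ℝ)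
    (hs : ∀ i, 0 ≤ s i) (hsL : ∀ i, b * s i / Real.pi ≤ L ^ 2) (hn : ∀ i, 0 ≤ n i)
    (h0 : ∀ i, s i = 0 → n i = 0) :
    3 / 5 * (3 * b / 2) ^ ((2 : ℝ) / 3) * (∑ i, n i) ^ ((5 : ℝ) / 3)
      ≤ ∫ r in (-L)..L, (b * (∑ i, Gw b (s i) r * n i) ^ 2
          + r ^ 2 * ∑ i, Gw b (s i) r * n i) := by
  set ρ := ∑ i, n i with hρ
  have hρ0 : 0 ≤ ρ := Finset.sum_nonneg fun i _ => hn i
  set m := (3 * b * ρ / 2) ^ ((1 : ℝ) / 3) with hm
  have hm0 : 0 ≤ m := Real.rpow_nonneg (by positivity) _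
  have hm3 : m ^ 3 = 3 * b * ρ / 2 := by
    rw [hm, ← Real.rpow_natCast, ← Real.rpow_mul (by positivity)]
    norm_num
  have hcy : Continuous fun r : ℝ => ∑ i, Gw b (s i) r * n i :=
    continuous_finsetSum _ fun i _ => (Gw_cont b (s i)).mul continuous_const
  have hint : ∫ r in (-L)..L, (∑ i, Gw b (s i) r * n i) = ρ := by
    rw [intervalIntegral.integral_finsetSum]
    · refine Finset.sum_congr rfl fun i _ => ?_
      rw [intervalIntegral.integral_mul_const]
      rcases eq_or_lt_of_le (hs i) with h | h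
      · rw [h0 i h.symm, mul_zero]
      · rw [Gw_int hb h hL (hsL i), one_mul]
    · intro i _
      exact ((Gw_cont b (s i)).mul continuous_const).intervalIntegrable _ _
  have h1 : ∫ r in (-L)..L, (m ^ 2 * (∑ i, Gw b (s i) r * n i)
        - (max (m ^ 2 - r ^ 2) 0) ^ 2 / (4 * b))
      ≤ ∫ r in (-L)..L, (b * (∑ i, Gw b (s i) r * n i) ^ 2
          + r ^ 2 * ∑ i, Gw b (s i) r * n i) := by
    refine intervalIntegral.integral_mono_on (by linarith) ?_ ?_ ?_
    · exact (Continuous.sub (continuous_const.mul hcy) (by fun_prop)).intervalIntegrable _ _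
    · exact ((continuous_const.mul (hcy.pow 2)).add
        ((continuous_pow 2).mul hcy)).intervalIntegrable _ _
    · intro r _
      exact young_pt hb (Finset.sum_nonneg fun i _ => mul_nonneg (Gw_nonneg hb (hs i) r) (hn i))
  refine le_trans ?_ h1
  have hc1 : Continuous fun r : ℝ => m ^ 2 * ∑ i, Gw b (s i) r * n i := continuous_const.mul hcy
  have hc2 : Continuous fun r : ℝ => (max (m ^ 2 - r ^ 2) 0) ^ 2 / (4 * b) := by fun_prop
  rw [intervalIntegral.integral_sub (hc1.intervalIntegrable _ _) (hc2.intervalIntegrable _ _),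
    intervalIntegral.integral_const_mul, hint, intervalIntegral.integral_div]
  have h2 := quartic_int (m := m) hm0 hL
  have h3 : (∫ r in (-L)..L, (max (m ^ 2 - r ^ 2) 0) ^ 2) / (4 * b)
      ≤ 16 / 15 * m ^ 5 / (4 * b) := by gcongr
  have h4 : 16 / 15 * m ^ 5 / (4 * b) = 2 / 5 * m ^ 2 * ρ := by
    have : m ^ 5 = m ^ 2 * (3 * b * ρ / 2) := by rw [← hm3]; ring
    rw [this]
    field_simp
    ring
  have h5 : 3 / 5 * (3 * b / 2) ^ ((2 : ℝ) / 3) * ρ ^ ((5 : ℝ) / 3) = 3 / 5 * m ^ 2 * ρ := by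
    have e1 : m ^ 2 = (3 * b / 2) ^ ((2 : ℝ) / 3) * ρ ^ ((2 : ℝ) / 3) := by
      rw [hm, ← Real.rpow_natCast, ← Real.rpow_mul (by positivity), ← Real.mul_rpow (by positivity)
        hρ0]
      congr 1
      · ring
      · norm_num
    have e2 : ρ ^ ((5 : ℝ) / 3) = ρ ^ ((2 : ℝ) / 3) * ρ := by
      rcases eq_or_lt_of_le hρ0 with h | h
      · rw [← h, Real.zero_rpow (by norm_num), mul_zero]
      · conv_rhs => rw [← Real.rpow_one ρ, ← Real.rpow_mul hρ0, ← Real.rpow_add h]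
        norm_num
    rw [e1, e2]
    ring
  rw [h5]
  linarith

end Pool.LT
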